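import Pool.Agent.Lib.MP_4d28ec_Lift.Defs
import Pool.Agent.Lib.MP_4d28ec_h44.Rigid2
import Pool.Agent.Lib.MP_4d28ec_h44.Low

/-!
N1: Hamming distance, correction of the weight, reading maps, functions of few coordinates and the weight.
-/

open Finset

namespace Pool.Agent.MP4d28ec

open Pool.Agent.H44IT

/-- The number of coordinates at which two points differ. -/
def hd {n : ℕ} (x y : Cube n) : ℕ := (Finset.univ.filter fun i => x i ≠ y i).card

lemma hd_comm {n : ℕ} (x y : Cube n) : hd x y = hd y x := by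
  unfold hd
  congr 1
  ext i
  simp [ne_comm]

lemma hd_triangle {n : ℕ} (x y z : Cube n) : hd x z ≤ hd x y + hd y z := by
  unfold hd
  refine (Finset.card_le_card ?_).trans (Finset.card_union_le _ _)
  intro i
  simp only [mem_filter, mem_univ, true_and, mem_union]
  intro h
  by_contra h'
  push Not at h'
  exact h (h'.1.trans h'.2)

lemma wt_le {n : ℕ} (x : Cube n) : wt x ≤ n := by
  unfold wt
  exact (Finset.card_le_univ _).trans (by simp)

lemma wt_le_add_hd {n : ℕ} (x y : Cube n) : wt x ≤ wt y + hd x y := by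
  unfold wt hd
  refine (Finset.card_le_card ?_).trans (Finset.card_union_le _ _)
  intro i
  simp only [mem_filter, mem_univ, true_and, mem_union]
  intro h
  by_cases h' : x i = y i
  · left
    rw [← h', h]
  · right
    exact h'

lemma abs_wt_sub_le {n : ℕ} (x y : Cube n) : |(wt x : ℝ) - wt y| ≤ hd x y := by
  have h1 : (wt x : ℝ) ≤ wt y + hd x y := by exact_mod_cast wt_le_add_hd x y
  have h2 : (wt y : ℝ) ≤ wt x + hd x y := by
    rw [hd_comm]
    exact_mod_cast wt_le_add_hd y x
  rw [abs_le]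
  constructor <;> linarith

lemma card_true_false_le {n : ℕ} (x y : Cube n) :
    (Finset.univ.filter fun i => x i = true ∧ y i = false).card ≤ hd x y := by
  unfold hd
  apply Finset.card_le_card
  intro i
  simp only [mem_filter, mem_univ, true_and]
  rintro ⟨h1, h2⟩
  rw [h1, h2]
  simp

theorem exists_corr {n : ℕ} (a : ℕ) (ha : a ≤ n) (y : Cube n) :
    ∃ y' : Cube n, wt y' = a ∧ (hd y y' : ℝ) ≤ |(wt y : ℝ) - a| := by
  classical
  have key : ∀ S : Finset (Fin n),
      wt (fun i => decide (i ∈ S)) = S.card := by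
    intro S
    unfold wt
    congr 1
    ext i
    simp
  rcases le_total a (wt y) with h | h
  · obtain ⟨S, hS, hc⟩ := Finset.exists_subset_card_eq (s := Finset.univ.filter fun i => y i = true)
      (n := a) h
    refine ⟨fun i => decide (i ∈ S), by rw [key, hc], ?_⟩
    have h1 : hd y (fun i => decide (i ∈ S)) + a = wt y := by
      unfold hd wt
      rw [← hc, ← Finset.card_sdiff_add_card_eq_card hS]
      congr 2
      ext i
      simp only [mem_filter, mem_univ, true_and, mem_sdiff]
      have h2 : i ∈ S → y i = true := fun hi => by simpa using hS hi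
      by_cases hi : i ∈ S
      · simp [hi, h2 hi]
      · cases hy : y i <;> simp [hi]
    have h3 : (hd y (fun i => decide (i ∈ S)) : ℝ) + a = wt y := by exact_mod_cast h1
    rw [abs_of_nonneg (by
      have : (a : ℝ) ≤ wt y := by exact_mod_cast h
      linarith)]
    linarith
  · obtain ⟨S, hS, hc⟩ := Finset.exists_superset_card_eq
      (s := Finset.univ.filter fun i => y i = true) (n := a) h (by simpa using ha)
    refine ⟨fun i => decide (i ∈ S), by rw [key, hc], ?_⟩
    have h1 : hd y (fun i => decide (i ∈ S)) + wt y = a := by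
      unfold hd wt
      rw [← hc, ← Finset.card_sdiff_add_card_eq_card hS]
      congr 2
      ext i
      simp only [mem_filter, mem_univ, true_and, mem_sdiff]
      have h2 : y i = true → i ∈ S := fun hi => hS (by simpa using hi)
      by_cases hi : i ∈ S
      · cases hy : y i <;> simp [hi]
      · cases hy : y i
        · simp [hi]
        · exact absurd (h2 hy) hi
    have h3 : (hd y (fun i => decide (i ∈ S)) : ℝ) + wt y = a := by exact_mod_cast h1
    rw [abs_sub_comm, abs_of_nonneg (by
      have : (wt y : ℝ) ≤ a := by exact_mod_cast h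
      linarith)]
    linarith

/-- `y` corrected to have weight `a` by changing as few coordinates as possible. -/
noncomputable def corr {n : ℕ} (a : ℕ) (y : Cube n) : Cube n :=
  if h : a ≤ n then (exists_corr a h y).choose else y

lemma wt_corr {n a : ℕ} (h : a ≤ n) (y : Cube n) : wt (corr a y) = a := by
  unfold corr
  rw [dif_pos h]
  exact (exists_corr a h y).choose_spec.1

lemma hd_corr {n a : ℕ} (h : a ≤ n) (y : Cube n) :
    (hd y (corr a y) : ℝ) ≤ |(wt y : ℝ) - a| := by
  unfold corr
  rw [dif_pos h]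
  exact (exists_corr a h y).choose_spec.2

/-- The block of a coordinate. -/
def blk (n : ℕ) {K : ℕ} (hK : 0 < K) (i : Fin n) : Fin K := ⟨(i : ℕ) % K, Nat.mod_lt _ hK⟩

/-- The reading map: every coordinate is read at the representative of its block, then the weight
is corrected. -/
noncomputable def rdm {n K : ℕ} (hK : 0 < K) (ρ : Fin K → Fin n) (x : Cube n) : Cube n :=
  corr (wt x) (fun i => x (ρ (blk n hK i)))

lemma wt_rdm {n K : ℕ} (hK : 0 < K) (ρ : Fin K → Fin n) (x : Cube n) :
    wt (rdm hK ρ x) = wt x := wt_corr (wt_le x) _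

lemma hd_rdm {n K : ℕ} (hK : 0 < K) (ρ : Fin K → Fin n) (x : Cube n) :
    (hd (fun i => x (ρ (blk n hK i))) (rdm hK ρ x) : ℝ) ≤
      |(wt (fun i => x (ρ (blk n hK i)) : Cube n) : ℝ) - wt x| := hd_corr (wt_le x) _

lemma rdm_perm {n K : ℕ} (hK : 0 < K) (ρ : Fin K → Fin n) (x : Cube n)
    (π : Equiv.Perm (Fin n)) :
    rdm hK ρ (fun i => x (π i)) = rdm hK (fun k => π (ρ k)) x := by
  unfold rdm
  rw [wt_perm]

lemma partiallySymmetric_rdm {n K : ℕ} (hK : 0 < K) (ρ : Fin K → Fin n) (g : Cube n → Bool) :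
    PartiallySymmetric K (fun x => g (rdm hK ρ x)) :=
  ⟨ρ, fun z w => g (corr w (fun i => z (blk n hK i))), fun _ => rfl⟩

lemma PartiallySymmetric.permute {n k : ℕ} {h : Cube n → Bool} (hh : PartiallySymmetric k h)
    (π : Equiv.Perm (Fin n)) : PartiallySymmetric k (permute h π) := by
  obtain ⟨ρ, H, hH⟩ := hh
  refine ⟨fun a => π (ρ a), H, fun x => ?_⟩
  unfold MP4d28ec.permute
  rw [hH, wt_perm]

lemma PartiallySymmetric.mono {n k k' : ℕ} (hn : 0 < n) {h : Cube n → Bool}
    (hh : PartiallySymmetric k h) (hk : k ≤ k') : PartiallySymmetric k' h := by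
  obtain ⟨ρ, H, hH⟩ := hh
  refine ⟨fun a => if ha : (a : ℕ) < k then ρ ⟨a, ha⟩ else ⟨0, hn⟩,
    fun z w => H (fun a => z (Fin.castLE hk a)) w, fun x => ?_⟩
  rw [hH]
  congr 1
  funext a
  simp

lemma partiallySymmetric_of_le {n k : ℕ} (hn : 0 < n) (hk : n ≤ k) (h : Cube n → Bool) :
    PartiallySymmetric k h :=
  PartiallySymmetric.mono hn (k := n) ⟨id, fun z _ => h z, fun _ => rfl⟩ hk

/-- Stability of one function on the middle slices. -/
def Stab {n : ℕ} (c δ ε : ℝ) (g : Cube n → Bool) : Prop :=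
  ∀ x y : Cube n, wt x = wt y → c * n ≤ (wt x : ℝ) → (wt x : ℝ) ≤ (1 - c) * n →
    (hd x y : ℝ) ≤ δ * n →
      Pr (fun π : Equiv.Perm (Fin n) => g (fun i => x (π i)) ≠ g (fun i => y (π i))) ≤ ε

lemma SliceStable.exists_stab {g : (n : ℕ) → Cube n → Bool} (hg : SliceStable g) {ε c : ℝ}
    (hε : 0 < ε) (hc : 0 < c) : ∃ δ : ℝ, 0 < δ ∧ ∀ n, Stab c δ ε (g n) := by
  classical
  obtain ⟨δ, hδ, h⟩ := hg ε hε c hc
  refine ⟨δ, hδ, fun n x y hw h1 h2 h3 => ?_⟩
  rw [Pr_eq_card, Fintype.card_perm, Fintype.card_fin, div_le_iff₀ (by positivity)]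
  refine h n x y hw h1 h2 (le_trans ?_ h3)
  exact_mod_cast card_true_false_le x y

end Pool.Agent.MP4d28ec
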