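import Pool.Agent.Lib.MP_4d28ec_Lift.PTF
import Pool.Agent.Lib.MP_4d28ec_Lift.N1

/-!
Families that are approximable on the middle slices by combinations of boundedly many polynomial
threshold functions of bounded degree are stable on the middle slices.
-/

open Finset

namespace Pool.Agent.MP4d28ec

open Pool.Agent.H44IT

lemma exists_perm_of_wt {n : ℕ} {x y : Cube n} (h : wt x = wt y) :
    ∃ ρ : Equiv.Perm (Fin n), ∀ i, y i = x (ρ i) := by
  apply exists_perm_of_card
  have h1 : (univ.filter fun i => x i = true).card = (univ.filter fun i => y i = true).card := h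
  have key : ∀ z : Cube n, (univ.filter fun i => z i = true).card +
      (univ.filter fun i => z i = false).card = n := by
    intro z
    have := Finset.card_filter_add_card_filter_not (s := (univ : Finset (Fin n)))
      (fun i => z i = true)
    simpa using this
  intro t
  cases t
  · have := key x
    have := key y
    omega
  · exact h1.symm

/-- A uniformly relabelled point is uniform on its slice. -/
lemma card_perm_slice {n : ℕ} (x : Cube n) (F : Cube n → Prop) [DecidablePred F] :
    ((univ.filter fun y : Cube n => wt y = wt x).card : ℝ) *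
      ((univ.filter fun π : Equiv.Perm (Fin n) => F (fun i => x (π i))).card : ℝ) =
      n.factorial * ((univ.filter fun y : Cube n => wt y = wt x ∧ F y).card : ℝ) := by
  have h1 : ∑ y ∈ univ.filter (fun y : Cube n => wt y = wt x),
      (univ.filter fun π : Equiv.Perm (Fin n) => F (fun i => y (π i))).card =
      ∑ π : Equiv.Perm (Fin n),
        (univ.filter fun y : Cube n => wt y = wt x ∧ F (fun i => y (π i))).card := by
    simp only [Finset.card_filter, Finset.sum_filter]
    rw [Finset.sum_comm (s := (univ : Finset (Equiv.Perm (Fin n))))]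
    refine Finset.sum_congr rfl fun y _ => ?_
    by_cases h : wt y = wt x
    · simp [h]
    · simp [h]
  have h2 : ∀ y ∈ univ.filter (fun y : Cube n => wt y = wt x),
      (univ.filter fun π : Equiv.Perm (Fin n) => F (fun i => y (π i))).card =
      (univ.filter fun π : Equiv.Perm (Fin n) => F (fun i => x (π i))).card := by
    intro y hy
    obtain ⟨ρ, hρ⟩ := exists_perm_of_wt (Finset.mem_filter.1 hy).2.symm
    apply Finset.card_bij (fun π _ => ρ * π)
    · intro π hπ
      rw [Finset.mem_filter] at hπ ⊢
      refine ⟨Finset.mem_univ _, ?_⟩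
      have : (fun i => x ((ρ * π) i)) = fun i => y (π i) := by
        funext i
        rw [hρ]
        rfl
      rw [this]
      exact hπ.2
    · intro π _ π' _ h
      exact mul_left_cancel h
    · intro π hπ
      refine ⟨ρ⁻¹ * π, ?_, by simp⟩
      rw [Finset.mem_filter] at hπ ⊢
      refine ⟨Finset.mem_univ _, ?_⟩
      have : (fun i => y ((ρ⁻¹ * π) i)) = fun i => x (π i) := by
        funext i
        rw [hρ]
        simp
      rw [this]
      exact hπ.2
  have h3 : ∀ π : Equiv.Perm (Fin n),
      (univ.filter fun y : Cube n => wt y = wt x ∧ F (fun i => y (π i))).card =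
      (univ.filter fun y : Cube n => wt y = wt x ∧ F y).card := by
    intro π
    apply Finset.card_bij (fun y _ => fun i => y (π i))
    · intro y hy
      rw [Finset.mem_filter] at hy ⊢
      exact ⟨Finset.mem_univ _, by rw [wt_perm]; exact hy.2.1, hy.2.2⟩
    · intro y _ y' _ h
      funext i
      have := congrFun h (π⁻¹ i)
      simpa using this
    · intro y hy
      rw [Finset.mem_filter] at hy
      refine ⟨fun i => y (π⁻¹ i), ?_, ?_⟩
      · rw [Finset.mem_filter]
        refine ⟨Finset.mem_univ _, by rw [wt_perm]; exact hy.2.1, ?_⟩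
        have : (fun i => (fun i => y (π⁻¹ i)) (π i)) = y := by
          funext i
          exact congrArg y (π.symm_apply_apply i)
        rw [this]
        exact hy.2.2
      · funext i
        exact congrArg y (π.symm_apply_apply i)
  rw [Finset.sum_congr rfl h2, Finset.sum_congr rfl (fun π _ => h3 π)] at h1
  simp only [Finset.sum_const, smul_eq_mul, Finset.card_univ, Fintype.card_perm,
    Fintype.card_fin] at h1
  exact_mod_cast h1

theorem sliceStable_of_ptfApproximable {g : (n : ℕ) → Cube n → Bool} (hg : PTFApproximable g) :
    SliceStable g := by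
  classical
  intro ε hε c hc
  obtain ⟨r, D, H⟩ := hg (ε / 3) (by positivity) c hc
  choose h hPTF hclose using H
  obtain ⟨δ, hδ, hst⟩ := (relStable_of_ptf hPTF).sliceStable (ε / 3) (by positivity) c hc
  refine ⟨δ, hδ, fun n x y hw h1 h2 h3 => ?_⟩
  have hst' := hst n x y hw h1 h2 h3
  have hcl : ∀ z : Cube n, wt z = wt x →
      ((univ.filter fun π : Equiv.Perm (Fin n) =>
        g n (fun i => z (π i)) ≠ h n (fun i => z (π i))).card : ℝ) ≤ ε / 3 * n.factorial := by
    intro z hz
    have e1 := card_perm_slice z (fun y => g n y ≠ h n y)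
    have e2 := hclose n (wt x) h1 h2
    rw [hz] at e1
    have hpos : (0 : ℝ) < ((univ.filter fun y : Cube n => wt y = wt x).card : ℝ) := by
      have : 0 < (univ.filter fun y : Cube n => wt y = wt x).card :=
        Finset.card_pos.2 ⟨x, by simp⟩
      exact_mod_cast this
    refine le_of_mul_le_mul_left ?_ hpos
    rw [e1]
    have hf : (0 : ℝ) ≤ n.factorial := by positivity
    calc (n.factorial : ℝ) * _ ≤ n.factorial * (ε / 3 *
          ((univ.filter fun y : Cube n => wt y = wt x).card : ℝ)) :=
          mul_le_mul_of_nonneg_left e2 hf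
      _ = _ := by ring
  have hsub : (univ.filter fun π : Equiv.Perm (Fin n) =>
      g n (fun i => x (π i)) ≠ g n (fun i => y (π i))) ⊆
      ((univ.filter fun π : Equiv.Perm (Fin n) =>
        g n (fun i => x (π i)) ≠ h n (fun i => x (π i))) ∪
      (univ.filter fun π : Equiv.Perm (Fin n) =>
        h n (fun i => x (π i)) ≠ h n (fun i => y (π i)))) ∪
      (univ.filter fun π : Equiv.Perm (Fin n) =>
        g n (fun i => y (π i)) ≠ h n (fun i => y (π i))) := by
    intro π
    simp only [mem_filter, mem_univ, true_and, mem_union]
    intro hne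
    by_contra hcon
    push Not at hcon
    exact hne (hcon.1.1.trans (hcon.1.2.trans hcon.2.symm))
  have hcard := (Finset.card_le_card hsub).trans ((Finset.card_union_le _ _).trans
    (Nat.add_le_add_right (Finset.card_union_le _ _) _))
  have hcard' : ((univ.filter fun π : Equiv.Perm (Fin n) =>
      g n (fun i => x (π i)) ≠ g n (fun i => y (π i))).card : ℝ) ≤
      ((univ.filter fun π : Equiv.Perm (Fin n) =>
        g n (fun i => x (π i)) ≠ h n (fun i => x (π i))).card : ℝ) +
      ((univ.filter fun π : Equiv.Perm (Fin n) =>
        h n (fun i => x (π i)) ≠ h n (fun i => y (π i))).card : ℝ) +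
      ((univ.filter fun π : Equiv.Perm (Fin n) =>
        g n (fun i => y (π i)) ≠ h n (fun i => y (π i))).card : ℝ) := by
    exact_mod_cast hcard
  have := hcl x rfl
  have := hcl y hw.symm
  linarith

end Pool.Agent.MP4d28ec
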