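import Pool.Agent.Lib.MP_4d28ec_h44.Defs

/-!
Families of Boolean functions that are close to partially symmetric functions, families that are
stable under small changes of the input which preserve the Hamming weight, and families that are
approximable by combinations of polynomial threshold functions.
-/

open Finset

namespace Pool.Agent.MP4d28ec

/-- For every `ε > 0` the family is `ε`-close to `k(ε)`-partially symmetric functions. -/
def CloseToPS (g : (n : ℕ) → Cube n → Bool) : Prop :=
  ∀ ε : ℝ, 0 < ε → ∃ k : ℕ, ∀ n : ℕ, 0 < n → ∃ h : Cube n → Bool,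
    PartiallySymmetric k h ∧ dist (g n) h ≤ ε

/-- The family is stable on the slices of the middle part of the cube: for all `ε, c > 0` there is
`δ > 0` such that for all `n` and all points `x`, `y` of the same weight between `c n` and
`(1 - c) n` such that `x` is `1` and `y` is `0` at no more than `δ n` places, after a uniformly
random relabelling of the coordinates the values of `g n` at `x` and `y` differ with probability
at most `ε`. (There is no condition on slices of weight `o(n)` or `n - o(n)`.) -/
def SliceStable (g : (n : ℕ) → Cube n → Bool) : Prop :=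
  ∀ ε : ℝ, 0 < ε → ∀ c : ℝ, 0 < c → ∃ δ : ℝ, 0 < δ ∧ ∀ (n : ℕ) (x y : Cube n), wt x = wt y →
    c * n ≤ (wt x : ℝ) → (wt x : ℝ) ≤ (1 - c) * n →
      ((Finset.univ.filter fun i => x i = true ∧ y i = false).card : ℝ) ≤ δ * n →
        ((Finset.univ.filter fun π : Equiv.Perm (Fin n) =>
          g n (fun i => x (π i)) ≠ g n (fun i => y (π i))).card : ℝ) ≤ ε * n.factorial

/-- The polynomial threshold function of `p`: the value at `x` is `1` iff `p(x) ≥ 0`. -/
noncomputable def ptf {n : ℕ} (p : MvPolynomial (Fin n) ℝ) (x : Cube n) : Bool :=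
  decide (0 ≤ MvPolynomial.eval (fun i => if x i = true then (1 : ℝ) else 0) p)

/-- `h` is on every slice a function of `r` polynomial threshold functions of degree at most `D`,
with arbitrary real coefficients. -/
def PTFCombination {n : ℕ} (r D : ℕ) (h : Cube n → Bool) : Prop :=
  ∃ (p : ℕ → Fin r → MvPolynomial (Fin n) ℝ) (F : ℕ → (Fin r → Bool) → Bool),
    (∀ a j, (p a j).totalDegree ≤ D) ∧ ∀ x, h x = F (wt x) (fun j => ptf (p (wt x) j) x)

/-- For every `ε > 0` and `c > 0` there are `r` and `D` such that every `g n` agrees on all slices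
of weight between `c n` and `(1 - c) n`, up to a fraction `ε` of the slice, with a combination of
`r` polynomial threshold functions of degree at most `D`. -/
def PTFApproximable (g : (n : ℕ) → Cube n → Bool) : Prop :=
  ∀ ε : ℝ, 0 < ε → ∀ c : ℝ, 0 < c → ∃ r D : ℕ, ∀ n : ℕ, ∃ h : Cube n → Bool,
    PTFCombination r D h ∧ ∀ a : ℕ, c * n ≤ (a : ℝ) → (a : ℝ) ≤ (1 - c) * n →
      ((Finset.univ.filter fun x : Cube n => wt x = a ∧ g n x ≠ h x).card : ℝ) ≤
        ε * ((Finset.univ.filter fun x : Cube n => wt x = a).card : ℝ)

end Pool.Agent.MP4d28ec
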