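import Mathlib

/-!
N2: two colourings of a finite set with nearly the same colour sizes agree up to a permutation at
all but few points.
-/

open Finset

namespace Pool.Agent.MP4d28ec

/-- Proof: take a permutation with the largest number of agreements. For no colour `s` are there
both a bad `i` with `G i = s` and a bad `i'` with `F (π i') = s`: otherwise `π * swap i i'` agrees
at more points. Hence the number of bad `i` with `G i = s` is at most the difference of the sizes
of the two colour classes. -/
theorem exists_match {n : ℕ} {C : Type*} [Fintype C] [DecidableEq C] (F G : Fin n → C) :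
    ∃ π : Equiv.Perm (Fin n), ((Finset.univ.filter fun i => G i ≠ F (π i)).card : ℝ) ≤
      ∑ s : C, |((Finset.univ.filter fun i => G i = s).card : ℝ) -
        ((Finset.univ.filter fun i => F i = s).card : ℝ)| := by
  classical
  obtain ⟨π, -, hmax⟩ := Finset.exists_max_image (Finset.univ : Finset (Equiv.Perm (Fin n)))
    (fun π => (Finset.univ.filter fun i => G i = F (π i)).card) ⟨1, Finset.mem_univ _⟩
  refine ⟨π, ?_⟩
  have claim : ∀ i i' : Fin n, G i ≠ F (π i) → F (π i') = G i → G i' = F (π i') := by
    intro i i' hi hi'
    by_contra hbad
    have hne : i ≠ i' := by
      rintro rfl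
      exact hi hi'.symm
    have h1 := hmax (π * Equiv.swap i i') (Finset.mem_univ _)
    have h2 : (Finset.univ.filter fun i => G i = F (π i)) ⊂
        (Finset.univ.filter fun j => G j = F ((π * Equiv.swap i i') j)) := by
      rw [Finset.ssubset_iff_of_subset]
      · refine ⟨i, ?_, ?_⟩
        · simp only [mem_filter, mem_univ, true_and, Equiv.Perm.coe_mul, Function.comp_apply,
            Equiv.swap_apply_left]
          exact hi'.symm
        · simpa using hi
      · intro j hj
        simp only [mem_filter, mem_univ, true_and] at hj ⊢
        have hji : j ≠ i := by
          rintro rfl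
          exact hi hj
        have hji' : j ≠ i' := by
          rintro rfl
          exact hbad hj
        rw [Equiv.Perm.coe_mul, Function.comp_apply, Equiv.swap_apply_of_ne_of_ne hji hji']
        exact hj
    exact absurd (Finset.card_lt_card h2) (not_lt.2 h1)
  have hsum : ((Finset.univ.filter fun i => G i ≠ F (π i)).card : ℝ) =
      ∑ s : C, ((Finset.univ.filter fun i => G i = s ∧ G i ≠ F (π i)).card : ℝ) := by
    rw [Finset.card_eq_sum_card_fiberwise (f := G) (t := Finset.univ)
      (fun _ _ => by simp)]
    push_cast
    refine Finset.sum_congr rfl fun s _ => ?_
    rw [Finset.filter_filter]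
    congr 2
    ext i
    simp only [mem_filter, mem_univ, true_and]
    tauto
  rw [hsum]
  refine Finset.sum_le_sum fun s _ => ?_
  by_cases hs : ∃ i, G i = s ∧ G i ≠ F (π i)
  · obtain ⟨i, hi, hb⟩ := hs
    have h1 : (Finset.univ.filter fun j => G j = s).card =
        (Finset.univ.filter fun j => F (π j) = s).card +
          (Finset.univ.filter fun j => G j = s ∧ G j ≠ F (π j)).card := by
      rw [← Finset.card_union_of_disjoint]
      · congr 1
        ext j
        simp only [mem_filter, mem_univ, true_and, mem_union]
        constructor
        · intro hj
          by_cases h : G j = F (π j)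
          · left
            rw [← h, hj]
          · right
            exact ⟨hj, h⟩
        · rintro (hj | hj)
          · have := claim i j hb (by rw [hj, hi])
            rw [this, hj]
          · exact hj.1
      · rw [Finset.disjoint_left]
        intro j hj hj'
        simp only [mem_filter, mem_univ, true_and] at hj hj'
        exact hj'.2 (by rw [hj, hj'.1])
    have h2 : (Finset.univ.filter fun j => F (π j) = s).card =
        (Finset.univ.filter fun j => F j = s).card := by
      refine Finset.card_bij (fun j _ => π j) ?_ ?_ ?_
      · intro j hj
        simpa using hj
      · intro a _ b _ hab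
        exact π.injective hab
      · intro b hb
        refine ⟨π.symm b, ?_, by simp⟩
        simpa using hb
    have h3 : ((Finset.univ.filter fun j => G j = s).card : ℝ) -
        ((Finset.univ.filter fun j => F j = s).card : ℝ) =
          ((Finset.univ.filter fun j => G j = s ∧ G j ≠ F (π j)).card : ℝ) := by
      rw [h1, h2]
      push_cast
      ring
    rw [← h3]
    exact le_abs_self _
  · have : (Finset.univ.filter fun j => G j = s ∧ G j ≠ F (π j)) = ∅ := by
      rw [Finset.filter_eq_empty_iff]
      intro j _ hj
      exact hs ⟨j, hj⟩
    rw [this]
    simp

end Pool.Agent.MP4d28ec
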