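import Mathlib

/-!
N3: a permutation agreeing with a given one on a small set and moving few points.
-/

open Finset

namespace Pool.Agent.MP4d28ec

/-- Proof: induction on `A`; `r' = swap (r a) (β a) * r`. -/
theorem exists_ext {n : ℕ} (A : Finset (Fin n)) (β : Equiv.Perm (Fin n)) :
    ∃ r : Equiv.Perm (Fin n), (∀ a ∈ A, r a = β a) ∧
      (Finset.univ.filter fun i => r i ≠ i).card ≤ 2 * A.card := by
  classical
  induction A using Finset.induction_on with
  | empty => exact ⟨1, by simp, by simp⟩
  | @insert a A ha ih =>
    obtain ⟨r, hr, hc⟩ := ih
    refine ⟨Equiv.swap (r a) (β a) * r, ?_, ?_⟩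
    · intro b hb
      rcases Finset.mem_insert.1 hb with rfl | hb
      · simp
      · have hba : b ≠ a := fun h => ha (h ▸ hb)
        have h1 : r b ≠ r a := fun h => hba (r.injective h)
        have h2 : r b ≠ β a := by
          rw [hr b hb]
          exact fun h => hba (β.injective h)
        rw [Equiv.Perm.mul_apply, Equiv.swap_apply_of_ne_of_ne h1 h2, hr b hb]
    · have hsub : (univ.filter fun i => (Equiv.swap (r a) (β a) * r) i ≠ i) ⊆
          (univ.filter fun i => r i ≠ i) ∪ {a, r.symm (β a)} := by
        intro i
        simp only [mem_filter, mem_univ, true_and, mem_union, mem_insert, mem_singleton]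
        intro h
        by_contra hcon
        push Not at hcon
        obtain ⟨h1, h2, h3⟩ := hcon
        apply h
        rw [Equiv.Perm.mul_apply, Equiv.swap_apply_of_ne_of_ne, h1]
        · exact fun h' => h2 (r.injective h')
        · exact fun h' => h3 (by rw [← h', Equiv.symm_apply_apply])
      refine (Finset.card_le_card hsub).trans ((Finset.card_union_le _ _).trans ?_)
      rw [Finset.card_insert_of_notMem ha]
      have := Finset.card_le_two (a := a) (b := r.symm (β a))
      omega

end Pool.Agent.MP4d28ec
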