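import Pool.Agent.Lib.MP_4d28ec_Lift.N1

/-!
N4: concentration of the size of the preimage of a set under a random reading map.
-/

open Finset

namespace Pool.Agent.MP4d28ec

open Pool.Agent.H44IT

private lemma card_blk_eq {n K : ℕ} (hK : 0 < K) (k : Fin K) :
    (Finset.univ.filter fun i : Fin n => blk n hK i = k).card =
      n / K + if (k : ℕ) % K < n % K then 1 else 0 := by
  classical
  rw [← Nat.count_modEq_card n hK k, Nat.count_eq_card_filter_range]
  refine Finset.card_bij (fun i _ => (i : ℕ)) ?_ ?_ ?_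
  · intro i hi
    simp only [mem_filter, mem_univ, true_and] at hi
    simp only [mem_filter, mem_range, i.isLt, true_and]
    have h1 : (i : ℕ) % K = (k : ℕ) := congrArg Fin.val hi
    unfold Nat.ModEq
    rw [h1, Nat.mod_eq_of_lt k.isLt]
  · intro i _ j _ hij
    exact Fin.ext hij
  · intro b hb
    simp only [mem_filter, mem_range] at hb
    refine ⟨⟨b, hb.1⟩, ?_, rfl⟩
    simp only [mem_filter, mem_univ, true_and]
    apply Fin.ext
    have h1 : b % K = (k : ℕ) % K := hb.2
    rw [Nat.mod_eq_of_lt k.isLt] at h1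
    exact h1

/-- Every block has `n / K` or `n / K + 1` elements. -/
lemma card_blk {n K : ℕ} (hK : 0 < K) (k : Fin K) :
    |((Finset.univ.filter fun i : Fin n => blk n hK i = k).card : ℝ) - (n : ℝ) / K| ≤ 1 := by
  rw [card_blk_eq hK k]
  have hK' : (0 : ℝ) < K := by exact_mod_cast hK
  have h1 : (n : ℝ) = K * ((n / K : ℕ) : ℝ) + ((n % K : ℕ) : ℝ) := by
    exact_mod_cast (Nat.div_add_mod n K).symm
  have h2 : ((n % K : ℕ) : ℝ) < K := by exact_mod_cast Nat.mod_lt n hK
  have h3 : (0 : ℝ) ≤ ((n % K : ℕ) : ℝ) := Nat.cast_nonneg _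
  have h4 : (n : ℝ) / K = ((n / K : ℕ) : ℝ) + ((n % K : ℕ) : ℝ) / K := by
    rw [h1]
    have : (K : ℝ) ≠ 0 := hK'.ne'
    have h5 : (((K * (n / K) + n % K : ℕ) : ℝ)) = (n : ℝ) := by
      exact_mod_cast congrArg (Nat.cast (R := ℝ)) (Nat.div_add_mod n K)
    field_simp
  have h5 : ((n % K : ℕ) : ℝ) / K < 1 := by rwa [div_lt_one hK']
  have h6 : 0 ≤ ((n % K : ℕ) : ℝ) / K := by positivity
  rw [h4, abs_le]
  split_ifs
  · push_cast
    constructor <;> linarith
  · push_cast
    constructor <;> linarith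

private lemma card_pre {n K : ℕ} (hK : 0 < K) (p : Fin n → Prop) [DecidablePred p]
    (ρ : Fin K → Fin n) :
    ((Finset.univ.filter fun i : Fin n => p (ρ (blk n hK i))).card : ℝ) =
      ∑ k ∈ Finset.univ.filter (fun k : Fin K => p (ρ k)),
        ((Finset.univ.filter fun i : Fin n => blk n hK i = k).card : ℝ) := by
  classical
  have h := Finset.card_eq_sum_card_fiberwise
    (s := Finset.univ.filter fun i : Fin n => p (ρ (blk n hK i)))
    (t := Finset.univ.filter fun k : Fin K => p (ρ k)) (f := fun i => blk n hK i)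
    (by
      intro i hi
      simp only [coe_filter, mem_univ, true_and, Set.mem_ofPred_eq] at hi ⊢
      exact hi)
  rw [h]
  push_cast
  refine Finset.sum_congr rfl fun k hk => ?_
  congr 2
  ext i
  simp only [mem_filter, mem_univ, true_and] at hk ⊢
  constructor
  · rintro ⟨_, h2⟩
    exact h2
  · intro h2
    refine ⟨?_, h2⟩
    rw [h2]
    exact hk

/-- Proof: the number in question is the sum of the sizes of the blocks `k` with `p (ρ k)`; by
`card_blk` it differs from `(n / K) #{k | p (ρ k)}` by at most `K`; use `chebyshev'` with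
`m = K` and `δ = τ`. -/
theorem conc {n K : ℕ} (hn : 0 < n) (hK : 0 < K) (p : Fin n → Prop) [DecidablePred p] {τ : ℝ}
    (hτ : 0 < τ) (hnK : (K : ℝ) ≤ τ / 2 * n) :
    Pr (fun ρ : Fin K → Fin n => τ * n ≤
      |((Finset.univ.filter fun i : Fin n => p (ρ (blk n hK i))).card : ℝ) -
        ((Finset.univ.filter fun i : Fin n => p i).card : ℝ)|) ≤ 1 / (K * τ ^ 2) := by
  have : Nonempty (Fin n) := ⟨⟨0, hn⟩⟩
  have hK' : (0 : ℝ) < K := by exact_mod_cast hK
  have hn' : (0 : ℝ) < n := by exact_mod_cast hn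
  refine (Pr_mono ?_).trans (chebyshev' p K hK hτ)
  intro ρ hρ
  have hP : Pr p = ((Finset.univ.filter p).card : ℝ) / n := by
    rw [Pr_eq_card, Fintype.card_fin]
  set A : ℝ := ((Finset.univ.filter fun i : Fin n => p (ρ (blk n hK i))).card : ℝ) with hA
  set B : ℝ := ((Finset.univ.filter fun i : Fin n => p i).card : ℝ) with hB
  set C : ℝ := ((Finset.univ.filter fun j => p (ρ j)).card : ℝ) with hC
  have hCK : C ≤ K := by
    rw [hC]
    have := Finset.card_filter_le (Finset.univ : Finset (Fin K)) (fun j => p (ρ j))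
    rw [Finset.card_univ, Fintype.card_fin] at this
    exact_mod_cast this
  have h1 : |A - C * ((n : ℝ) / K)| ≤ K := by
    rw [hA, card_pre hK p ρ]
    have h2 : C * ((n : ℝ) / K) =
        ∑ _k ∈ Finset.univ.filter (fun k : Fin K => p (ρ k)), (n : ℝ) / K := by
      rw [Finset.sum_const, nsmul_eq_mul]
    rw [h2, ← Finset.sum_sub_distrib]
    refine (Finset.abs_sum_le_sum_abs _ _).trans ?_
    refine (Finset.sum_le_sum (fun k _ => card_blk hK k)).trans ?_
    rw [Finset.sum_const, nsmul_eq_mul, mul_one]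
    exact hCK
  have h3 : τ * n / 2 ≤ |C * ((n : ℝ) / K) - B| := by
    have h4 : |A - B| ≤ |A - C * ((n : ℝ) / K)| + |C * ((n : ℝ) / K) - B| := abs_sub_le _ _ _
    have h5 : τ * n ≤ |A - B| := hρ
    linarith
  have h6 : C - K * Pr p = (K / n : ℝ) * (C * ((n : ℝ) / K) - B) := by
    rw [hP]
    field_simp
  rw [h6, abs_mul, abs_of_pos (by positivity : (0 : ℝ) < K / n)]
  calc (K : ℝ) * τ / 2 = (K / n : ℝ) * (τ * n / 2) := by field_simp
    _ ≤ _ := mul_le_mul_of_nonneg_left h3 (by positivity)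

end Pool.Agent.MP4d28ec
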