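import Pool.Agent.Lib.MP_4d28ec_Lift.N2
import Pool.Agent.Lib.MP_4d28ec_Lift.N4

/-!
N5: for most reading maps, the points read are close to relabelled points.
-/

open Finset

namespace Pool.Agent.MP4d28ec

open Pool.Agent.H44IT

/-- Proof: union bound over the `2 ^ q` atoms `{i | (fun j => x j i) = s}` with `conc`; for a good
`ρ` apply `exists_match` with `F i = fun j => x j i` and `G i = F (ρ (blk n hK i))`. Then
`hd (x j ∘ ρ ∘ blk) (x j ∘ π) ≤ 2 ^ q τ n`, so the weights differ by at most that, and the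
correction changes at most that many coordinates. -/
theorem read_close {n q K : ℕ} (hn : 0 < n) (hK : 0 < K) {τ : ℝ} (hτ : 0 < τ)
    (hnK : (K : ℝ) ≤ τ / 2 * n) (x : Fin q → Cube n) :
    Pr (fun ρ : Fin K → Fin n => ¬ ∃ π : Equiv.Perm (Fin n), ∀ j,
      (hd (rdm hK ρ (x j)) (fun i => x j (π i)) : ℝ) ≤ 2 * (2 ^ q * τ * n)) ≤
      2 ^ q / (K * τ ^ 2) := by
  classical
  have h1 : ∀ ρ : Fin K → Fin n, (¬ ∃ π : Equiv.Perm (Fin n), ∀ j,
      (hd (rdm hK ρ (x j)) (fun i => x j (π i)) : ℝ) ≤ 2 * (2 ^ q * τ * n)) →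
      ∃ s ∈ (Finset.univ : Finset (Fin q → Bool)), τ * n ≤
        |((Finset.univ.filter fun i : Fin n => (fun j => x j (ρ (blk n hK i))) = s).card : ℝ) -
          ((Finset.univ.filter fun i : Fin n => (fun j => x j i) = s).card : ℝ)| := by
    intro ρ hρ
    by_contra hcon
    push Not at hcon
    apply hρ
    obtain ⟨π, hπ⟩ := exists_match (fun (i : Fin n) (j : Fin q) => x j i)
      (fun (i : Fin n) (j : Fin q) => x j (ρ (blk n hK i)))
    have hM : ((Finset.univ.filter fun i : Fin n => (fun j : Fin q => x j (ρ (blk n hK i))) ≠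
        (fun j : Fin q => x j (π i))).card : ℝ) ≤ 2 ^ q * τ * n := by
      refine hπ.trans ((Finset.sum_le_sum fun s _ => (hcon s (Finset.mem_univ _)).le).trans ?_)
      simp only [Finset.sum_const, Finset.card_univ, Fintype.card_fun, Fintype.card_fin,
        Fintype.card_bool, nsmul_eq_mul]
      push_cast
      rw [mul_assoc]
    refine ⟨π, fun j => ?_⟩
    have h2 : (hd (fun i => x j (ρ (blk n hK i)) : Cube n) (fun i => x j (π i)) : ℝ) ≤
        2 ^ q * τ * n := by
      refine le_trans ?_ hM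
      unfold hd
      refine Nat.cast_le.2 (Finset.card_le_card ?_)
      intro i
      simp only [mem_filter, mem_univ, true_and]
      intro hi h
      exact hi (congrFun h j)
    have h3 := abs_wt_sub_le (fun i => x j (ρ (blk n hK i)) : Cube n) (fun i => x j (π i))
    rw [wt_perm] at h3
    have h4 := hd_rdm hK ρ (x j)
    have h5 : (hd (rdm hK ρ (x j)) (fun i => x j (π i)) : ℝ) ≤
        hd (fun i => x j (ρ (blk n hK i)) : Cube n) (rdm hK ρ (x j)) +
          hd (fun i => x j (ρ (blk n hK i)) : Cube n) (fun i => x j (π i)) := by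
      rw [hd_comm (fun i => x j (ρ (blk n hK i)) : Cube n) (rdm hK ρ (x j))]
      exact_mod_cast hd_triangle _ _ _
    linarith
  refine (Pr_mono h1).trans ((Pr_exists_le _ _).trans ?_)
  refine (Finset.sum_le_sum fun s _ => conc hn hK (fun i : Fin n => (fun j => x j i) = s) hτ
    hnK).trans ?_
  simp only [Finset.sum_const, Finset.card_univ, Fintype.card_fun, Fintype.card_fin,
    Fintype.card_bool, nsmul_eq_mul]
  push_cast
  rw [mul_one_div]

end Pool.Agent.MP4d28ec
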