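import Pool.Agent.Lib.MP_4d28ec_h44.Rigid2

/-!
N6: distance of the laws of two random variables on finite uniform spaces, and random functions
given by a map on a finite uniform space.
-/

open Finset

namespace Pool.Agent.MP4d28ec

open Pool.Agent.H44IT

private lemma abs_Ex_le {Ω : Type} [Fintype Ω] (f : Ω → ℝ) : |Ex f| ≤ Ex (fun a => |f a|) := by
  rw [abs_le]
  constructor
  · have h1 : -Ex (fun a => |f a|) = Ex (fun a => (-1) * |f a|) := by
      rw [Ex_const_mul]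
      ring
    rw [h1]
    exact Ex_mono fun a => by linarith [neg_abs_le (f a)]
  · exact Ex_mono fun a => le_abs_self (f a)

private lemma sum_Pr_eq {Ω B : Type} [Fintype Ω] [Nonempty Ω] [Fintype B] (Z : Ω → B) :
    ∑ b, Pr (fun ω => Z ω = b) = 1 := by
  classical
  simp only [Pr_def]
  rw [← Ex_sum]
  have h1 : ∀ ω : Ω, ∑ b : B, (if Z ω = b then (1 : ℝ) else 0) = 1 := by
    intro ω
    simp
  rw [Ex_congr h1, Ex_const]

section TV

variable {Ω Ω' Ω'' B : Type} [Fintype Ω] [Fintype Ω'] [Fintype Ω''] [Fintype B]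

/-- The `ℓ¹` distance of the laws of two random variables. -/
noncomputable def tv (Z : Ω → B) (Z' : Ω' → B) : ℝ :=
  ∑ b, |Pr (fun ω => Z ω = b) - Pr (fun ω => Z' ω = b)|

lemma tv_comm (Z : Ω → B) (Z' : Ω' → B) : tv Z Z' = tv Z' Z :=
  Finset.sum_congr rfl fun _ _ => abs_sub_comm _ _

lemma tv_triangle (Z : Ω → B) (Z' : Ω' → B) (Z'' : Ω'' → B) : tv Z Z'' ≤ tv Z Z' + tv Z' Z'' := by
  unfold tv
  rw [← Finset.sum_add_distrib]
  exact Finset.sum_le_sum fun _ _ => abs_sub_le _ _ _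

/-- Equal laws. -/
lemma tv_eq_zero {Z : Ω → B} {Z' : Ω' → B}
    (h : ∀ b, Pr (fun ω => Z ω = b) = Pr (fun ω => Z' ω = b)) : tv Z Z' = 0 :=
  Finset.sum_eq_zero fun b _ => by rw [h b, sub_self, abs_zero]

lemma tv_le_two [Nonempty Ω] [Nonempty Ω'] (Z : Ω → B) (Z' : Ω' → B) : tv Z Z' ≤ 2 := by
  have h1 : tv Z Z' ≤ ∑ b, (Pr (fun ω => Z ω = b) + Pr (fun ω => Z' ω = b)) := by
    refine Finset.sum_le_sum fun b _ => ?_
    have h2 := Pr_nonneg (fun ω => Z ω = b)
    have h3 := Pr_nonneg (fun ω => Z' ω = b)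
    rw [abs_le]
    constructor <;> linarith
  rw [Finset.sum_add_distrib, sum_Pr_eq, sum_Pr_eq] at h1
  linarith

/-- Coupling. -/
lemma tv_le_coupling (Z Z' : Ω → B) : tv Z Z' ≤ 2 * Pr (fun ω => Z ω ≠ Z' ω) := by
  classical
  have h1 : tv Z Z' ≤ ∑ b, Ex (fun ω => |(if Z ω = b then (1 : ℝ) else 0) -
      (if Z' ω = b then (1 : ℝ) else 0)|) := by
    refine Finset.sum_le_sum fun b _ => ?_
    rw [Pr_def, Pr_def, ← Ex_sub]
    exact abs_Ex_le _
  rw [← Ex_sum] at h1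
  refine h1.trans ?_
  rw [Pr_def, ← Ex_const_mul]
  refine Ex_mono fun ω => ?_
  by_cases h : Z ω = Z' ω
  · rw [h]
    simp
  · rw [if_pos h, mul_one]
    have h2 : ∀ b : B, |(if Z ω = b then (1 : ℝ) else 0) - (if Z' ω = b then (1 : ℝ) else 0)| ≤
        (if Z ω = b then (1 : ℝ) else 0) + (if Z' ω = b then (1 : ℝ) else 0) := by
      intro b
      split_ifs <;> norm_num
    refine (Finset.sum_le_sum fun b _ => h2 b).trans ?_
    rw [Finset.sum_add_distrib]
    simp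
    norm_num

/-- Mixtures. -/
lemma tv_mix [Nonempty Ω] (Z : Ω × Ω' → B) (Z' : Ω'' → B) :
    tv Z Z' ≤ Ex (fun a : Ω => tv (fun ω : Ω' => Z (a, ω)) Z') := by
  unfold tv
  rw [Ex_sum]
  refine Finset.sum_le_sum fun b _ => ?_
  have h1 : Pr (fun ω => Z ω = b) - Pr (fun ω => Z' ω = b) =
      Ex (fun a : Ω => Pr (fun ω : Ω' => Z (a, ω) = b) - Pr (fun ω => Z' ω = b)) := by
    rw [Ex_sub, Ex_const, Pr_prod]
  rw [h1]
  exact abs_Ex_le _

/-- Two mixtures with the same index. -/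
lemma tv_mix₂ (Z : Ω × Ω' → B) (Z' : Ω × Ω'' → B) :
    tv Z Z' ≤ Ex (fun a : Ω => tv (fun ω : Ω' => Z (a, ω)) (fun ω : Ω'' => Z' (a, ω))) := by
  unfold tv
  rw [Ex_sum]
  refine Finset.sum_le_sum fun b _ => ?_
  have h1 : Pr (fun ω => Z ω = b) - Pr (fun ω => Z' ω = b) =
      Ex (fun a : Ω => Pr (fun ω : Ω' => Z (a, ω) = b) - Pr (fun ω : Ω'' => Z' (a, ω) = b)) := by
    rw [Ex_sub, Pr_prod, Pr_prod]
  rw [h1]
  exact abs_Ex_le _

end TV

section RandFun

variable {Ω : Type} [Fintype Ω] [Nonempty Ω]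

/-- The random function `F ω` for uniformly random `ω`. -/
noncomputable def RandFun.ofMap {n : ℕ} (F : Ω → Cube n → Bool) : RandFun n where
  prob f := Pr (fun ω => F ω = f)
  prob_nonneg := fun _ => Pr_nonneg _
  prob_sum := sum_Pr_eq F

private lemma ofMap_sum {n : ℕ} (F : Ω → Cube n → Bool) (v : (Cube n → Bool) → ℝ) :
    ∑ f, (RandFun.ofMap F).prob f * v f = Ex (fun ω => v (F ω)) := by
  classical
  have h1 : ∀ f, (RandFun.ofMap F).prob f * v f =
      Ex (fun ω => (if F ω = f then (1 : ℝ) else 0) * v f) := by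
    intro f
    rw [Ex_mul_const, ← Pr_def]
    rfl
  simp only [h1]
  rw [← Ex_sum]
  refine Ex_congr fun ω => ?_
  simp

lemma RandFun.ofMap_freq {n q : ℕ} (F : Ω → Cube n → Bool) (x : Fin q → Cube n)
    (b : Fin q → Bool) : (RandFun.ofMap F).freq x b =
      Pr (fun s : Ω × Equiv.Perm (Fin n) => (fun i => permute (F s.1) s.2 (x i)) = b) := by
  unfold RandFun.freq
  rw [ofMap_sum F (fun f => Pool.Agent.MP4d28ec.freq f x b), Pr_prod]
  refine Ex_congr fun ω => ?_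
  rw [freq_eq_Pr]
  exact Pr_congr fun π => funext_iff.symm

lemma exists_of_mostlyClose {n : ℕ} (F : Ω → Cube n → Bool) {g : Cube n → Bool} {ε : ℝ}
    (hε : ε < 1) (h : MostlyClose ε (RandFun.ofMap F) g) :
    ∃ ω, ∃ π, dist (F ω) (permute g π) < ε := by
  by_contra hcon
  push Not at hcon
  unfold MostlyClose at h
  have h1 : ∑ f ∈ Finset.univ.filter (fun f => ∃ π, dist f (permute g π) < ε),
      (RandFun.ofMap F).prob f = 0 := by
    refine Finset.sum_eq_zero fun f hf => ?_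
    obtain ⟨π, hπ⟩ := (Finset.mem_filter.1 hf).2
    refine Pr_false fun ω hω => ?_
    have h2 := hcon ω π
    rw [hω] at h2
    exact absurd hπ (not_lt.2 h2)
  rw [h1] at h
  linarith

end RandFun

end Pool.Agent.MP4d28ec
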