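import Pool.Agent.Lib.MP_4d28ec_Lift.N1
import Pool.Agent.Lib.MP_4d28ec_Lift.N3
import Pool.Agent.Lib.MP_4d28ec_Lift.N6

/-!
N7: the values at points that are constant outside a small set of coordinates are nearly
independent of the values at middle points.
-/

open Finset

namespace Pool.Agent.MP4d28ec

open Pool.Agent.H44IT

/-- If two permutations agree on `A` then for a point that is constant outside `A` relabelling by
them gives the same point: `x ∘ r = x ∘ β` fails in general, but `x ∘ (r⁻¹ β) = x`. -/
lemma comp_eq_of_const {n : ℕ} {A : Finset (Fin n)} {x : Cube n} {b : Bool}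
    (hx : ∀ a, a ∉ A → x a = b) {h : Equiv.Perm (Fin n)} (hh : ∀ a ∈ A, h a = a) (i : Fin n) :
    x (h i) = x i := by
  by_cases hi : i ∈ A
  · rw [hh i hi]
  · have h1 : h i ∉ A := by
      intro h2
      have h3 := h.injective (hh _ h2)
      exact hi (h3 ▸ h2)
    rw [hx _ h1, hx _ hi]

/-- Decoupling. For each `β` choose `r` by `exists_ext A β`, `h = r⁻¹ * β` fixes `A` pointwise.
By stability, `g (x i ∘ π)` may be replaced by `g (x i ∘ r ∘ π)` for the middle points at the cost
`q ε`; after the substitution `π → h * π` the low values do not change and the middle values become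
`g (x i ∘ β ∘ π)`; average over `β` and use that `(π, β * π)` is uniform. -/
theorem decouple {n q : ℕ} {c δ ε : ℝ} {g : Cube n → Bool} (hg : Stab c δ ε g) (hε : 0 ≤ ε)
    (A : Finset (Fin n)) (x : Fin q → Cube n) (L : Fin q → Prop) [DecidablePred L]
    (hlow : ∀ i, L i → ∃ b : Bool, ∀ a, a ∉ A → x i a = b)
    (hmid : ∀ i, ¬ L i → c * n ≤ (wt (x i) : ℝ) ∧ (wt (x i) : ℝ) ≤ (1 - c) * n)
    (hA : 2 * (A.card : ℝ) ≤ δ * n) :
    tv (fun (π : Equiv.Perm (Fin n)) (i : Fin q) => g (fun a => x i (π a)))
      (fun (s : Equiv.Perm (Fin n) × Equiv.Perm (Fin n)) (i : Fin q) =>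
        if L i then g (fun a => x i (s.1 a)) else g (fun a => x i (s.2 a))) ≤ 2 * (q * ε) := by
  classical
  rw [tv_comm]
  have hlaw : tv (fun (s : Equiv.Perm (Fin n) × Equiv.Perm (Fin n)) (i : Fin q) =>
        if L i then g (fun a => x i (s.1 a)) else g (fun a => x i (s.2 a)))
      (fun (s : Equiv.Perm (Fin n) × Equiv.Perm (Fin n)) (i : Fin q) =>
        if L i then g (fun a => x i (s.2 a)) else g (fun a => x i (s.1 (s.2 a)))) = 0 := by
    apply tv_eq_zero
    intro b
    rw [← Pr_equiv
      { toFun := fun s => (s.2, s.1 * s.2)
        invFun := fun s => (s.2 * s.1⁻¹, s.1)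
        left_inv := fun s => by simp
        right_inv := fun s => by simp : (Equiv.Perm (Fin n) × Equiv.Perm (Fin n)) ≃
          (Equiv.Perm (Fin n) × Equiv.Perm (Fin n)) }]
    rfl
  have hβ : ∀ β : Equiv.Perm (Fin n),
      tv (fun (π : Equiv.Perm (Fin n)) (i : Fin q) =>
        if L i then g (fun a => x i (π a)) else g (fun a => x i (β (π a))))
      (fun (π : Equiv.Perm (Fin n)) (i : Fin q) => g (fun a => x i (π a))) ≤ 2 * (q * ε) := by
    intro β
    obtain ⟨r, hrA, hrc⟩ := exists_ext A β
    have hh : ∀ a ∈ A, (r⁻¹ * β) a = a := by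
      intro a ha
      rw [Equiv.Perm.mul_apply, ← hrA a ha]
      exact r.symm_apply_apply a
    have h1 : tv (fun (π : Equiv.Perm (Fin n)) (i : Fin q) =>
          if L i then g (fun a => x i (π a)) else g (fun a => x i (β (π a))))
        (fun (π : Equiv.Perm (Fin n)) (i : Fin q) =>
          if L i then g (fun a => x i (π a)) else g (fun a => x i (r (π a)))) = 0 := by
      apply tv_eq_zero
      intro b
      rw [← Pr_equiv (Equiv.mulLeft (r⁻¹ * β)) (fun π : Equiv.Perm (Fin n) =>
        (fun i : Fin q => if L i then g (fun a => x i (π a)) else g (fun a => x i (r (π a)))) = b)]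
      apply Pr_congr
      intro π
      have : (fun i : Fin q => if L i then g (fun a => x i (π a))
          else g (fun a => x i (β (π a)))) = (fun i : Fin q =>
            if L i then g (fun a => x i ((Equiv.mulLeft (r⁻¹ * β)) π a))
            else g (fun a => x i (r ((Equiv.mulLeft (r⁻¹ * β)) π a)))) := by
        funext i
        by_cases hi : L i
        · rw [if_pos hi, if_pos hi]
          congr 1
          funext a
          obtain ⟨b', hb'⟩ := hlow i hi
          rw [Equiv.coe_mulLeft, Equiv.Perm.mul_apply]
          exact (comp_eq_of_const hb' hh (π a)).symm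
        · rw [if_neg hi, if_neg hi]
          congr 1
          funext a
          rw [Equiv.coe_mulLeft, Equiv.Perm.mul_apply, Equiv.Perm.mul_apply]
          exact congrArg (x i) (r.apply_symm_apply _).symm
      rw [this]
    have h2 : tv (fun (π : Equiv.Perm (Fin n)) (i : Fin q) =>
          if L i then g (fun a => x i (π a)) else g (fun a => x i (r (π a))))
        (fun (π : Equiv.Perm (Fin n)) (i : Fin q) => g (fun a => x i (π a))) ≤ 2 * (q * ε) := by
      refine (tv_le_coupling _ _).trans ?_
      refine mul_le_mul_of_nonneg_left ?_ (by norm_num)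
      have h3 : ∀ π : Equiv.Perm (Fin n),
          (fun i : Fin q => if L i then g (fun a => x i (π a)) else g (fun a => x i (r (π a)))) ≠
            (fun i : Fin q => g (fun a => x i (π a))) →
          ∃ i ∈ (Finset.univ : Finset (Fin q)),
            ¬ L i ∧ g (fun a => x i (π a)) ≠ g (fun a => x i (r (π a))) := by
        intro π hπ
        by_contra hcon
        push Not at hcon
        apply hπ
        funext i
        by_cases hi : L i
        · rw [if_pos hi]
        · rw [if_neg hi]
          exact (hcon i (Finset.mem_univ _) hi).symm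
      refine (Pr_mono h3).trans ((Pr_exists_le _ _).trans ?_)
      refine (Finset.sum_le_sum (g := fun _ => ε) fun i _ => ?_).trans ?_
      · by_cases hi : L i
        · rw [Pr_false]
          · exact hε
          · rintro π ⟨h4, -⟩
            exact h4 hi
        · refine le_trans (Pr_mono (q := fun π : Equiv.Perm (Fin n) =>
            g (fun a => x i (π a)) ≠ g (fun a => (fun a' => x i (r a')) (π a))) ?_) ?_
          · rintro π ⟨-, h4⟩
            exact h4
          · refine hg (x i) (fun a' => x i (r a')) (wt_perm (x i) r).symm (hmid i hi).1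
              (hmid i hi).2 (le_trans ?_ hA)
            have h5 : hd (x i) (fun a' => x i (r a')) ≤ 2 * A.card := by
              refine le_trans ?_ hrc
              unfold hd
              apply Finset.card_le_card
              intro a
              simp only [mem_filter, mem_univ, true_and]
              intro h6 h7
              rw [h7] at h6
              exact h6 rfl
            exact_mod_cast h5
      · simp
    calc _ ≤ _ := tv_triangle _ (fun (π : Equiv.Perm (Fin n)) (i : Fin q) =>
          if L i then g (fun a => x i (π a)) else g (fun a => x i (r (π a)))) _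
      _ ≤ 2 * (q * ε) := by rw [h1, zero_add]; exact h2
  calc _ ≤ _ := tv_triangle _ (fun (s : Equiv.Perm (Fin n) × Equiv.Perm (Fin n)) (i : Fin q) =>
        if L i then g (fun a => x i (s.2 a)) else g (fun a => x i (s.1 (s.2 a)))) _
    _ ≤ 2 * (q * ε) := by
      rw [hlaw, zero_add]
      refine (tv_mix _ _).trans ?_
      exact Ex_le_of_le hβ

end Pool.Agent.MP4d28ec
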