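import Pool.Agent.Lib.MP_4d28ec_Lift.N5
import Pool.Agent.Lib.MP_4d28ec_Lift.N7

/-!
N8: the function that reads through the reading map on the middle slices and agrees with an
independent copy of `g` on the other slices has nearly the same statistics as `g`.
-/

open Finset

namespace Pool.Agent.MP4d28ec

open Pool.Agent.H44IT

/-- The middle slices. -/
def Middle {n : ℕ} (c : ℝ) (x : Cube n) : Prop :=
  c * n ≤ (wt x : ℝ) ∧ (wt x : ℝ) ≤ (1 - c) * n

open Classical in
/-- The mixed function with parameters `ρ`, `π₁`, `π₂`. -/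
noncomputable def mixed {n K : ℕ} (hK : 0 < K) (c : ℝ) (g : Cube n → Bool)
    (s : (Fin K → Fin n) × (Equiv.Perm (Fin n) × Equiv.Perm (Fin n))) : Cube n → Bool := fun x =>
  if Middle c x then g (fun a => rdm hK s.1 x (s.2.2 a)) else g (fun a => x (s.2.1 a))

/-- Composing the reading map and the first relabelling with the last permutation. -/
private def shiftEquiv (n K : ℕ) :
    (((Fin K → Fin n) × (Equiv.Perm (Fin n) × Equiv.Perm (Fin n))) × Equiv.Perm (Fin n)) ≃
      (((Fin K → Fin n) × (Equiv.Perm (Fin n) × Equiv.Perm (Fin n))) × Equiv.Perm (Fin n)) where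
  toFun s := ((fun k => s.2 (s.1.1 k), (s.2 * s.1.2.1, s.1.2.2)), s.2)
  invFun s := ((fun k => s.2⁻¹ (s.1.1 k), (s.2⁻¹ * s.1.2.1, s.1.2.2)), s.2)
  left_inv := by
    rintro ⟨⟨ρ, π₁, π₂⟩, π⟩
    simp
  right_inv := by
    rintro ⟨⟨ρ, π₁, π₂⟩, π⟩
    simp

/-- The union of the small supports or small complements of supports of the low points. -/
lemma exists_small_set {n q : ℕ} {c' : ℝ} (x : Fin q → Cube n) (L : Fin q → Prop)
    (hL : ∀ i, L i → (wt (x i) : ℝ) < c' * n ∨ (1 - c') * n < wt (x i)) (hc' : 0 ≤ c') :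
    ∃ A : Finset (Fin n), (∀ i, L i → ∃ b : Bool, ∀ a, a ∉ A → x i a = b) ∧
      (A.card : ℝ) ≤ q * (c' * n) := by
  classical
  have hcn : 0 ≤ c' * n := mul_nonneg hc' (Nat.cast_nonneg n)
  have key : ∀ i : Fin q, ∃ S : Finset (Fin n),
      (L i → ∃ b : Bool, ∀ a, a ∉ S → x i a = b) ∧ (S.card : ℝ) ≤ c' * n := by
    intro i
    by_cases hi : L i
    · rcases hL i hi with h | h
      · refine ⟨Finset.univ.filter fun a => x i a = true, fun _ => ⟨false, fun a ha => ?_⟩, ?_⟩
        · simpa using ha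
        · exact h.le
      · refine ⟨Finset.univ.filter fun a => ¬ x i a = true, fun _ => ⟨true, fun a ha => ?_⟩, ?_⟩
        · simpa using ha
        · have h1 : (Finset.univ.filter fun a => x i a = true).card +
              (Finset.univ.filter fun a => ¬ x i a = true).card = n := by
            rw [Finset.card_filter_add_card_filter_not]
            simp
          have h2 : (wt (x i) : ℝ) +
              ((Finset.univ.filter fun a => ¬ x i a = true).card : ℝ) = n := by
            unfold wt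
            exact_mod_cast h1
          linarith
    · exact ⟨∅, fun h => absurd h hi, by simpa using hcn⟩
  choose S hS1 hS2 using key
  refine ⟨Finset.univ.biUnion S, fun i hi => ?_, ?_⟩
  · obtain ⟨b, hb⟩ := hS1 i hi
    exact ⟨b, fun a ha => hb a fun h => ha (Finset.mem_biUnion.2 ⟨i, Finset.mem_univ i, h⟩)⟩
  · calc ((Finset.univ.biUnion S).card : ℝ) ≤ ∑ i, ((S i).card : ℝ) := by
          exact_mod_cast Finset.card_biUnion_le
      _ ≤ ∑ _i : Fin q, c' * n := Finset.sum_le_sum fun i _ => hS2 i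
      _ = q * (c' * n) := by simp

open Classical in
private lemma shift_value {n q K : ℕ} (hK : 0 < K) (c : ℝ) (g : Cube n → Bool)
    (x : Fin q → Cube n) (ρ : Fin K → Fin n) (π₁ π₂ π : Equiv.Perm (Fin n)) :
    (fun i : Fin q => permute (mixed hK c g (ρ, (π₁, π₂))) π (x i)) =
      fun i : Fin q => if ¬ Middle c (x i) then g (fun a => x i ((π * π₁) a))
        else g (fun a => rdm hK (fun k => π (ρ k)) (x i) (π₂ a)) := by
  funext i
  have h5 : Middle c (fun a => x i (π a)) ↔ Middle c (x i) := by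
    unfold Middle
    rw [wt_perm]
  unfold permute mixed
  by_cases h6 : Middle c (x i)
  · rw [if_pos (h5.2 h6), if_neg (not_not.2 h6), rdm_perm]
  · rw [if_neg (fun h => h6 (h5.1 h)), if_pos h6]
    rfl

open Classical in
/-- Replace the middle values by values read through the reading map. -/
theorem read_stat {n q K : ℕ} (hn : 0 < n) (hK : 0 < K) {c δ ε τ : ℝ} {g : Cube n → Bool}
    (hg : Stab c δ ε g) (hε : 0 ≤ ε) (hτ : 0 < τ) (hnK : (K : ℝ) ≤ τ / 2 * n)
    (hτδ : 2 * (2 ^ q * τ) ≤ δ) (x : Fin q → Cube n) :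
    tv (fun (s : Equiv.Perm (Fin n) × Equiv.Perm (Fin n)) (i : Fin q) =>
        if ¬ Middle c (x i) then g (fun a => x i (s.1 a)) else g (fun a => x i (s.2 a)))
      (fun (s : (Fin K → Fin n) × (Equiv.Perm (Fin n) × Equiv.Perm (Fin n))) (i : Fin q) =>
        if ¬ Middle c (x i) then g (fun a => x i (s.2.1 a))
        else g (fun a => rdm hK s.1 (x i) (s.2.2 a))) ≤
      2 * (q * ε + 2 ^ q / (K * τ ^ 2)) := by
  have : Nonempty (Fin K → Fin n) := ⟨fun _ => ⟨0, hn⟩⟩
  -- good reading maps
  set Good : (Fin K → Fin n) → Prop := fun ρ => ∃ π : Equiv.Perm (Fin n), ∀ j,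
      (hd (rdm hK ρ (x j)) (fun i => x j (π i)) : ℝ) ≤ 2 * (2 ^ q * τ * n) with hGood
  set π₀ : (Fin K → Fin n) → Equiv.Perm (Fin n) := fun ρ => if h : Good ρ then h.choose else 1
    with hπ₀
  have hπ₀g : ∀ ρ, Good ρ → ∀ j,
      (hd (rdm hK ρ (x j)) (fun i => x j (π₀ ρ i)) : ℝ) ≤ 2 * (2 ^ q * τ * n) := by
    intro ρ hρ
    simp only [hπ₀, dif_pos hρ]
    exact hρ.choose_spec
  have hbad : Pr (fun ρ : Fin K → Fin n => ¬ Good ρ) ≤ 2 ^ q / (K * τ ^ 2) :=
    read_close hn hK hτ hnK x
  -- intermediate variable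
  set Z : (Fin K → Fin n) × (Equiv.Perm (Fin n) × Equiv.Perm (Fin n)) → (Fin q → Bool) :=
    fun s i => if ¬ Middle c (x i) then g (fun a => x i (s.2.1 a))
      else g (fun a => x i (π₀ s.1 (s.2.2 a))) with hZ
  refine (tv_triangle _ Z _).trans ?_
  have h1 : tv (fun (s : Equiv.Perm (Fin n) × Equiv.Perm (Fin n)) (i : Fin q) =>
        if ¬ Middle c (x i) then g (fun a => x i (s.1 a)) else g (fun a => x i (s.2 a))) Z = 0 := by
    apply tv_eq_zero
    intro b
    rw [Pr_prod (α := Fin K → Fin n)]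
    symm
    refine (Ex_congr (g := fun _ => Pr (fun s : Equiv.Perm (Fin n) × Equiv.Perm (Fin n) =>
      (fun i => if ¬ Middle c (x i) then g (fun a => x i (s.1 a))
        else g (fun a => x i (s.2 a))) = b)) fun ρ => ?_).trans (Ex_const _)
    rw [← Pr_equiv (Equiv.prodCongr (Equiv.refl (Equiv.Perm (Fin n))) (Equiv.mulLeft (π₀ ρ)))
      (fun s : Equiv.Perm (Fin n) × Equiv.Perm (Fin n) =>
        (fun i => if ¬ Middle c (x i) then g (fun a => x i (s.1 a))
          else g (fun a => x i (s.2 a))) = b)]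
    exact Pr_congr fun s => Iff.rfl
  rw [h1, zero_add]
  refine (tv_le_coupling _ _).trans ?_
  refine mul_le_mul_of_nonneg_left ?_ (by norm_num)
  -- the union bound
  have h2 : Pr (fun s : (Fin K → Fin n) × (Equiv.Perm (Fin n) × Equiv.Perm (Fin n)) =>
      Z s ≠ fun i => if ¬ Middle c (x i) then g (fun a => x i (s.2.1 a))
        else g (fun a => rdm hK s.1 (x i) (s.2.2 a))) ≤
      Pr (fun s : (Fin K → Fin n) × (Equiv.Perm (Fin n) × Equiv.Perm (Fin n)) =>
        ∃ i ∈ (Finset.univ : Finset (Fin q)), Middle c (x i) ∧ Good s.1 ∧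
          g (fun a => rdm hK s.1 (x i) (s.2.2 a)) ≠ g (fun a => x i (π₀ s.1 (s.2.2 a)))) +
      Pr (fun s : (Fin K → Fin n) × (Equiv.Perm (Fin n) × Equiv.Perm (Fin n)) =>
        ¬ Good s.1) := by
    apply Pr_le_add
    intro s hs
    by_cases hG : Good s.1
    · left
      by_contra hne
      push Not at hne
      apply hs
      funext i
      simp only [hZ]
      by_cases hM : Middle c (x i)
      · rw [if_neg (not_not.2 hM), if_neg (not_not.2 hM)]
        exact (hne i (Finset.mem_univ _) hM hG).symm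
      · rw [if_pos hM, if_pos hM]
    · right
      exact hG
  refine h2.trans (add_le_add ?_ ?_)
  · refine (Pr_exists_le _ _).trans ?_
    calc ∑ i : Fin q, Pr (fun s : (Fin K → Fin n) × (Equiv.Perm (Fin n) × Equiv.Perm (Fin n)) =>
          Middle c (x i) ∧ Good s.1 ∧
          g (fun a => rdm hK s.1 (x i) (s.2.2 a)) ≠ g (fun a => x i (π₀ s.1 (s.2.2 a))))
        ≤ ∑ _i : Fin q, ε := by
          apply Finset.sum_le_sum
          intro i _
          by_cases hM : Middle c (x i)
          · rw [Pr_prod]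
            apply Ex_le_of_le
            intro ρ
            by_cases hG : Good ρ
            · have h3 := hg (rdm hK ρ (x i)) (fun a => x i (π₀ ρ a))
                (by rw [wt_rdm, wt_perm]) (by rw [wt_rdm]; exact hM.1)
                (by rw [wt_rdm]; exact hM.2)
                ((hπ₀g ρ hG i).trans (by
                  have : (0 : ℝ) ≤ n := Nat.cast_nonneg n
                  nlinarith [mul_le_mul_of_nonneg_right hτδ this]))
              refine le_trans (le_of_eq ?_) h3
              rw [← Pr_snd (α := Equiv.Perm (Fin n)) (β := Equiv.Perm (Fin n))]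
              apply Pr_congr
              intro s
              constructor
              · rintro ⟨_, _, h⟩; exact h
              · intro h; exact ⟨hM, hG, h⟩
            · rw [Pr_false]
              · exact hε
              · rintro s ⟨_, h, _⟩
                exact hG h
          · rw [Pr_false]
            · exact hε
            · rintro s ⟨h, _⟩
              exact hM h
      _ = q * ε := by simp
  · rw [Pr_fst (α := Fin K → Fin n) (β := Equiv.Perm (Fin n) × Equiv.Perm (Fin n))
      (fun ρ => ¬ Good ρ)]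
    exact hbad

/-- The statistics of the mixed function. -/
theorem mixed_stat {n q K : ℕ} (hn : 0 < n) (hK : 0 < K) {c c' δ ε τ : ℝ} {g : Cube n → Bool}
    (hg : Stab c δ ε g) (hε : 0 ≤ ε) (hτ : 0 < τ) (hnK : (K : ℝ) ≤ τ / 2 * n)
    (hτδ : 2 * (2 ^ q * τ) ≤ δ) (hc' : 0 ≤ c') (hc'δ : 2 * (q * c') ≤ δ) (x : Fin q → Cube n)
    (hx : ∀ i, Middle c (x i) ∨ (wt (x i) : ℝ) < c' * n ∨ (1 - c') * n < wt (x i)) :
    tv (fun (s : ((Fin K → Fin n) × (Equiv.Perm (Fin n) × Equiv.Perm (Fin n))) ×
        Equiv.Perm (Fin n)) (i : Fin q) => permute (mixed hK c g s.1) s.2 (x i))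
      (fun (π : Equiv.Perm (Fin n)) (i : Fin q) => permute g π (x i)) ≤
      2 * (2 * (q * ε) + 2 ^ q / (K * τ ^ 2)) := by
  classical
  obtain ⟨A, hA1, hA2⟩ := exists_small_set (c' := c') x (fun i => ¬ Middle c (x i))
    (fun i hi => (hx i).resolve_left hi) hc'
  have hA : 2 * (A.card : ℝ) ≤ δ * n := by
    have h := mul_le_mul_of_nonneg_right hc'δ (Nat.cast_nonneg (α := ℝ) n)
    nlinarith
  have h1 := decouple hg hε A x (fun i => ¬ Middle c (x i)) hA1 (fun i hi => not_not.1 hi) hA
  have h2 := read_stat hn hK hg hε hτ hnK hτδ x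
  rw [tv_comm] at h1 h2
  have h3 := (tv_triangle _ _ _).trans (add_le_add h2 h1)
  refine (tv_triangle _ _ _).trans ((add_le_add (le_of_eq (b := 0) ?_) h3).trans
    (le_of_eq ?_))
  · apply tv_eq_zero
    intro b
    have h5 : ∀ p : (Fin K → Fin n) × (Equiv.Perm (Fin n) × Equiv.Perm (Fin n)) → Prop,
        Pr p = Pr (fun s => p (shiftEquiv n K s).1) := by
      intro p
      rw [Pr_equiv (shiftEquiv n K) (fun s => p s.1), Pr_fst]
    rw [h5 (fun s => (fun i : Fin q => if ¬ Middle c (x i) then g (fun a => x i (s.2.1 a))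
          else g (fun a => rdm hK s.1 (x i) (s.2.2 a))) = b)]
    apply Pr_congr
    rintro ⟨⟨ρ, π₁, π₂⟩, π⟩
    have h4 := shift_value hK c g x ρ π₁ π₂ π
    rw [h4]
    rfl
  · ring

end Pool.Agent.MP4d28ec
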