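import Pool.Agent.Lib.MP_4d28ec_Lift.N8
import Pool.Agent.Lib.MP_4d28ec_h44.Dist

/-!
N9: efficiently testable families that are stable on the middle slices are close to partially
symmetric functions.
-/

open Finset

namespace Pool.Agent.MP4d28ec

open Pool.Agent.H44IT

/-- Most points have weight in the middle. -/
lemma Pr_not_middle {n : ℕ} (hn : 0 < n) {c : ℝ} (hc : c ≤ 1 / 4) :
    Pr (fun x : Cube n => ¬ Middle c x) ≤ 4 / n := by
  have hnR : (0 : ℝ) < n := by exact_mod_cast hn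
  have h := chebyshev' (I := Bool) (fun b => b = true) n hn (δ := 1 / 2) (by norm_num)
  have hP : Pr (fun b : Bool => b = true) = 1 / 2 := by
    rw [Pr_eq_card, show (Finset.univ.filter fun b : Bool => b = true) = {true} by decide]
    simp
  rw [hP] at h
  refine (Pr_mono ?_).trans (h.trans (le_of_eq ?_))
  · intro x hx
    unfold Middle at hx
    have hw : ((Finset.univ.filter fun j => x j = true).card : ℝ) = (wt x : ℝ) := rfl
    rw [hw]
    rw [not_and_or, not_le, not_le] at hx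
    have hcn : c * n ≤ 1 / 4 * n := mul_le_mul_of_nonneg_right hc hnR.le
    rcases hx with hx | hx
    · rw [le_abs]
      right
      linarith
    · rw [le_abs]
      left
      nlinarith
  · field_simp
    norm_num

lemma dist_mixed {n K : ℕ} (hn : 0 < n) (hK : 0 < K) {c : ℝ} (hc : c ≤ 1 / 4) (g : Cube n → Bool)
    (s : (Fin K → Fin n) × (Equiv.Perm (Fin n) × Equiv.Perm (Fin n))) :
    dist (mixed hK c g s) (fun x => g (fun a => rdm hK s.1 x (s.2.2 a))) ≤ 4 / n := by
  rw [dist_eq_Pr]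
  refine (Pr_mono ?_).trans (Pr_not_middle hn hc)
  intro x hx hm
  apply hx
  unfold mixed
  rw [if_pos hm]

/-- The constants `c 0 ≥ c 1 ≥ ...` of the windows. -/
lemma exists_windows {g : (n : ℕ) → Cube n → Bool} (hg : SliceStable g) {ε : ℝ} (hε : 0 < ε)
    (q : ℕ) : ∃ c δ : ℕ → ℝ, (∀ j, 0 < c j ∧ c j ≤ 1 / 4) ∧ (∀ j, 0 < δ j) ∧
      (∀ j n, Stab (c j) (δ j) ε (g n)) ∧ (∀ j, c (j + 1) ≤ c j) ∧
      ∀ j, 2 * (q * c (j + 1)) ≤ δ j := by
  classical
  choose D hD0 hD using fun (c : {c : ℝ // 0 < c}) => hg.exists_stab hε c.2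
  -- the sequence
  have hstep : ∀ c : {c : ℝ // 0 < c}, 0 < min (c : ℝ) (D c / (2 * (q + 1))) := fun c =>
    lt_min c.2 (div_pos (hD0 c) (by positivity))
  let C : ℕ → {c : ℝ // 0 < c} := fun j =>
    Nat.rec ⟨1 / 4, by norm_num⟩ (fun _ c => ⟨min (c : ℝ) (D c / (2 * (q + 1))), hstep c⟩) j
  have hC0 : (C 0).1 = 1 / 4 := rfl
  have hC : ∀ j, (C (j + 1)).1 = min (C j).1 (D (C j) / (2 * (q + 1))) := fun j => rfl
  have hmono : ∀ j, (C (j + 1)).1 ≤ (C j).1 := fun j => by rw [hC]; exact min_le_left _ _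
  refine ⟨fun j => (C j).1, fun j => D (C j), fun j => ⟨(C j).2, ?_⟩, fun j => hD0 _,
    fun j n => hD (C j) n, hmono, fun j => ?_⟩
  · induction j with
    | zero => exact hC0.le
    | succ j ih => exact (hmono j).trans ih
  · have h1 : (C (j + 1)).1 ≤ D (C j) / (2 * (q + 1)) := by rw [hC]; exact min_le_right _ _
    have h2 : (0 : ℝ) < 2 * ((q : ℝ) + 1) := by positivity
    rw [le_div_iff₀ h2] at h1
    have h3 : 0 < (C (j + 1)).1 := (C (j + 1)).2
    show 2 * ((q : ℝ) * (C (j + 1)).1) ≤ D (C j)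
    nlinarith

/-- At most `q` of the windows are hit by `q` points. -/
lemma card_hit_le {n q J : ℕ} {c : ℕ → ℝ} (hc : ∀ j, c (j + 1) ≤ c j) (x : Fin q → Cube n)
    (S : Finset (Fin J)) (hS : ∀ j ∈ S, ∃ i, ¬ (Middle (c j) (x i) ∨
      (wt (x i) : ℝ) < c (j + 1) * n ∨ (1 - c (j + 1)) * n < wt (x i))) : S.card ≤ q := by
  classical
  have hanti : Antitone c := antitone_nat_of_succ_le hc
  have hn0 : (0 : ℝ) ≤ n := Nat.cast_nonneg n
  have key : ∀ j k : Fin J, (j : ℕ) < k → ∀ i : Fin q,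
      ¬ (Middle (c j) (x i) ∨ (wt (x i) : ℝ) < c (j + 1) * n ∨
        (1 - c (j + 1)) * n < wt (x i)) →
      ¬ (Middle (c k) (x i) ∨ (wt (x i) : ℝ) < c (k + 1) * n ∨
        (1 - c (k + 1)) * n < wt (x i)) → False := by
    intro j k hjk i h1 h2
    have h3 : c k ≤ c (j + 1) := hanti hjk
    have h4 : c k * n ≤ c (j + 1) * n := mul_le_mul_of_nonneg_right h3 hn0
    push Not at h1 h2
    obtain ⟨-, h5, h6⟩ := h1
    apply h2.1
    unfold Middle
    constructor
    · linarith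
    · linarith
  rcases Nat.eq_zero_or_pos q with hq | hq
  · subst hq
    have : S = ∅ := by
      rw [Finset.eq_empty_iff_forall_notMem]
      intro j hj
      obtain ⟨i, -⟩ := hS j hj
      exact i.elim0
    rw [this]
    simp
  · have : Nonempty (Fin q) := ⟨⟨0, hq⟩⟩
    choose! f hf using hS
    have hinj : Set.InjOn f (S : Set (Fin J)) := by
      intro j hj k hk hjk
      by_contra hne
      rcases lt_or_gt_of_ne hne with hlt | hlt
      · exact key j k hlt (f j) (hf j hj) (by rw [hjk]; exact hf k hk)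
      · exact key k j hlt (f k) (hf k hk) (by rw [← hjk]; exact hf j hj)
    calc S.card ≤ (Finset.univ : Finset (Fin q)).card :=
          Finset.card_le_card_of_injOn f (fun _ _ => Finset.mem_coe.2 (Finset.mem_univ _)) hinj
      _ = q := by simp

lemma dist_triangle' {n : ℕ} (f g h : Cube n → Bool) : dist f h ≤ dist f g + dist g h := by
  rw [dist_eq_Pr, dist_eq_Pr, dist_eq_Pr]
  refine Pr_le_add fun x hx => ?_
  by_contra h'
  push Not at h'
  exact hx (h'.1.trans h'.2)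

lemma dist_comm' {n : ℕ} (f g : Cube n → Bool) : dist f g = dist g f := by
  rw [dist_eq_Pr, dist_eq_Pr]
  exact Pr_congr fun x => ne_comm

lemma dist_permute_permute {n : ℕ} (f g : Cube n → Bool) (π : Equiv.Perm (Fin n)) :
    dist (permute f π) (permute g π) = dist f g := by
  rw [dist_eq_Pr, dist_eq_Pr]
  exact Pr_equiv (cubePerm π) (fun x => f x ≠ g x)

open Classical in
/-- One scale: the whole construction for one `n`. -/
theorem exists_close_of_rigid {n q J K : ℕ} (hn : 0 < n) (hK : 0 < K) (hJ : 0 < J)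
    {ε₀ δ₀ ε τ : ℝ} (hε₀ : ε₀ < 1) {g : Cube n → Bool}
    (hrig : ∀ P : RandFun n, StatClose q δ₀ P g → MostlyClose ε₀ P g)
    {c δ : ℕ → ℝ} (hc : ∀ j, 0 < c j ∧ c j ≤ 1 / 4) (hst : ∀ j, Stab (c j) (δ j) ε g)
    (hmono : ∀ j, c (j + 1) ≤ c j) (hcδ : ∀ j, 2 * (q * c (j + 1)) ≤ δ j) (hε : 0 ≤ ε)
    (hτ : 0 < τ) (hnK : (K : ℝ) ≤ τ / 2 * n) (hτδ : ∀ j < J, 2 * (2 ^ q * τ) ≤ δ j)
    (hsum : 2 * (q : ℝ) / J + 2 * (2 * (q * ε) + 2 ^ q / (K * τ ^ 2)) ≤ δ₀) :
    ∃ h : Cube n → Bool, PartiallySymmetric K h ∧ dist g h ≤ ε₀ + 4 / n := by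
  have : Nonempty (Fin J) := ⟨⟨0, hJ⟩⟩
  have : Nonempty (Fin K → Fin n) := ⟨fun _ => ⟨0, hn⟩⟩
  set F : Fin J × ((Fin K → Fin n) × (Equiv.Perm (Fin n) × Equiv.Perm (Fin n))) →
    Cube n → Bool := fun s => mixed hK (c s.1) g s.2 with hF
  have hB : 0 ≤ 2 * (2 * (q * ε) + 2 ^ q / (K * τ ^ 2)) := by positivity
  have hstat : StatClose q δ₀ (RandFun.ofMap F) g := by
    intro x
    refine le_trans ?_ hsum
    have e1 : ∑ b : Fin q → Bool, |(RandFun.ofMap F).freq x b - freq g x b| =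
        tv (fun (s : Fin J × (((Fin K → Fin n) × (Equiv.Perm (Fin n) × Equiv.Perm (Fin n))) ×
          Equiv.Perm (Fin n))) (i : Fin q) => permute (mixed hK (c s.1) g s.2.1) s.2.2 (x i))
        (fun (π : Equiv.Perm (Fin n)) (i : Fin q) => permute g π (x i)) := by
      unfold tv
      apply Finset.sum_congr rfl
      intro b _
      rw [RandFun.ofMap_freq, freq_eq_Pr]
      congr 2
      · rw [← Pr_equiv (Equiv.prodAssoc (Fin J)
          ((Fin K → Fin n) × (Equiv.Perm (Fin n) × Equiv.Perm (Fin n))) (Equiv.Perm (Fin n)))]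
        exact Pr_congr fun s => Iff.rfl
      · exact Pr_congr fun π => funext_iff.symm
    rw [e1]
    refine (tv_mix _ _).trans ?_
    -- good and bad windows
    set S : Finset (Fin J) := Finset.univ.filter fun j => ∃ i, ¬ (Middle (c j) (x i) ∨
      (wt (x i) : ℝ) < c ((j : ℕ) + 1) * n ∨ (1 - c ((j : ℕ) + 1)) * n < wt (x i)) with hS
    have hScard : S.card ≤ q := card_hit_le hmono x S (fun j hj => (Finset.mem_filter.1 hj).2)
    have hle : ∀ j : Fin J, tv (fun (s : ((Fin K → Fin n) × (Equiv.Perm (Fin n) ×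
          Equiv.Perm (Fin n))) × Equiv.Perm (Fin n)) (i : Fin q) =>
            permute (mixed hK (c j) g s.1) s.2 (x i))
        (fun (π : Equiv.Perm (Fin n)) (i : Fin q) => permute g π (x i)) ≤
        (if j ∈ S then 2 else 0) + 2 * (2 * (q * ε) + 2 ^ q / (K * τ ^ 2)) := by
      intro j
      by_cases hj : j ∈ S
      · rw [if_pos hj]
        linarith [tv_le_two (fun (s : ((Fin K → Fin n) × (Equiv.Perm (Fin n) ×
          Equiv.Perm (Fin n))) × Equiv.Perm (Fin n)) (i : Fin q) =>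
            permute (mixed hK (c j) g s.1) s.2 (x i))
          (fun (π : Equiv.Perm (Fin n)) (i : Fin q) => permute g π (x i))]
      · rw [if_neg hj, zero_add]
        have hj' : ∀ i, Middle (c j) (x i) ∨ (wt (x i) : ℝ) < c ((j : ℕ) + 1) * n ∨
            (1 - c ((j : ℕ) + 1)) * n < wt (x i) := by
          intro i
          by_contra h
          exact hj (Finset.mem_filter.2 ⟨Finset.mem_univ _, i, h⟩)
        exact mixed_stat hn hK (hst j) hε hτ hnK (hτδ j j.2) (hc _).1.le (hcδ j) x hj'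
    refine (Ex_mono hle).trans ?_
    rw [Ex_add, Ex_const]
    have e2 : Ex (fun j : Fin J => if j ∈ S then (2 : ℝ) else 0) = 2 * S.card / J := by
      unfold Ex
      rw [Finset.sum_ite_mem, Finset.univ_inter, Finset.sum_const, nsmul_eq_mul,
        Fintype.card_fin]
      ring
    rw [e2]
    have hJ' : (0 : ℝ) < J := by exact_mod_cast hJ
    have h3 : (2 : ℝ) * S.card / J ≤ 2 * q / J := by
      gcongr
    linarith
  obtain ⟨ω, π, hd⟩ := exists_of_mostlyClose F hε₀ (hrig _ hstat)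
  set h : Cube n → Bool := fun x => g (fun a => rdm hK ω.2.1 x (ω.2.2.2 a)) with hh
  have hPS : PartiallySymmetric K h := partiallySymmetric_rdm hK ω.2.1 (permute g ω.2.2.2)
  have hd2 : dist (F ω) h ≤ 4 / n := dist_mixed hn hK (hc _).2 g ω.2
  refine ⟨permute h π⁻¹, hPS.permute π⁻¹, ?_⟩
  have e3 : dist g (permute h π⁻¹) = dist (permute g π) h := by
    rw [← dist_permute_permute (permute g π) h π⁻¹]
    congr 1
    funext x
    simp [permute]
  rw [e3]
  have := dist_triangle' (permute g π) (F ω) h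
  rw [dist_comm'] at hd
  linarith

theorem closeToPS_of_testable {g : (n : ℕ) → Cube n → Bool} (hs : SliceStable g)
    (ht : EfficientlyTestable g) : CloseToPS g := by
  intro ε₁ hε₁
  set ε₀ : ℝ := min (ε₁ / 2) (1 / 2) with hε₀
  have hε₀0 : 0 < ε₀ := lt_min (by linarith) (by norm_num)
  have hε₀1 : ε₀ < 1 := (min_le_right _ _).trans_lt (by norm_num)
  obtain ⟨q, δ₀, hδ₀, hrig⟩ := rigid_of_testable ht ε₀ hε₀0
  -- number of windows
  obtain ⟨J, hJ⟩ := exists_nat_gt (2 * (q : ℝ) / (δ₀ / 3))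
  have hJ0 : 0 < J := by
    have : (0 : ℝ) < J := lt_of_le_of_lt (by positivity) hJ
    exact_mod_cast this
  -- stability
  set ε : ℝ := δ₀ / (12 * (q + 1)) with hε
  have hε0 : 0 < ε := by positivity
  obtain ⟨c, δ, hc, hδ, hst, hmono, hcδ⟩ := exists_windows hs hε0 q
  -- the common δ
  obtain ⟨d, hd0, hd⟩ : ∃ d : ℝ, 0 < d ∧ ∀ j < J, d ≤ δ j := by
    have : Nonempty (Fin J) := ⟨⟨0, hJ0⟩⟩
    obtain ⟨j₀, _, hj₀⟩ := Finset.exists_min_image (Finset.univ : Finset (Fin J))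
      (fun j => δ j) Finset.univ_nonempty
    exact ⟨δ j₀, hδ _, fun j hj => hj₀ ⟨j, hj⟩ (Finset.mem_univ _)⟩
  set τ : ℝ := d / (2 * 2 ^ q) with hτ
  have hτ0 : 0 < τ := by positivity
  have hτδ : ∀ j < J, 2 * (2 ^ q * τ) ≤ δ j := by
    intro j hj
    have : 2 * (2 ^ q * τ) = d := by
      rw [hτ]
      field_simp
    rw [this]
    exact hd j hj
  obtain ⟨K, hK⟩ := exists_nat_gt (2 * 2 ^ q / (τ ^ 2 * (δ₀ / 3)))
  have hK0 : 0 < K := by
    have : (0 : ℝ) < K := lt_of_le_of_lt (by positivity) hK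
    exact_mod_cast this
  have hJR : (0 : ℝ) < J := by exact_mod_cast hJ0
  have hKR : (0 : ℝ) < K := by exact_mod_cast hK0
  have hsum : 2 * (q : ℝ) / J + 2 * (2 * (q * ε) + 2 ^ q / (K * τ ^ 2)) ≤ δ₀ := by
    have h1 : 2 * (q : ℝ) / J ≤ δ₀ / 3 := by
      rw [div_le_iff₀ hJR]
      rw [div_lt_iff₀ (by positivity)] at hJ
      linarith
    have h2 : 4 * (q * ε) ≤ δ₀ / 3 := by
      rw [hε]
      have hq : (0 : ℝ) ≤ q := Nat.cast_nonneg q
      have : 4 * ((q : ℝ) * (δ₀ / (12 * (q + 1)))) = δ₀ / 3 * (q / (q + 1)) := by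
        field_simp
        ring
      rw [this]
      have h3 : (q : ℝ) / (q + 1) ≤ 1 := by
        rw [div_le_one (by positivity)]
        linarith
      nlinarith
    have h3 : 2 * (2 ^ q / (K * τ ^ 2)) ≤ δ₀ / 3 := by
      rw [div_lt_iff₀ (by positivity)] at hK
      rw [← mul_div_assoc, div_le_iff₀ (by positivity)]
      nlinarith
    linarith
  -- large n
  obtain ⟨N, hN⟩ := exists_nat_gt (max (4 / (ε₁ / 2)) (K / (τ / 2)))
  refine ⟨max K N, fun n hn => ?_⟩
  rcases le_or_gt n N with hnN | hnN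
  · exact ⟨g n, partiallySymmetric_of_le hn (hnN.trans (le_max_right _ _)) _, by
      rw [dist_self]; exact hε₁.le⟩
  · have hnR : (0 : ℝ) < n := by exact_mod_cast hn
    have hN' : (N : ℝ) < n := by exact_mod_cast hnN
    have h1 : 4 / (ε₁ / 2) < n := ((le_max_left _ _).trans_lt hN).trans hN'
    have h2 : (K : ℝ) / (τ / 2) < n := ((le_max_right _ _).trans_lt hN).trans hN'
    obtain ⟨h, hPS, hdist⟩ := exists_close_of_rigid hn hK0 hJ0 hε₀1 (hrig n) hc
      (fun j => hst j n) hmono hcδ hε0.le hτ0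
      (by rw [div_lt_iff₀ (by positivity)] at h2; linarith) hτδ hsum
    refine ⟨h, hPS.mono hn (le_max_left _ _), hdist.trans ?_⟩
    have h3 : ε₀ ≤ ε₁ / 2 := min_le_left _ _
    have h4 : 4 / (n : ℝ) ≤ ε₁ / 2 := by
      rw [div_lt_iff₀ (by positivity)] at h1
      rw [div_le_iff₀ hnR]
      linarith
    linarith

end Pool.Agent.MP4d28ec
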