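import Pool.Agent.Lib.MP_4d28ec_Lift.Sens
import Pool.Agent.Lib.MP_4d28ec_Lift.Defs

/-!
Families of bounded combinations of polynomial threshold functions of bounded degree and of the
Hamming weight are stable under small weight-preserving changes.
-/

open Finset

namespace Pool.Agent.MP4d28ec

/-- The relative form of stability: for every `ε > 0` there is `δ > 0` such that for all `n` and
all points `x`, `y` of the same weight `a` with at most `δ min(a, n - a)` coordinates at which `x`
is `1` and `y` is `0`, after a uniformly random relabelling of the coordinates the values of `g n`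
at `x` and `y` differ with probability at most `ε`. -/
def RelStable (g : (n : ℕ) → Cube n → Bool) : Prop :=
  ∀ ε : ℝ, 0 < ε → ∃ δ : ℝ, 0 < δ ∧ ∀ (n : ℕ) (x y : Cube n), wt x = wt y →
    ((Finset.univ.filter fun i => x i = true ∧ y i = false).card : ℝ) ≤
      δ * min (wt x : ℝ) ((n : ℝ) - wt x) →
        ((Finset.univ.filter fun π : Equiv.Perm (Fin n) =>
          g n (fun i => x (π i)) ≠ g n (fun i => y (π i))).card : ℝ) ≤ ε * n.factorial

theorem RelStable.sliceStable {g : (n : ℕ) → Cube n → Bool} (hg : RelStable g) :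
    SliceStable g := by
  intro ε hε c hc
  obtain ⟨δ, hδ, h⟩ := hg ε hε
  refine ⟨δ * c, by positivity, fun n x y hw h1 h2 h3 => h n x y hw (h3.trans ?_)⟩
  rw [mul_assoc]
  exact mul_le_mul_of_nonneg_left (le_min h1 (by linarith)) hδ.le

lemma exists_perm_of_card {n : ℕ} {T : Type} [DecidableEq T] (f g : Fin n → T)
    (h : ∀ t, (univ.filter fun i => g i = t).card = (univ.filter fun i => f i = t).card) :
    ∃ ρ : Equiv.Perm (Fin n), ∀ i, g i = f (ρ i) := by
  have e : ∀ t, Nonempty ({i // g i = t} ≃ {i // f i = t}) := by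
    intro t
    rw [← Fintype.card_eq, Fintype.card_subtype, Fintype.card_subtype, h t]
  refine ⟨Equiv.ofFiberEquiv fun t => Classical.choice (e t), fun i => ?_⟩
  exact (Equiv.ofFiberEquiv_map (fun t => Classical.choice (e t)) i).symm

/-- The four counts of a pair are determined by the weights and the number of `(1, 0)`. -/
lemma pair_counts {n : ℕ} (u v : Cube n) :
    (univ.filter fun i => u i = true ∧ v i = true).card +
      (univ.filter fun i => u i = true ∧ v i = false).card = wt u ∧
    (univ.filter fun i => u i = true ∧ v i = true).card +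
      (univ.filter fun i => u i = false ∧ v i = true).card = wt v ∧
    wt u + (univ.filter fun i => u i = false ∧ v i = true).card +
      (univ.filter fun i => u i = false ∧ v i = false).card = n := by
  have key : ∀ P Q : Fin n → Prop, ∀ [DecidablePred P] [DecidablePred Q],
      (univ.filter fun i => P i ∧ Q i).card + (univ.filter fun i => P i ∧ ¬ Q i).card =
        (univ.filter fun i => P i).card := by
    intro P Q _ _
    rw [← Finset.filter_filter, ← Finset.filter_filter, Finset.card_filter_add_card_filter_not]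
  have h1 := key (fun i => u i = true) (fun i => v i = true)
  have h2 := key (fun i => v i = true) (fun i => u i = true)
  have h3 := key (fun i => u i = false) (fun i => v i = true)
  have h4 := key (fun _ => True) (fun i => u i = true)
  simp only [Bool.not_eq_true, true_and] at h1 h2 h3 h4
  have h5 : (univ.filter fun i => v i = true ∧ u i = true) =
      (univ.filter fun i => u i = true ∧ v i = true) := by
    apply Finset.filter_congr
    intro i _
    exact and_comm
  have h6 : (univ.filter fun i => v i = true ∧ u i = false) =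
      (univ.filter fun i => u i = false ∧ v i = true) := by
    apply Finset.filter_congr
    intro i _
    exact and_comm
  rw [h5, h6] at h2
  have h7 : (univ.filter fun _ : Fin n => True).card = n := by simp
  rw [h7] at h4
  unfold wt
  refine ⟨h1, h2, ?_⟩
  omega

lemma exists_perm_pair {n : ℕ} {x y u v : Cube n} (h1 : wt x = wt y) (h2 : wt u = wt x)
    (h3 : wt v = wt x)
    (h4 : (univ.filter fun i => u i = true ∧ v i = false).card =
      (univ.filter fun i => x i = true ∧ y i = false).card) :
    ∃ ρ : Equiv.Perm (Fin n), (∀ i, u i = x (ρ i)) ∧ ∀ i, v i = y (ρ i) := by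
  obtain ⟨a1, a2, a3⟩ := pair_counts x y
  obtain ⟨b1, b2, b3⟩ := pair_counts u v
  obtain ⟨ρ, hρ⟩ := exists_perm_of_card (fun i => (x i, y i)) (fun i => (u i, v i)) (by
    rintro ⟨s, t⟩
    simp only [Prod.mk.injEq]
    cases s <;> cases t <;> omega)
  exact ⟨ρ, fun i => (Prod.mk.inj (hρ i)).1, fun i => (Prod.mk.inj (hρ i)).2⟩

/-- The points of the block cube. -/
def blockPt {m d s t : ℕ} (σ : Fin m → Bool) :
    ((Fin m × Fin d) ⊕ (Fin m × Fin d)) ⊕ (Fin s ⊕ Fin t) → Bool
  | .inl (.inl z) => σ z.1
  | .inl (.inr z) => !σ z.1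
  | .inr (.inl _) => true
  | .inr (.inr _) => false

lemma exists_blocks {n m d a : ℕ} (h1 : m * d ≤ a) (h2 : a + m * d ≤ n) :
    ∃ X : (Fin m → Bool) → Cube n,
      (∀ i, (∃ B, ∀ σ, X σ i = σ B) ∨ (∃ B, ∀ σ, X σ i = !σ B) ∨ (∃ b, ∀ σ, X σ i = b)) ∧
      (∀ σ, wt (X σ) = a) ∧
      ∀ σ B, (univ.filter fun i => X σ i = true ∧ X (Sens.flip B σ) i = false).card = d := by
  have hc : Fintype.card (Fin n) = Fintype.card
      (((Fin m × Fin d) ⊕ (Fin m × Fin d)) ⊕ (Fin (a - m * d) ⊕ Fin (n - a - m * d))) := by
    simp only [Fintype.card_fin, Fintype.card_sum, Fintype.card_prod]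
    omega
  obtain e := Fintype.equivOfCardEq hc
  refine ⟨fun σ i => blockPt σ (e i), ?_, ?_, ?_⟩
  · intro i
    rcases h : e i with (z | z) | (z | z)
    · exact Or.inl ⟨z.1, fun σ => by simp only [h, blockPt]⟩
    · exact Or.inr (Or.inl ⟨z.1, fun σ => by simp only [h, blockPt]⟩)
    · exact Or.inr (Or.inr ⟨true, fun σ => by simp only [h, blockPt]⟩)
    · exact Or.inr (Or.inr ⟨false, fun σ => by simp only [h, blockPt]⟩)
  · intro σ
    unfold wt
    rw [Finset.card_filter, Equiv.sum_comp e (fun z => if blockPt σ z = true then 1 else 0)]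
    rw [Fintype.sum_sum_type, Fintype.sum_sum_type, Fintype.sum_sum_type, Fintype.sum_prod_type,
      Fintype.sum_prod_type]
    have h3 : ∑ B : Fin m, ∑ _j : Fin d, (if σ B = true then 1 else 0) +
        ∑ B : Fin m, ∑ _j : Fin d, (if (!σ B) = true then 1 else 0) = m * d := by
      rw [← Finset.sum_add_distrib]
      have : ∀ B : Fin m, (∑ _j : Fin d, (if σ B = true then 1 else 0) +
        ∑ _j : Fin d, (if (!σ B) = true then 1 else 0)) = d := by
        intro B
        cases σ B <;> simp
      rw [Finset.sum_congr rfl fun B _ => this B]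
      simp
    have h4 : ∑ _j : Fin (a - m * d), (if true = true then 1 else 0) = a - m * d := by simp
    have h5 : ∑ _j : Fin (n - a - m * d), (if false = true then 1 else 0) = 0 := by simp
    change (∑ B : Fin m, ∑ _j : Fin d, (if σ B = true then 1 else 0) +
        ∑ B : Fin m, ∑ _j : Fin d, (if (!σ B) = true then 1 else 0)) +
        (∑ _j : Fin (a - m * d), (if true = true then 1 else 0) +
          ∑ _j : Fin (n - a - m * d), (if false = true then 1 else 0)) = a
    rw [h3, h4, h5]
    omega
  · intro σ B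
    rw [Finset.card_filter, Equiv.sum_comp e
      (fun z => if blockPt σ z = true ∧ blockPt (Sens.flip B σ) z = false then 1 else 0)]
    rw [Fintype.sum_sum_type, Fintype.sum_sum_type, Fintype.sum_sum_type, Fintype.sum_prod_type,
      Fintype.sum_prod_type]
    have h3 : ∑ B' : Fin m, ∑ _j : Fin d,
          (if σ B' = true ∧ Sens.flip B σ B' = false then 1 else 0) +
        ∑ B' : Fin m, ∑ _j : Fin d,
          (if (!σ B') = true ∧ (!Sens.flip B σ B') = false then 1 else 0) = d := by
      rw [← Finset.sum_add_distrib, Finset.sum_eq_single B]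
      · rw [Sens.flip_same]
        cases σ B <;> simp
      · intro B' _ hB
        rw [Sens.flip_ne hB]
        cases σ B' <;> simp
      · intro h
        exact absurd (Finset.mem_univ B) h
    change (∑ B' : Fin m, ∑ _j : Fin d,
          (if σ B' = true ∧ Sens.flip B σ B' = false then 1 else 0) +
        ∑ B' : Fin m, ∑ _j : Fin d,
          (if (!σ B') = true ∧ (!Sens.flip B σ B') = false then 1 else 0)) +
        (∑ _j : Fin (a - m * d), (if true = true ∧ true = false then 1 else 0) +
          ∑ _j : Fin (n - a - m * d), (if false = true ∧ false = false then 1 else 0)) = d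
    rw [h3]
    simp

/-- The number of permutations that separate a pair of points of the same weight, bounded by the
average sensitivities of the restrictions to block cubes. -/
lemma block_bound {n m : ℕ} (h : Cube n → Bool) (x y : Cube n) (hxy : wt x = wt y)
    (h1 : m * (univ.filter fun i => x i = true ∧ y i = false).card ≤ wt x)
    (h2 : wt x + m * (univ.filter fun i => x i = true ∧ y i = false).card ≤ n) :
    ∃ X : (Fin m → Bool) → Cube n,
      (∀ i, (∃ B, ∀ σ, X σ i = σ B) ∨ (∃ B, ∀ σ, X σ i = !σ B) ∨ (∃ b, ∀ σ, X σ i = b)) ∧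
      (∀ σ, wt (X σ) = wt x) ∧
      (m : ℝ) * 2 ^ m * ((univ.filter fun π : Equiv.Perm (Fin n) =>
        h (fun i => x (π i)) ≠ h (fun i => y (π i))).card : ℝ) =
      ∑ π : Equiv.Perm (Fin n), Sens.sens (fun σ => h (fun i => X σ (π i))) := by
  obtain ⟨X, hX1, hX2, hX3⟩ := exists_blocks h1 h2
  refine ⟨X, hX1, hX2, ?_⟩
  have key : ∀ σ B, (∑ π : Equiv.Perm (Fin n),
      if h (fun i => X σ (π i)) ≠ h (fun i => X (Sens.flip B σ) (π i)) then (1 : ℝ) else 0) =
      ((univ.filter fun π : Equiv.Perm (Fin n) =>
        h (fun i => x (π i)) ≠ h (fun i => y (π i))).card : ℝ) := by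
    intro σ B
    obtain ⟨ρ, hρ1, hρ2⟩ := exists_perm_pair (x := x) (y := y) hxy (hX2 σ)
      (hX2 (Sens.flip B σ)) (hX3 σ B)
    have ex : ∀ π : Equiv.Perm (Fin n), (fun i => X σ (π i)) = fun i => x ((ρ * π) i) := by
      intro π
      funext i
      rw [hρ1, Equiv.Perm.mul_apply]
    have ey : ∀ π : Equiv.Perm (Fin n),
        (fun i => X (Sens.flip B σ) (π i)) = fun i => y ((ρ * π) i) := by
      intro π
      funext i
      rw [hρ2, Equiv.Perm.mul_apply]
    have e3 := Equiv.sum_comp (Equiv.mulLeft ρ) (fun τ : Equiv.Perm (Fin n) =>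
        if h (fun i => x (τ i)) ≠ h (fun i => y (τ i)) then (1 : ℝ) else 0)
    simp only [ex, ey]
    refine Eq.trans e3 ?_
    rw [Finset.sum_ite, Finset.sum_const_zero, add_zero, Finset.sum_const, nsmul_eq_mul, mul_one]
  unfold Sens.sens
  rw [Finset.sum_comm]
  have e2 : ∀ B : Fin m, ∑ π : Equiv.Perm (Fin n), ∑ σ : Fin m → Bool,
      (if (fun σ => h (fun i => X σ (π i))) σ ≠
        (fun σ => h (fun i => X σ (π i))) (Sens.flip B σ) then (1 : ℝ) else 0) =
      2 ^ m * ((univ.filter fun π : Equiv.Perm (Fin n) =>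
        h (fun i => x (π i)) ≠ h (fun i => y (π i))).card : ℝ) := by
    intro B
    rw [Finset.sum_comm]
    rw [Finset.sum_congr rfl fun σ _ => key σ B]
    simp
  rw [Finset.sum_congr rfl fun B _ => e2 B]
  simp
  ring

lemma eval_mem {m n : ℕ} (X : (Fin m → Bool) → Cube n)
    (hX : ∀ i, (∃ B, ∀ σ, X σ i = σ B) ∨ (∃ B, ∀ σ, X σ i = !σ B) ∨ (∃ b, ∀ σ, X σ i = b))
    (D : ℕ) (p : MvPolynomial (Fin n) ℝ) (hp : p.totalDegree ≤ D) :
    (fun σ => MvPolynomial.eval (fun i => if X σ i = true then (1 : ℝ) else 0) p) ∈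
      Sens.V m D := by
  have hlin : ∀ i, (fun σ => if X σ i = true then (1 : ℝ) else 0) ∈ Sens.V m 1 := by
    intro i
    rcases hX i with ⟨B, hB⟩ | ⟨B, hB⟩ | ⟨b, hb⟩
    · have : (fun σ => if X σ i = true then (1 : ℝ) else 0) =
          (1 / 2 : ℝ) • ((fun _ => 1) + Sens.chi {B}) := by
        funext σ
        simp only [hB, Pi.smul_apply, Pi.add_apply, Sens.chi, Finset.prod_singleton, smul_eq_mul]
        cases σ B <;> simp [Sens.sg]
        norm_num
      rw [this]
      exact Submodule.smul_mem _ _ (Submodule.add_mem _ (Sens.const_mem 1)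
        (Sens.chi_mem (by simp)))
    · have : (fun σ => if X σ i = true then (1 : ℝ) else 0) =
          (1 / 2 : ℝ) • ((fun _ => 1) - Sens.chi {B}) := by
        funext σ
        simp only [hB, Pi.smul_apply, Pi.sub_apply, Sens.chi, Finset.prod_singleton, smul_eq_mul]
        cases σ B <;> simp [Sens.sg]
        norm_num
      rw [this]
      exact Submodule.smul_mem _ _ (Submodule.sub_mem _ (Sens.const_mem 1)
        (Sens.chi_mem (by simp)))
    · have : (fun σ => if X σ i = true then (1 : ℝ) else 0) =
          (fun _ => if b = true then (1 : ℝ) else 0) := by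
        funext σ
        simp only [hb]
      rw [this]
      exact Sens.const_mem _
  have hpow : ∀ (i : Fin n) (k : ℕ), (fun σ => (if X σ i = true then (1 : ℝ) else 0) ^ k) ∈
      Sens.V m k := by
    intro i k
    induction k with
    | zero => simpa using Sens.const_mem (m := m) (D := 0) 1
    | succ k ih =>
      have := Sens.mul_mem ih (hlin i)
      exact this
  have hmon : ∀ (c : Fin n →₀ ℕ) (s : Finset (Fin n)),
      (fun σ => ∏ i ∈ s, (if X σ i = true then (1 : ℝ) else 0) ^ c i) ∈
      Sens.V m (∑ i ∈ s, c i) := by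
    intro c s
    classical
    induction s using Finset.induction_on with
    | empty => simpa using Sens.const_mem (m := m) (D := 0) 1
    | insert i s hi ih =>
      have h := Sens.mul_mem (hpow i (c i)) ih
      rw [Finset.sum_insert hi]
      have e : (fun σ => ∏ j ∈ insert i s, (if X σ j = true then (1 : ℝ) else 0) ^ c j) =
          (fun σ => (if X σ i = true then (1 : ℝ) else 0) ^ c i) *
          (fun σ => ∏ j ∈ s, (if X σ j = true then (1 : ℝ) else 0) ^ c j) := by
        funext σ
        rw [Finset.prod_insert hi, Pi.mul_apply]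
      rw [e]
      exact h
  have hfun : (fun σ => MvPolynomial.eval (fun i => if X σ i = true then (1 : ℝ) else 0) p) =
      ∑ c ∈ p.support, (p.coeff c) •
        (fun σ => ∏ i, (if X σ i = true then (1 : ℝ) else 0) ^ c i) := by
    funext σ
    rw [MvPolynomial.eval_eq', Finset.sum_apply]
    rfl
  rw [hfun]
  apply Submodule.sum_mem
  intro c hc
  apply Submodule.smul_mem
  refine Sens.V_mono ?_ (hmon c univ)
  refine le_trans ?_ hp
  have := MvPolynomial.le_totalDegree hc
  rw [Finsupp.sum_fintype _ _ (by simp)] at this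
  exact this

/-- A polynomial threshold function of degree at most `D` is slice-stable, uniformly. -/
theorem ptf_stable (D : ℕ) (ε : ℝ) (hε : 0 < ε) : ∃ δ : ℝ, 0 < δ ∧
    ∀ (n : ℕ) (p : MvPolynomial (Fin n) ℝ), p.totalDegree ≤ D → ∀ (x y : Cube n), wt x = wt y →
    ((univ.filter fun i => x i = true ∧ y i = false).card : ℝ) ≤
      δ * min (wt x : ℝ) ((n : ℝ) - wt x) →
    ((univ.filter fun π : Equiv.Perm (Fin n) =>
      ptf p (fun i => x (π i)) ≠ ptf p (fun i => y (π i))).card : ℝ) ≤ ε * n.factorial := by
  obtain ⟨M, hM⟩ := Sens.sens_le D ε hε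
  refine ⟨1 / (M + 1), by positivity, fun n p hp x y hxy hd => ?_⟩
  have hm1 : (M + 1) * (univ.filter fun i => x i = true ∧ y i = false).card ≤ wt x := by
    have h := hd.trans (mul_le_mul_of_nonneg_left (min_le_left _ _) (by positivity))
    rw [one_div, inv_mul_eq_div, le_div_iff₀ (by positivity)] at h
    have h' : (((M + 1) * (univ.filter fun i => x i = true ∧ y i = false).card : ℕ) : ℝ) ≤
        (wt x : ℝ) := by
      push_cast
      linarith
    exact_mod_cast h'
  have hm2 : wt x + (M + 1) * (univ.filter fun i => x i = true ∧ y i = false).card ≤ n := by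
    have h := hd.trans (mul_le_mul_of_nonneg_left (min_le_right _ _) (by positivity))
    rw [one_div, inv_mul_eq_div, le_div_iff₀ (by positivity)] at h
    have h' : ((wt x + (M + 1) * (univ.filter fun i => x i = true ∧ y i = false).card : ℕ) : ℝ) ≤
        (n : ℝ) := by
      push_cast
      linarith
    exact_mod_cast h'
  obtain ⟨X, hX1, -, hX3⟩ := block_bound (ptf p) x y hxy hm1 hm2
  have hb : ∀ π : Equiv.Perm (Fin n), Sens.sens (fun σ => ptf p (fun i => X σ (π i))) ≤
      ε * (M + 1 : ℕ) * 2 ^ (M + 1) := by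
    intro π
    have := hM (M + 1) (by omega) _ (eval_mem (fun σ i => X σ (π i))
      (fun i => hX1 (π i)) D p hp)
    exact this
  have hs : (((M + 1 : ℕ) : ℝ)) * 2 ^ (M + 1) * ((univ.filter fun π : Equiv.Perm (Fin n) =>
        ptf p (fun i => x (π i)) ≠ ptf p (fun i => y (π i))).card : ℝ) ≤
      n.factorial * (ε * (M + 1 : ℕ) * 2 ^ (M + 1)) := by
    rw [hX3]
    calc ∑ π : Equiv.Perm (Fin n), Sens.sens (fun σ => ptf p (fun i => X σ (π i)))
        ≤ ∑ _π : Equiv.Perm (Fin n), (ε * (M + 1 : ℕ) * 2 ^ (M + 1)) :=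
          Finset.sum_le_sum fun π _ => hb π
      _ = _ := by
          rw [Finset.sum_const, Finset.card_univ, Fintype.card_perm, Fintype.card_fin,
            nsmul_eq_mul]
  have hpos : (0 : ℝ) < ((M + 1 : ℕ) : ℝ) * 2 ^ (M + 1) := by positivity
  refine le_of_mul_le_mul_left ?_ hpos
  calc _ ≤ _ := hs
    _ = _ := by ring

/-- Families of bounded combinations of polynomial threshold functions of bounded degree are
slice-stable. -/
theorem relStable_of_ptf {g : (n : ℕ) → Cube n → Bool} {r D : ℕ}
    (hg : ∀ n, PTFCombination r D (g n)) : RelStable g := by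
  intro ε hε
  obtain ⟨δ, hδ, hstab⟩ := ptf_stable D (ε / (r + 1)) (by positivity)
  refine ⟨δ, hδ, fun n x y hxy hd => ?_⟩
  obtain ⟨p, F, hp, hF⟩ := hg n
  have hwt : ∀ (z : Cube n) (π : Equiv.Perm (Fin n)), wt (fun i => z (π i)) = wt z := by
    intro z π
    unfold wt
    rw [Finset.card_filter, Finset.card_filter]
    exact Equiv.sum_comp π (fun i => if z i = true then 1 else 0)
  have hsub : (univ.filter fun π : Equiv.Perm (Fin n) =>
      g n (fun i => x (π i)) ≠ g n (fun i => y (π i))) ⊆
      (univ : Finset (Fin r)).biUnion fun j => univ.filter fun π : Equiv.Perm (Fin n) =>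
        ptf (p (wt x) j) (fun i => x (π i)) ≠ ptf (p (wt x) j) (fun i => y (π i)) := by
    intro π hπ
    simp only [Finset.mem_filter, Finset.mem_univ, true_and, Finset.mem_biUnion] at hπ ⊢
    by_contra hcon
    push Not at hcon
    apply hπ
    rw [hF, hF, hwt, hwt, ← hxy]
    congr 1
    funext j
    exact hcon j
  have hcard : ((univ.filter fun π : Equiv.Perm (Fin n) =>
      g n (fun i => x (π i)) ≠ g n (fun i => y (π i))).card : ℝ) ≤
      ∑ j : Fin r, ((univ.filter fun π : Equiv.Perm (Fin n) =>
        ptf (p (wt x) j) (fun i => x (π i)) ≠ ptf (p (wt x) j) (fun i => y (π i))).card : ℝ) := by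
    have := (Finset.card_le_card hsub).trans Finset.card_biUnion_le
    exact_mod_cast this
  calc _ ≤ _ := hcard
    _ ≤ ∑ _j : Fin r, (ε / (r + 1) * n.factorial) :=
        Finset.sum_le_sum fun j _ => hstab n _ (hp _ _) x y hxy hd
    _ = r * (ε / (r + 1) * n.factorial) := by simp
    _ ≤ ε * n.factorial := by
        have h1 : (r : ℝ) * (ε / (r + 1)) ≤ ε := by
          rw [mul_div_assoc', div_le_iff₀ (by positivity)]
          nlinarith
        have h2 : (0 : ℝ) ≤ n.factorial := by positivity
        calc (r : ℝ) * (ε / (r + 1) * n.factorial) = (r * (ε / (r + 1))) * n.factorial := by ring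
          _ ≤ ε * n.factorial := mul_le_mul_of_nonneg_right h1 h2

end Pool.Agent.MP4d28ec
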