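import Pool.Agent.Lib.MP_4d28ec_Lift.S0

/-!
Row R1: the distance, sets of relevant coordinates of a partially symmetric function, relabelling.
-/

open Finset

namespace Pool.Agent.MP4d28ec.Suff

open Pool.Agent.H44IT Pool.Agent.MP4d28ec

lemma dist_comm {n : ℕ} (f g : Cube n → Bool) : dist f g = dist g f := by
  rw [dist_eq_Pr, dist_eq_Pr]
  exact Pr_congr fun x => ne_comm

lemma dist_triangle {n : ℕ} (f g h : Cube n → Bool) : dist f h ≤ dist f g + dist g h := by
  rw [dist_eq_Pr, dist_eq_Pr, dist_eq_Pr]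
  refine Pr_le_add fun x hx => ?_
  by_contra hcon
  push Not at hcon
  exact hx (hcon.1.trans hcon.2)

lemma dist_permute {n : ℕ} (f g : Cube n → Bool) (π : Equiv.Perm (Fin n)) :
    dist (permute f π) (permute g π) = dist f g := by
  rw [dist_eq_Pr, dist_eq_Pr]
  exact Pr_equiv (cubePerm π) (fun x => f x ≠ g x)

lemma dep_of_ps {n k : ℕ} {h : Cube n → Bool} (hh : PartiallySymmetric k h) :
    ∃ S : Finset (Fin n), S.card ≤ k ∧ Dep S h := by
  classical
  obtain ⟨ρ, H, hH⟩ := hh
  refine ⟨Finset.univ.image ρ, ?_, ?_⟩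
  · exact Finset.card_image_le.trans (by simp)
  · intro x y hxy hw
    rw [hH, hH, hw]
    congr 1
    funext a
    exact hxy (ρ a) (Finset.mem_image_of_mem ρ (Finset.mem_univ a))

lemma ps_of_dep {n k : ℕ} (hn : k ≤ n) {S : Finset (Fin n)} (hS : S.card ≤ k) {h : Cube n → Bool}
    (hh : Dep S h) : ∃ (ρ : Fin k → Fin n) (H : (Fin k → Bool) → ℕ → Bool),
      Function.Injective ρ ∧ ∀ x, h x = H (fun a => x (ρ a)) (wt x) := by
  classical
  obtain ⟨S', hSS', hc⟩ := Finset.exists_superset_card_eq hS (by simpa using hn)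
  refine ⟨fun a => ((S'.equivFinOfCardEq hc).symm a : Fin n), fun z w =>
    if hx : ∃ x : Cube n, (∀ a, x ((S'.equivFinOfCardEq hc).symm a : Fin n) = z a) ∧ wt x = w
      then h hx.choose else false, ?_, ?_⟩
  · intro a b hab
    exact (S'.equivFinOfCardEq hc).symm.injective (Subtype.ext hab)
  · intro x
    have hex : ∃ x' : Cube n, (∀ a, x' ((S'.equivFinOfCardEq hc).symm a : Fin n) =
        x ((S'.equivFinOfCardEq hc).symm a : Fin n)) ∧ wt x' = wt x := ⟨x, fun _ => rfl, rfl⟩
    show h x = dite _ _ _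
    rw [dif_pos hex]
    refine hh _ _ ?_ hex.choose_spec.2.symm
    intro i hi
    have h1 := hex.choose_spec.1 ((S'.equivFinOfCardEq hc) ⟨i, hSS' hi⟩)
    rw [Equiv.symm_apply_apply] at h1
    exact h1.symm

/-- permuted functions -/
lemma dep_permute {n : ℕ} {S : Finset (Fin n)} {h : Cube n → Bool} (hh : Dep S h)
    (π : Equiv.Perm (Fin n)) : Dep (S.image π) (permute h π) := by
  intro x y hxy hw
  unfold permute
  refine hh _ _ ?_ ?_
  · intro i hi
    exact hxy (π i) (Finset.mem_image_of_mem π hi)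
  · rw [wt_perm, wt_perm, hw]

end Pool.Agent.MP4d28ec.Suff
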