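import Pool.Agent.Lib.MP_4d28ec_Lift.S0

/-!
Row R10: a number `m` for which a random partition into `m` cells rarely has a bad union of `k` cells.
-/

open Finset

namespace Pool.Agent.MP4d28ec.Suff

open Pool.Agent.H44IT Pool.Agent.MP4d28ec

lemma exists_m (k : ℕ) (hk : 0 < k) (M : ℕ) :
    ∃ m : ℕ, M ≤ m ∧ 2 * k ≤ m ∧
      (Nat.choose m k : ℝ) * ((k : ℝ) / (m - k)) ^ (k + 1) ≤ 1 / 8 := by
  refine ⟨M + 2 * k + (8 * 2 ^ k * k ^ (k + 1)), by omega, by omega, ?_⟩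
  set m : ℕ := M + 2 * k + (8 * 2 ^ k * k ^ (k + 1)) with hm
  have hk' : (1 : ℝ) ≤ k := by exact_mod_cast hk
  have hmR : (m : ℝ) = M + 2 * k + (8 * 2 ^ k * (k : ℝ) ^ (k + 1)) := by
    rw [hm]; push_cast; ring
  have hM0 : (0 : ℝ) ≤ M := Nat.cast_nonneg M
  have hP : (0 : ℝ) ≤ 8 * 2 ^ k * (k : ℝ) ^ (k + 1) := by positivity
  have hm2 : (2 : ℝ) * k ≤ m := by rw [hmR]; linarith
  have hmk : (0 : ℝ) < m - k := by linarith
  have hD : 8 * 2 ^ k * (k : ℝ) ^ (k + 1) ≤ m - k := by rw [hmR]; linarith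
  have h1 : (Nat.choose m k : ℝ) ≤ (m : ℝ) ^ k := by
    exact_mod_cast Nat.choose_le_pow m k
  have h2 : (m : ℝ) ≤ 2 * (m - k) := by linarith
  have h3 : (m : ℝ) ^ k ≤ 2 ^ k * (m - k) ^ k := by
    rw [← mul_pow]
    exact pow_le_pow_left₀ (by positivity) h2 k
  have h4 : ((k : ℝ) / (m - k)) ^ (k + 1) = (k : ℝ) ^ (k + 1) / ((m - k) ^ k * (m - k)) := by
    rw [div_pow, pow_succ ((m : ℝ) - k)]
  have h5 : (0 : ℝ) < (m - k) ^ k := by positivity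
  rw [h4]
  calc (Nat.choose m k : ℝ) * ((k : ℝ) ^ (k + 1) / ((m - k) ^ k * (m - k)))
      ≤ (2 ^ k * (m - k) ^ k) * ((k : ℝ) ^ (k + 1) / ((m - k) ^ k * (m - k))) := by
        apply mul_le_mul_of_nonneg_right (h1.trans h3); positivity
    _ = 2 ^ k * (k : ℝ) ^ (k + 1) / (m - k) := by
        field_simp
    _ ≤ 1 / 8 := by
        rw [div_le_div_iff₀ hmk (by norm_num)]
        linarith

end Pool.Agent.MP4d28ec.Suff
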