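import Pool.Agent.Lib.MP_4d28ec_Lift.S0

/-! Row R11: Chebyshev with a union bound, Markov for counts. -/

open Finset

namespace Pool.Agent.MP4d28ec.Suff

open Pool.Agent.H44IT Pool.Agent.MP4d28ec

/-- the law of one coordinate -/
lemma Ex_coord {α : Type} [Fintype α] [Nonempty α] {N : ℕ} (j : Fin N) (F : α → ℝ) :
    Ex (fun s : Fin N → α => F (s j)) = Ex F := by
  have h1 := Ex_equiv (Equiv.funSplitAt j α) (fun p : α × ({j' // j' ≠ j} → α) => F p.1)
  have h2 : Ex (fun p : α × ({j' // j' ≠ j} → α) => F p.1) = Ex F := Ex_fst F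
  rw [← h2, ← h1]
  rfl

-- ROW R11 (file R11.lean): Chebyshev with a union bound.
-- `α` the sample space, `P i` events, at most `B` of them.
lemma union_chebyshev {α : Type} [Fintype α] [Nonempty α] {ι : Type} [Fintype ι]
    (P : ι → α → Prop) [∀ i, DecidablePred (P i)] (N : ℕ) (hN : 0 < N) (a b : ℝ) (hab : a < b) (B : ℝ)
    (hB : (Fintype.card ι : ℝ) ≤ B) (hNB : B / (N * (b - a) ^ 2) ≤ 1 / 24) :
    Pr (fun s : Fin N → α => ∃ i, ((Finset.univ.filter fun j => P i (s j)).card : ℝ) ≤ a * N ∧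
      b < Pr (P i)) ≤ 1 / 24 := by
  classical
  have hNR : (0 : ℝ) < N := by exact_mod_cast hN
  have hδ : 0 < b - a := by linarith
  have hone : ∀ i, Pr (fun s : Fin N → α =>
      ((Finset.univ.filter fun j => P i (s j)).card : ℝ) ≤ a * N ∧ b < Pr (P i))
      ≤ 1 / (N * (b - a) ^ 2) := by
    intro i
    refine (Pr_mono ?_).trans (chebyshev' (P i) N hN hδ)
    rintro s ⟨h1, h2⟩
    have h3 : (N : ℝ) * (b - a) ≤ N * Pr (P i)
        - ((Finset.univ.filter fun j => P i (s j)).card : ℝ) := by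
      have h4 : (N : ℝ) * b ≤ N * Pr (P i) := mul_le_mul_of_nonneg_left h2.le hNR.le
      linarith
    have h5 := neg_le_abs (((Finset.univ.filter fun j => P i (s j)).card : ℝ) - N * Pr (P i))
    have h6 : 0 ≤ (N : ℝ) * (b - a) := by positivity
    linarith
  have h1 := Pr_exists_le (Finset.univ : Finset ι) (fun i (s : Fin N → α) =>
    ((Finset.univ.filter fun j => P i (s j)).card : ℝ) ≤ a * N ∧ b < Pr (P i))
  refine (Pr_mono ?_).trans (h1.trans ((Finset.sum_le_sum fun i _ => hone i).trans ?_))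
  · rintro s ⟨i, hi⟩
    exact ⟨i, Finset.mem_univ i, hi⟩
  · rw [Finset.sum_const, Finset.card_univ, nsmul_eq_mul]
    refine le_trans ?_ hNB
    rw [mul_one_div]
    exact div_le_div_of_nonneg_right hB (by positivity)

-- Markov for the number of failures
lemma markov_count {α β : Type} [Fintype α] [Nonempty α] [Fintype β] [Nonempty β]
    (P : β → α → Prop) [∀ b, DecidablePred (P b)] (N : ℕ) (hN : 0 < N) (c t : ℝ) (ht : 0 < t)
    (h : Pr (fun p : β × α => P p.1 p.2) ≤ c) :
    Pr (fun p : β × (Fin N → α) =>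
      t * N < ((Finset.univ.filter fun j => P p.1 (p.2 j)).card : ℝ)) ≤ c / t := by
  classical
  have hNR : (0 : ℝ) < N := by exact_mod_cast hN
  have htN : 0 < t * N := by positivity
  refine (Pr_lt_le (fun p : β × (Fin N → α) =>
    ((Finset.univ.filter fun j => P p.1 (p.2 j)).card : ℝ)) (fun _ => Nat.cast_nonneg _)
    htN).trans ?_
  have h1 : Ex (fun p : β × (Fin N → α) =>
      ((Finset.univ.filter fun j => P p.1 (p.2 j)).card : ℝ))
      = N * Pr (fun p : β × α => P p.1 p.2) := by
    have h2 : Ex (fun p : β × (Fin N → α) =>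
        ((Finset.univ.filter fun j => P p.1 (p.2 j)).card : ℝ))
        = Ex (fun p : β × (Fin N → α) => ∑ j, (if P p.1 (p.2 j) then (1 : ℝ) else 0)) := by
      apply Ex_congr
      intro p
      rw [Finset.sum_boole]
    rw [h2, Ex_sum]
    have h3 : ∀ j ∈ (Finset.univ : Finset (Fin N)),
        Ex (fun p : β × (Fin N → α) => (if P p.1 (p.2 j) then (1 : ℝ) else 0))
        = Pr (fun p : β × α => P p.1 p.2) := by
      intro j _
      rw [Ex_prod, Pr_def, Ex_prod]
      apply Ex_congr
      intro b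
      exact Ex_coord j (fun a => if P b a then (1 : ℝ) else 0)
    rw [Finset.sum_congr rfl h3, Finset.sum_const, Finset.card_univ, Fintype.card_fin,
      nsmul_eq_mul]
  rw [h1, div_le_div_iff₀ htN ht]
  calc (N : ℝ) * Pr (fun p : β × α => P p.1 p.2) * t ≤ N * c * t := by
        apply mul_le_mul_of_nonneg_right _ ht.le
        exact mul_le_mul_of_nonneg_left h hNR.le
    _ = c * (t * N) := by ring

end Pool.Agent.MP4d28ec.Suff
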