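import Pool.Agent.Lib.MP_4d28ec_Lift.R6
import Pool.Agent.Lib.MP_4d28ec_Lift.R11

/-!
Completeness of the test A.
-/

open Finset

namespace Pool.Agent.MP4d28ec.Suff

open Pool.Agent.H44IT Pool.Agent.MP4d28ec

theorem A_complete {n m k N : ℕ} (hN : 0 < N) (hkm : k ≤ m) (hm : 0 < m) {η : ℝ} (hη : 0 < η)
    {f h : Cube n → Bool} {S : Finset (Fin n)} (hS : S.card ≤ k) (hh : Dep S h)
    (hd : dist f h ≤ η) :
    3 / 4 ≤ Pr (fun w : (Fin n → Fin m) × Equiv.Perm (Fin n) × (Fin N → Cube n) =>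
      AOk k N (8 * η) f w) := by
  classical
  have : Nonempty (Fin m) := ⟨⟨0, hm⟩⟩
  rw [Pr_prod]
  apply le_Ex_of_le
  intro c
  obtain ⟨κ, hκ1, hκ2⟩ := Finset.exists_superset_card_eq (s := S.image c) (n := k)
    (Finset.card_image_le.trans hS) (by simpa using hkm)
  have hcell : ∀ i ∈ S, i ∈ cell c κ := fun i hi =>
    Finset.mem_filter.2 ⟨Finset.mem_univ _, hκ1 (Finset.mem_image_of_mem c hi)⟩
  have hfix : ∀ (θ : Equiv.Perm (Fin n)) (x : Cube n), h (fill (cell c κ) θ x) = h x := fun θ x =>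
    hh _ _ (fun i hi => fill_mem (hcell i hi)) (wt_fill _ _ _)
  have h1 : Pr (fun p : Equiv.Perm (Fin n) × Cube n => f p.2 ≠ f (fill (cell c κ) p.1 p.2)) ≤
      2 * η := by
    have h2 : Pr (fun p : Equiv.Perm (Fin n) × Cube n => f p.2 ≠ h p.2) = dist f h := by
      rw [dist_eq_Pr]
      exact Pr_snd (fun x : Cube n => f x ≠ h x)
    have h3 : Pr (fun p : Equiv.Perm (Fin n) × Cube n =>
        f (fill (cell c κ) p.1 p.2) ≠ h (fill (cell c κ) p.1 p.2)) = dist f h := by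
      rw [dist_eq_Pr, Pr_def, Pr_def]
      exact Ex_fill (cell c κ) (fun x => if f x ≠ h x then (1 : ℝ) else 0)
    refine (Pr_le_add (q := fun p : Equiv.Perm (Fin n) × Cube n => f p.2 ≠ h p.2)
      (r := fun p : Equiv.Perm (Fin n) × Cube n =>
        f (fill (cell c κ) p.1 p.2) ≠ h (fill (cell c κ) p.1 p.2)) ?_).trans ?_
    · intro p hp
      by_contra hcon
      push Not at hcon
      exact hp (by rw [hcon.1, hcon.2, hfix])
    · rw [h2, h3]
      linarith
  have h4 := markov_count (fun (θ : Equiv.Perm (Fin n)) (x : Cube n) =>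
    f x ≠ f (fill (cell c κ) θ x)) N hN (2 * η) (8 * η) (by positivity) h1
  have h5 : 2 * η / (8 * η) = 1 / 4 := by
    field_simp
    norm_num
  rw [h5] at h4
  have h6 : 3 / 4 ≤ Pr (fun p : Equiv.Perm (Fin n) × (Fin N → Cube n) =>
      ¬ (8 * η * N < ((Finset.univ.filter fun j =>
        f (p.2 j) ≠ f (fill (cell c κ) p.1 (p.2 j))).card : ℝ))) := by
    rw [Pr_not]
    linarith
  refine h6.trans (Pr_mono ?_)
  intro p hp
  exact ⟨κ, hκ2, not_lt.1 hp⟩

end Pool.Agent.MP4d28ec.Suff
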