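import Pool.Agent.Lib.MP_4d28ec_Lift.R6
import Pool.Agent.Lib.MP_4d28ec_Lift.R11

/-!
Soundness of the test A, first part.
-/

open Finset

namespace Pool.Agent.MP4d28ec.Suff

open Pool.Agent.H44IT Pool.Agent.MP4d28ec

theorem A_sound1 {n m k N : ℕ} (hN : 0 < N) (hm : 0 < m) {η : ℝ} (hη : 0 < η)
    (hNB : (2 : ℝ) ^ m / (N * η ^ 2) ≤ 1 / 24) {f : Cube n → Bool}
    (hA : 1 / 3 ≤ Pr (fun w : (Fin n → Fin m) × Equiv.Perm (Fin n) × (Fin N → Cube n) =>
      AOk k N (8 * η) f w)) :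
    1 / 4 ≤ Pr (fun c : Fin n → Fin m => ∃ κ : Finset (Fin m), κ.card = k ∧
      PSon (cell c κ) (9 * η) f) := by
  classical
  by_contra hlt
  rw [not_le] at hlt
  have : Nonempty (Fin m) := ⟨⟨0, hm⟩⟩
  set Good : (Fin n → Fin m) → Prop := fun c => ∃ κ : Finset (Fin m), κ.card = k ∧
    PSon (cell c κ) (9 * η) f with hGood
  have h1 : Pr (fun w : (Fin n → Fin m) × Equiv.Perm (Fin n) × (Fin N → Cube n) =>
      AOk k N (8 * η) f w) ≤
      Pr (fun w : (Fin n → Fin m) × Equiv.Perm (Fin n) × (Fin N → Cube n) => Good w.1) +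
      Pr (fun w : (Fin n → Fin m) × Equiv.Perm (Fin n) × (Fin N → Cube n) =>
        ¬ Good w.1 ∧ AOk k N (8 * η) f w) := by
    refine Pr_le_add fun w hw => ?_
    by_cases hg : Good w.1
    · exact Or.inl hg
    · exact Or.inr ⟨hg, hw⟩
  have h2 : Pr (fun w : (Fin n → Fin m) × Equiv.Perm (Fin n) × (Fin N → Cube n) => Good w.1)
      = Pr Good := by
    rw [Pr_def, Pr_def]
    exact Ex_fst (fun c => if Good c then (1 : ℝ) else 0)
  have h3 : Pr (fun w : (Fin n → Fin m) × Equiv.Perm (Fin n) × (Fin N → Cube n) =>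
      ¬ Good w.1 ∧ AOk k N (8 * η) f w) ≤ 1 / 24 := by
    rw [Pr_prod]
    refine Ex_le_of_le fun c => ?_
    by_cases hg : Good c
    · rw [Pr_false (fun b hb => hb.1 hg)]
      norm_num
    · rw [Pr_prod]
      refine Ex_le_of_le fun θ => ?_
      have h4 := union_chebyshev (α := Cube n) (ι := Finset (Fin m))
        (fun κ x => f x ≠ f (fill (cell c κ) θ x)) N hN (8 * η) (9 * η) (by linarith) (2 ^ m)
        (by rw [Fintype.card_finset, Fintype.card_fin]; push_cast; rfl)
        (by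
          have h5 : 9 * η - 8 * η = η := by ring
          rw [h5]
          exact hNB)
      refine (Pr_mono fun s hs => ?_).trans h4
      obtain ⟨-, κ, hκ, hc⟩ := hs
      refine ⟨κ, hc, ?_⟩
      by_contra hle
      rw [not_lt] at hle
      refine hg ⟨κ, hκ, fun x => f (fill (cell c κ) θ x), ?_, ?_⟩
      · intro x y hxy hw
        exact congrArg f (fill_congr hxy hw)
      · rw [dist_eq_Pr]
        exact hle
  rw [h2] at h1
  linarith

end Pool.Agent.MP4d28ec.Suff
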