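import Pool.Agent.Lib.MP_4d28ec_Lift.S0

/-! Smoothness of the binomial law. -/

open Finset

namespace Pool.Agent.MP4d28ec.Suff

open Pool.Agent.H44IT Pool.Agent.MP4d28ec

private noncomputable def sg3 (b : Bool) : ℝ := if b = true then 1 else -1

private lemma sum_sg_zero (r : ℕ) (φ : ℕ → ℝ) :
    ∑ x : Cube (r + 1), φ (wt x) * sg3 (x 0) =
      ∑ v : Cube r, φ (wt v + 1) - ∑ v : Cube r, φ (wt v) := by
  rw [sum_cube_succ, sub_eq_add_neg, ← Finset.sum_neg_distrib]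
  congr 1
  · refine Finset.sum_congr rfl fun v _ => ?_
    rw [wt_cons, Fin.cons_zero, sg3, if_pos rfl, if_pos rfl, mul_one, add_comm]
  · refine Finset.sum_congr rfl fun v _ => ?_
    rw [wt_cons, Fin.cons_zero, sg3]
    simp

private lemma sum_sg_eq (r : ℕ) (φ : ℕ → ℝ) (i : Fin (r + 1)) :
    ∑ x : Cube (r + 1), φ (wt x) * sg3 (x i) = ∑ x : Cube (r + 1), φ (wt x) * sg3 (x 0) := by
  rw [← (cubePerm (Equiv.swap 0 i)).sum_comp]
  refine Finset.sum_congr rfl fun x _ => ?_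
  have e1 : wt (cubePerm (Equiv.swap 0 i) x) = wt x := wt_perm x _
  have e2 : cubePerm (Equiv.swap 0 i) x i = x 0 := by
    change x (Equiv.swap 0 i i) = x 0
    rw [Equiv.swap_apply_right]
  rw [e1, e2]

private lemma sum_sg_all (r : ℕ) (x : Cube (r + 1)) :
    ∑ i, sg3 (x i) = 2 * ((wt x : ℝ) - ((r + 1 : ℕ) : ℝ) / 2) := by
  have h : ∀ i, sg3 (x i) = 2 * (if x i = true then (1 : ℝ) else 0) - 1 := by
    intro i
    rw [sg3]
    split_ifs <;> norm_num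
  simp only [h]
  rw [Finset.sum_sub_distrib, ← Finset.mul_sum, wt_eq_sum]
  push_cast
  simp
  ring

private lemma key3 (r : ℕ) (φ : ℕ → ℝ) :
    ((r : ℝ) + 1) * (∑ v : Cube r, φ (wt v + 1) - ∑ v : Cube r, φ (wt v)) =
      ∑ x : Cube (r + 1), φ (wt x) * (2 * ((wt x : ℝ) - ((r + 1 : ℕ) : ℝ) / 2)) := by
  rw [← sum_sg_zero]
  have h1 : ∑ i : Fin (r + 1), ∑ x : Cube (r + 1), φ (wt x) * sg3 (x i) =
      ((r : ℝ) + 1) * ∑ x : Cube (r + 1), φ (wt x) * sg3 (x 0) := by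
    rw [Finset.sum_congr rfl (fun i _ => sum_sg_eq r φ i), Finset.sum_const, nsmul_eq_mul]
    simp
  rw [← h1, Finset.sum_comm]
  refine Finset.sum_congr rfl fun x _ => ?_
  rw [← Finset.mul_sum, sum_sg_all]

theorem step_wt (r : ℕ) (ψ : ℕ → ℝ) (h0 : ∀ j, 0 ≤ ψ j) (h1 : ∀ j, ψ j ≤ 1) :
    |Ex (fun v : Cube r => ψ (wt v + 1)) - Ex (fun v : Cube r => ψ (wt v))| ≤
      1 / Real.sqrt (r + 1) := by
  have hk := key3 r (fun j => ψ j - 1 / 2)
  have hs : (0 : ℝ) < Real.sqrt (r + 1) := Real.sqrt_pos.2 (by positivity)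
  have h2 : |∑ x : Cube (r + 1), (ψ (wt x) - 1 / 2) *
      (2 * ((wt x : ℝ) - ((r + 1 : ℕ) : ℝ) / 2))| ≤
      ∑ x : Cube (r + 1), |(wt x : ℝ) - ((r + 1 : ℕ) : ℝ) / 2| := by
    refine (Finset.abs_sum_le_sum_abs _ _).trans (Finset.sum_le_sum fun x _ => ?_)
    rw [abs_mul, abs_mul, abs_two]
    have h3 : |ψ (wt x) - 1 / 2| ≤ 1 / 2 := by
      rw [abs_le]
      constructor
      · linarith [h0 (wt x)]
      · linarith [h1 (wt x)]
    nlinarith [abs_nonneg ((wt x : ℝ) - ((r + 1 : ℕ) : ℝ) / 2)]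
  have h3 := first_moment (r + 1)
  have h4 : ∑ v : Cube r, (ψ (wt v + 1) - 1 / 2) - ∑ v : Cube r, (ψ (wt v) - 1 / 2) =
      ∑ v : Cube r, ψ (wt v + 1) - ∑ v : Cube r, ψ (wt v) := by
    rw [Finset.sum_sub_distrib, Finset.sum_sub_distrib]
    ring
  rw [h4] at hk
  have h5 : ((r : ℝ) + 1) * |∑ v : Cube r, ψ (wt v + 1) - ∑ v : Cube r, ψ (wt v)| ≤
      2 ^ (r + 1) * (Real.sqrt ((r + 1 : ℕ) : ℝ) / 2) := by
    have h6 : |((r : ℝ) + 1) * (∑ v : Cube r, ψ (wt v + 1) - ∑ v : Cube r, ψ (wt v))| =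
        ((r : ℝ) + 1) * |∑ v : Cube r, ψ (wt v + 1) - ∑ v : Cube r, ψ (wt v)| := by
      rw [abs_mul, abs_of_pos (by positivity : (0 : ℝ) < (r : ℝ) + 1)]
    rw [← h6, hk]
    exact h2.trans h3
  have h7 : Ex (fun v : Cube r => ψ (wt v + 1)) - Ex (fun v : Cube r => ψ (wt v)) =
      (∑ v : Cube r, ψ (wt v + 1) - ∑ v : Cube r, ψ (wt v)) / 2 ^ r := by
    unfold Ex
    rw [card_cube]
    ring
  rw [h7, abs_div, abs_of_pos (by positivity : (0 : ℝ) < (2 : ℝ) ^ r),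
    div_le_div_iff₀ (by positivity) hs, one_mul]
  have h8 : Real.sqrt ((r + 1 : ℕ) : ℝ) = Real.sqrt ((r : ℝ) + 1) := by push_cast; rfl
  rw [h8] at h5
  have h9 : Real.sqrt ((r : ℝ) + 1) * Real.sqrt ((r : ℝ) + 1) = (r : ℝ) + 1 :=
    Real.mul_self_sqrt (by positivity)
  set X := |∑ v : Cube r, ψ (wt v + 1) - ∑ v : Cube r, ψ (wt v)| with hX
  set q := Real.sqrt ((r : ℝ) + 1) with hq
  have h10 : q * (X * q) ≤ q * 2 ^ r := by
    calc q * (X * q) = (q * q) * X := by ring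
      _ = ((r : ℝ) + 1) * X := by rw [h9]
      _ ≤ 2 ^ (r + 1) * (q / 2) := h5
      _ = q * 2 ^ r := by ring
  exact le_of_mul_le_mul_left h10 hs

private lemma shift_aux (r : ℕ) (ψ : ℕ → ℝ) (h0 : ∀ j, 0 ≤ ψ j) (h1 : ∀ j, ψ j ≤ 1) (d k : ℕ) :
    |Ex (fun v : Cube r => ψ (wt v + (d + k))) - Ex (fun v : Cube r => ψ (wt v + d))| ≤
      (k : ℝ) * (1 / Real.sqrt (r + 1)) := by
  induction k with
  | zero => simp
  | succ k ih =>
    have h2 := step_wt r (fun j => ψ (j + (d + k))) (fun j => h0 _) (fun j => h1 _)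
    have h3 : Ex (fun v : Cube r => ψ (wt v + 1 + (d + k))) =
        Ex (fun v : Cube r => ψ (wt v + (d + (k + 1)))) := by
      apply Ex_congr
      intro v
      congr 1
      ring
    rw [h3] at h2
    have h4 := abs_sub_le (Ex (fun v : Cube r => ψ (wt v + (d + (k + 1)))))
      (Ex (fun v : Cube r => ψ (wt v + (d + k)))) (Ex (fun v : Cube r => ψ (wt v + d)))
    push_cast
    linarith

theorem shift_wt (r : ℕ) (ψ : ℕ → ℝ) (h0 : ∀ j, 0 ≤ ψ j) (h1 : ∀ j, ψ j ≤ 1) (d e : ℕ) :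
    |Ex (fun v : Cube r => ψ (wt v + d)) - Ex (fun v : Cube r => ψ (wt v + e))| ≤
      |(d : ℝ) - e| / Real.sqrt (r + 1) := by
  rcases le_total d e with h | h
  · obtain ⟨k, rfl⟩ := Nat.exists_eq_add_of_le h
    have h2 := shift_aux r ψ h0 h1 d k
    rw [abs_sub_comm] at h2
    refine h2.trans (le_of_eq ?_)
    rw [abs_of_nonpos (by push_cast; linarith [(Nat.cast_nonneg k : (0 : ℝ) ≤ k)])]
    push_cast
    ring
  · obtain ⟨k, rfl⟩ := Nat.exists_eq_add_of_le h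
    have h2 := shift_aux r ψ h0 h1 e k
    refine h2.trans (le_of_eq ?_)
    rw [abs_of_nonneg (by push_cast; linarith [(Nat.cast_nonneg k : (0 : ℝ) ≤ k)])]
    push_cast
    ring

end Pool.Agent.MP4d28ec.Suff
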