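import Pool.Agent.Lib.MP_4d28ec_Lift.S0

/-!
R4: the number of ones of a random point on a set of coordinates; mixing of two random points.
-/

open Finset

namespace Pool.Agent.MP4d28ec.Suff

open Pool.Agent.H44IT Pool.Agent.MP4d28ec

private lemma cnt_eq_subtype {n : ℕ} (A : Finset (Fin n)) (v : Cube n) :
    cnt A v = (Finset.univ.filter fun i : {b : Fin n // b ∈ A} => v i = true).card := by
  classical
  unfold cnt
  symm
  refine Finset.card_bij (fun i _ => (i : Fin n)) ?_ ?_ ?_
  · intro i hi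
    simp only [mem_filter, mem_univ, true_and] at hi
    exact mem_filter.2 ⟨i.2, hi⟩
  · intro i _ j _ hij
    exact Subtype.ext hij
  · intro b hb
    rw [mem_filter] at hb
    exact ⟨⟨b, hb.1⟩, by simp [hb.2], rfl⟩

theorem Ex_cnt {n : ℕ} (A : Finset (Fin n)) (ψ : ℕ → ℝ) :
    Ex (fun v : Cube n => ψ (cnt A v)) = Ex (fun v : Cube A.card => ψ (wt v)) := by
  classical
  have hA : Fintype.card {b : Fin n // b ∈ A} = A.card := Fintype.card_coe A
  let eA : {b : Fin n // b ∈ A} ≃ Fin A.card := Fintype.equivFinOfCardEq hA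
  let G : ({b : Fin n // b ∈ A} → Bool) → ℝ := fun z =>
    ψ (Finset.univ.filter fun i => z i = true).card
  have h1 : Ex (fun v : Cube n => ψ (cnt A v)) = Ex (fun v : Cube n =>
      (fun p : ({b : Fin n // b ∈ A} → Bool) × ({b : Fin n // b ∉ A} → Bool) => G p.1)
        (Equiv.piEquivPiSubtypeProd (fun b : Fin n => b ∈ A) (fun _ => Bool) v)) := by
    apply Ex_congr
    intro v
    rw [cnt_eq_subtype]
    rfl
  rw [h1, Ex_equiv (Equiv.piEquivPiSubtypeProd (fun b : Fin n => b ∈ A) (fun _ => Bool))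
    (fun p : ({b : Fin n // b ∈ A} → Bool) × ({b : Fin n // b ∉ A} → Bool) => G p.1),
    Ex_fst]
  rw [← Ex_equiv (Equiv.arrowCongr eA (Equiv.refl Bool)) (fun v : Cube A.card => ψ (wt v))]
  apply Ex_congr
  intro z
  show ψ _ = ψ _
  congr 1
  unfold wt
  refine Finset.card_bij (fun i _ => eA i) ?_ ?_ ?_
  · intro i hi
    simpa [Equiv.arrowCongr] using hi
  · intro i _ j _ hij
    exact eA.injective hij
  · intro b hb
    refine ⟨eA.symm b, ?_, eA.apply_symm_apply b⟩
    simpa [Equiv.arrowCongr] using hb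

private lemma mx_mx_left {n : ℕ} (A : Finset (Fin n)) (x y : Cube n) :
    mx A (mx A x y) (mx A y x) = x := by
  funext i
  unfold mx
  split_ifs <;> rfl

theorem Ex_mx {n : ℕ} (A : Finset (Fin n)) (F : Cube n → ℝ) :
    Ex (fun p : Cube n × Cube n => F (mx A p.1 p.2)) = Ex F := by
  let e : Cube n × Cube n ≃ Cube n × Cube n :=
    { toFun := fun p => (mx A p.1 p.2, mx A p.2 p.1)
      invFun := fun p => (mx A p.1 p.2, mx A p.2 p.1)
      left_inv := fun p => Prod.ext (mx_mx_left A p.1 p.2) (mx_mx_left A p.2 p.1)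
      right_inv := fun p => Prod.ext (mx_mx_left A p.1 p.2) (mx_mx_left A p.2 p.1) }
  have h1 : Ex (fun p : Cube n × Cube n => F (mx A p.1 p.2)) =
      Ex (fun p : Cube n × Cube n => (fun q : Cube n × Cube n => F q.1) (e p)) := rfl
  rw [h1, Ex_equiv e (fun q : Cube n × Cube n => F q.1), Ex_fst]

theorem cnt_add {n : ℕ} (A : Finset (Fin n)) (x : Cube n) : cnt A x + cnt Aᶜ x = wt x := by
  classical
  unfold cnt wt
  rw [← Finset.card_union_of_disjoint, ← Finset.filter_union, Finset.union_compl]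
  exact Finset.disjoint_filter_filter disjoint_compl_right

theorem Ex_cnt_dev {n : ℕ} (A : Finset (Fin n)) :
    Ex (fun p : Cube n × Cube n => |(cnt A p.1 : ℝ) - cnt A p.2|) ≤ Real.sqrt A.card := by
  have h0 : Ex (fun v : Cube n => |(cnt A v : ℝ) - (A.card : ℝ) / 2|) ≤
      Real.sqrt A.card / 2 := by
    rw [Ex_cnt A (fun m => |(m : ℝ) - (A.card : ℝ) / 2|)]
    have h := first_moment A.card
    unfold Ex
    rw [div_le_iff₀ (by simp)]
    refine h.trans (le_of_eq ?_)
    simp only [Fintype.card_pi, Fintype.card_bool, prod_const, card_univ, Fintype.card_fin]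
    push_cast
    ring
  calc Ex (fun p : Cube n × Cube n => |(cnt A p.1 : ℝ) - cnt A p.2|)
      ≤ Ex (fun p : Cube n × Cube n => |(cnt A p.1 : ℝ) - (A.card : ℝ) / 2| +
          |(cnt A p.2 : ℝ) - (A.card : ℝ) / 2|) := by
        apply Ex_mono
        intro p
        rw [abs_sub_comm (cnt A p.2 : ℝ)]
        exact abs_sub_le _ _ _
    _ = Ex (fun v : Cube n => |(cnt A v : ℝ) - (A.card : ℝ) / 2|) +
          Ex (fun v : Cube n => |(cnt A v : ℝ) - (A.card : ℝ) / 2|) := by
        rw [Ex_add, Ex_fst (fun v : Cube n => |(cnt A v : ℝ) - (A.card : ℝ) / 2|),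
          Ex_snd (fun v : Cube n => |(cnt A v : ℝ) - (A.card : ℝ) / 2|)]
    _ ≤ Real.sqrt A.card / 2 + Real.sqrt A.card / 2 := add_le_add h0 h0
    _ = Real.sqrt A.card := by ring

end Pool.Agent.MP4d28ec.Suff
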