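import Pool.Agent.Lib.MP_4d28ec_Lift.R1
import Pool.Agent.Lib.MP_4d28ec_Lift.R3
import Pool.Agent.Lib.MP_4d28ec_Lift.R4

/-!
Row R5: if a function is close to a function of the weight and of the coordinates in `S`, and the same
for `T`, then also for `S ∩ T`.
-/

open Finset

namespace Pool.Agent.MP4d28ec.Suff

open Pool.Agent.H44IT Pool.Agent.MP4d28ec

open Classical in
/-- a choice of a point with the property `P` -/
private noncomputable def aux5 {n : ℕ} (h : Cube n → Bool) (P : Cube n → Prop) : Bool :=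
  if hx : ∃ x : Cube n, P x then h hx.choose else false

/-- the value of `h` at a point of weight `a` which agrees with `p` on `S` -/
private noncomputable def ht {n : ℕ} (S : Finset (Fin n)) (h : Cube n → Bool) (p : Cube n) (a : ℕ) :
    Bool :=
  aux5 h fun x => (∀ i ∈ S, x i = p i) ∧ wt x = a

private lemma ht_eq {n : ℕ} {S : Finset (Fin n)} {h : Cube n → Bool} (hh : Dep S h)
    {p x : Cube n} (hp : ∀ i ∈ S, x i = p i) : ht S h p (wt x) = h x := by
  have hex : ∃ y : Cube n, (∀ i ∈ S, y i = p i) ∧ wt y = wt x := ⟨x, hp, rfl⟩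
  unfold ht aux5
  rw [dif_pos hex]
  obtain ⟨h1, h2⟩ := hex.choose_spec
  exact hh _ _ (fun i hi => (h1 i hi).trans (hp i hi).symm) h2

private lemma ht_congr {n : ℕ} {S : Finset (Fin n)} {h : Cube n → Bool} {p q : Cube n}
    (hpq : ∀ i ∈ S, p i = q i) (a : ℕ) : ht S h p a = ht S h q a := by
  unfold ht
  congr 1
  funext x
  refine propext ⟨fun hx => ⟨fun i hi => (hx.1 i hi).trans (hpq i hi), hx.2⟩,
    fun hx => ⟨fun i hi => (hx.1 i hi).trans (hpq i hi).symm, hx.2⟩⟩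

private lemma cnt_congr {n : ℕ} {A : Finset (Fin n)} {x y : Cube n} (h : ∀ i ∈ A, x i = y i) :
    cnt A x = cnt A y := by
  unfold cnt
  congr 1
  refine Finset.filter_congr fun i hi => ?_
  rw [h i hi]

private lemma mx_mem {n : ℕ} {A : Finset (Fin n)} {x y : Cube n} {i : Fin n} (hi : i ∈ A) :
    mx A x y i = x i := by
  unfold mx
  rw [if_pos hi]

private lemma mx_notMem {n : ℕ} {A : Finset (Fin n)} {x y : Cube n} {i : Fin n} (hi : i ∉ A) :
    mx A x y i = y i := by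
  unfold mx
  rw [if_neg hi]

private lemma wt_mx {n : ℕ} (A : Finset (Fin n)) (x y : Cube n) :
    wt (mx A x y) = cnt A x + cnt Aᶜ y := by
  rw [← cnt_add A (mx A x y)]
  congr 1
  · exact cnt_congr fun i hi => mx_mem hi
  · exact cnt_congr fun i hi => mx_notMem (Finset.mem_compl.1 hi)

private lemma cnt_sdiff {n : ℕ} {A B : Finset (Fin n)} (h : A ⊆ B) (x : Cube n) :
    cnt B x = cnt A x + cnt (B \ A) x := by
  unfold cnt
  rw [← Finset.card_union_of_disjoint]
  · rw [← Finset.filter_union, Finset.union_sdiff_of_subset h]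
  · exact Finset.disjoint_filter_filter Finset.disjoint_sdiff

/-- the shift of the weight on the free coordinates -/
private lemma shift5 {n : ℕ} (W : Finset (Fin n)) (ψ : ℕ → ℝ) (h0 : ∀ j, 0 ≤ ψ j)
    (h1 : ∀ j, ψ j ≤ 1) (d e : ℕ) :
    Ex (fun v : Cube n => ψ (d + cnt Wᶜ v)) ≤ Ex (fun v : Cube n => ψ (e + cnt Wᶜ v)) +
      |(d : ℝ) - e| / Real.sqrt ((Wᶜ.card : ℝ) + 1) := by
  have h2 : ∀ d : ℕ, Ex (fun v : Cube n => ψ (d + cnt Wᶜ v)) =
      Ex (fun v : Cube Wᶜ.card => ψ (wt v + d)) := by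
    intro d
    rw [← Ex_cnt Wᶜ (fun j => ψ (j + d))]
    exact Ex_congr fun v => by rw [add_comm]
  rw [h2, h2]
  have h3 := shift_wt Wᶜ.card ψ h0 h1 d e
  have h4 := le_abs_self (Ex (fun v : Cube Wᶜ.card => ψ (wt v + d)) -
    Ex (fun v : Cube Wᶜ.card => ψ (wt v + e)))
  linarith

theorem inter_ps {n : ℕ} (S T : Finset (Fin n)) (η γ : ℝ) (f : Cube n → Bool)
    (hS : PSon S η f) (hT : PSon T η f) (hγ0 : 0 < γ) (hγ : γ ≤ 1 / 4)
    (hSc : (S.card : ℝ) ≤ γ * n) (hTc : (T.card : ℝ) ≤ γ * n) :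
    PSon (S ∩ T) (5 * η + 2 * Real.sqrt γ) f := by
  classical
  obtain ⟨h₁, hd₁, hf₁⟩ := hS
  obtain ⟨h₂, hd₂, hf₂⟩ := hT
  set W : Finset (Fin n) := S ∪ T with hW
  have hSW : S ⊆ W := Finset.subset_union_left
  have hTW : T ⊆ W := Finset.subset_union_right
  have hD : dist h₁ h₂ ≤ 2 * η := by
    have h1 := dist_triangle h₁ f h₂
    rw [dist_comm h₁ f] at h1
    linarith
  have hDE : ∀ g₁ g₂ : Cube n → Bool, dist g₁ g₂ =
      Ex (fun x => if g₁ x ≠ g₂ x then (1 : ℝ) else 0) := by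
    intro g₁ g₂
    rw [dist_eq_Pr, Pr_def]
  let Φ : Cube n → ℕ → ℝ := fun p a => if ht S h₁ p a ≠ ht T h₂ p a then 1 else 0
  have hΦ0 : ∀ p j, 0 ≤ Φ p j := by
    intro p j
    simp only [Φ]
    split_ifs <;> norm_num
  have hΦ1 : ∀ p j, Φ p j ≤ 1 := by
    intro p j
    simp only [Φ]
    split_ifs <;> norm_num
  -- the law of the point
  have hmix : ∀ (A : Finset (Fin n)) (F : Cube n → ℝ),
      Ex (fun x : Cube n => Ex (fun v : Cube n => F (mx A x v))) = Ex F := by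
    intro A F
    rw [← Ex_mx A F, Ex_prod]
  have hE1 : Ex (fun x : Cube n => Ex (fun v : Cube n => Φ x (cnt W x + cnt Wᶜ v))) =
      dist h₁ h₂ := by
    rw [hDE, ← hmix W (fun y => if h₁ y ≠ h₂ y then (1 : ℝ) else 0)]
    refine Ex_congr fun x => Ex_congr fun v => ?_
    simp only [Φ]
    rw [← wt_mx, ht_eq hd₁ (fun i hi => mx_mem (hSW hi)), ht_eq hd₂ (fun i hi => mx_mem (hTW hi))]
  have hE2 : Ex (fun z : Cube n => Ex (fun x : Cube n => Ex (fun v : Cube n =>
      Φ (mx T x z) (cnt W (mx T x z) + cnt Wᶜ v)))) = dist h₁ h₂ := by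
    rw [Ex_comm, ← hE1]
    exact hmix T (fun y => Ex (fun v : Cube n => Φ y (cnt W y + cnt Wᶜ v)))
  -- the change of the weight
  have hcnt : ∀ x z : Cube n, |(cnt W x : ℝ) - cnt W (mx T x z)| =
      |(cnt (W \ T) x : ℝ) - cnt (W \ T) z| := by
    intro x z
    rw [cnt_sdiff hTW x, cnt_sdiff hTW (mx T x z),
      cnt_congr (fun i hi => mx_mem hi : ∀ i ∈ T, mx T x z i = x i),
      cnt_congr (fun i hi => mx_notMem (Finset.mem_sdiff.1 hi).2 :
        ∀ i ∈ W \ T, mx T x z i = z i)]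
    push_cast
    congr 1
    ring
  set ρ : ℝ := Real.sqrt ((Wᶜ.card : ℝ) + 1) with hρ
  have hρ0 : 0 < ρ := Real.sqrt_pos.2 (by positivity)
  have hE3 : Ex (fun z : Cube n => Ex (fun x : Cube n =>
      |(cnt W x : ℝ) - cnt W (mx T x z)| / ρ)) ≤ 2 * Real.sqrt γ := by
    have h1 : Ex (fun z : Cube n => Ex (fun x : Cube n =>
        |(cnt W x : ℝ) - cnt W (mx T x z)| / ρ)) =
        Ex (fun p : Cube n × Cube n => |(cnt (W \ T) p.1 : ℝ) - cnt (W \ T) p.2|) * ρ⁻¹ := by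
      rw [Ex_comm, ← Ex_mul_const, Ex_prod]
      refine Ex_congr fun x => Ex_congr fun z => ?_
      rw [hcnt, div_eq_mul_inv]
    rw [h1, ← div_eq_mul_inv, div_le_iff₀ hρ0]
    refine (Ex_cnt_dev (W \ T)).trans ?_
    have h2 : ((W \ T).card : ℝ) ≤ γ * n := by
      refine le_trans ?_ hSc
      have h3 : W \ T ⊆ S := by
        intro i hi
        rw [Finset.mem_sdiff, hW, Finset.mem_union] at hi
        exact hi.1.resolve_right hi.2
      exact_mod_cast Finset.card_le_card h3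
    have h3 : (W.card : ℝ) ≤ 2 * (γ * n) := by
      have h4 := Finset.card_union_le S T
      have h5 : (W.card : ℝ) ≤ (S.card : ℝ) + T.card := by exact_mod_cast h4
      linarith
    have h4 : (W.card : ℝ) + Wᶜ.card = n := by
      have h5 := Finset.card_add_card_compl W
      rw [Fintype.card_fin] at h5
      exact_mod_cast h5
    have hn0 : (0 : ℝ) ≤ n := Nat.cast_nonneg n
    have h5 : ((W \ T).card : ℝ) ≤ (2 * Real.sqrt γ * ρ) ^ 2 := by
      rw [mul_pow, mul_pow, Real.sq_sqrt hγ0.le, hρ, Real.sq_sqrt (by positivity)]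
      have h6 : (n : ℝ) / 2 ≤ (Wᶜ.card : ℝ) + 1 := by nlinarith
      nlinarith
    calc Real.sqrt ((W \ T).card : ℝ) ≤ Real.sqrt ((2 * Real.sqrt γ * ρ) ^ 2) :=
          Real.sqrt_le_sqrt h5
      _ = 2 * Real.sqrt γ * ρ := Real.sqrt_sq (by positivity)
  -- the total
  have hE4 : Ex (fun z : Cube n => Ex (fun x : Cube n => Ex (fun v : Cube n =>
      if ht S h₁ x (cnt W x + cnt Wᶜ v) ≠ ht S h₁ (mx T x z) (cnt W x + cnt Wᶜ v)
        then (1 : ℝ) else 0))) ≤ 4 * η + 2 * Real.sqrt γ := by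
    have h1 : ∀ z x : Cube n, Ex (fun v : Cube n =>
        if ht S h₁ x (cnt W x + cnt Wᶜ v) ≠ ht S h₁ (mx T x z) (cnt W x + cnt Wᶜ v)
          then (1 : ℝ) else 0) ≤ Ex (fun v : Cube n => Φ x (cnt W x + cnt Wᶜ v)) +
          (Ex (fun v : Cube n => Φ (mx T x z) (cnt W (mx T x z) + cnt Wᶜ v)) +
            |(cnt W x : ℝ) - cnt W (mx T x z)| / ρ) := by
      intro z x
      have h2 := shift5 W (Φ (mx T x z)) (hΦ0 _) (hΦ1 _) (cnt W x) (cnt W (mx T x z))
      have h3 : Ex (fun v : Cube n =>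
          if ht S h₁ x (cnt W x + cnt Wᶜ v) ≠ ht S h₁ (mx T x z) (cnt W x + cnt Wᶜ v)
            then (1 : ℝ) else 0) ≤ Ex (fun v : Cube n => Φ x (cnt W x + cnt Wᶜ v) +
              Φ (mx T x z) (cnt W x + cnt Wᶜ v)) := by
        refine Ex_mono fun v => ?_
        simp only [Φ]
        have h4 : ht T h₂ (mx T x z) (cnt W x + cnt Wᶜ v) =
            ht T h₂ x (cnt W x + cnt Wᶜ v) := ht_congr (fun i hi => mx_mem hi) _
        rw [h4]
        by_cases h5 : ht S h₁ x (cnt W x + cnt Wᶜ v) = ht T h₂ x (cnt W x + cnt Wᶜ v)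
        · rw [h5]
          by_cases h6 : ht T h₂ x (cnt W x + cnt Wᶜ v) =
              ht S h₁ (mx T x z) (cnt W x + cnt Wᶜ v)
          · rw [← h6]
            simp
          · rw [if_pos h6, if_pos (Ne.symm h6)]
            simp
        · rw [if_pos h5]
          split_ifs <;> norm_num
      rw [Ex_add] at h3
      linarith
    refine (Ex_mono fun z => Ex_mono fun x => h1 z x).trans ?_
    simp only [Ex_add]
    rw [hE2, Ex_const, hE1]
    linarith
  obtain ⟨z, hz⟩ := exists_le_Ex (fun z : Cube n => Ex (fun x : Cube n => Ex (fun v : Cube n =>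
      if ht S h₁ x (cnt W x + cnt Wᶜ v) ≠ ht S h₁ (mx T x z) (cnt W x + cnt Wᶜ v)
        then (1 : ℝ) else 0)))
  refine ⟨fun y => ht S h₁ (mx T y z) (wt y), ?_, ?_⟩
  · intro x y hxy hwt
    show ht S h₁ (mx T x z) (wt x) = ht S h₁ (mx T y z) (wt y)
    rw [hwt]
    refine ht_congr (fun i hi => ?_) _
    by_cases hT' : i ∈ T
    · rw [mx_mem hT', mx_mem hT']
      exact hxy i (Finset.mem_inter.2 ⟨hi, hT'⟩)
    · rw [mx_notMem hT', mx_notMem hT']
  · have h1 := dist_triangle f h₁ (fun y => ht S h₁ (mx T y z) (wt y))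
    have h2 : dist h₁ (fun y => ht S h₁ (mx T y z) (wt y)) =
        Ex (fun x : Cube n => Ex (fun v : Cube n =>
          if ht S h₁ x (cnt W x + cnt Wᶜ v) ≠ ht S h₁ (mx T x z) (cnt W x + cnt Wᶜ v)
            then (1 : ℝ) else 0)) := by
      rw [hDE, ← hmix W (fun y => if h₁ y ≠ ht S h₁ (mx T y z) (wt y) then (1 : ℝ) else 0)]
      refine Ex_congr fun x => Ex_congr fun v => ?_
      have h3 : ht S h₁ x (wt (mx W x v)) = h₁ (mx W x v) :=
        ht_eq hd₁ (fun i hi => mx_mem (hSW hi))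
      have h4 : ht S h₁ (mx T (mx W x v) z) (wt (mx W x v)) =
          ht S h₁ (mx T x z) (wt (mx W x v)) := by
        refine ht_congr (fun i hi => ?_) _
        by_cases hT' : i ∈ T
        · rw [mx_mem hT', mx_mem hT', mx_mem (hTW hT')]
        · rw [mx_notMem hT', mx_notMem hT']
      rw [h4, ← h3, wt_mx]
    rw [h2] at h1
    linarith

end Pool.Agent.MP4d28ec.Suff
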