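import Pool.Agent.Lib.MP_4d28ec_Lift.S0

/-!
Row R9: the sizes of the cells.
-/

open Finset

namespace Pool.Agent.MP4d28ec.Suff

open Pool.Agent.H44IT Pool.Agent.MP4d28ec

/-- One cell is large with probability at most `m / n`. -/
lemma Pr_one_big {n m : ℕ} (hn : 0 < n) (hm : 0 < m) (j : Fin m) :
    Pr (fun c : Fin n → Fin m => 2 * (n : ℝ) / m <
      ((Finset.univ.filter fun i => c i = j).card : ℝ)) ≤ (m : ℝ) / n := by
  classical
  have hmR : (0 : ℝ) < m := by exact_mod_cast hm
  have hnR : (0 : ℝ) < n := by exact_mod_cast hn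
  have : Nonempty (Fin m) := ⟨j⟩
  set P : ℝ := 1 / m with hP
  have hPj : Pr (fun i : Fin m => i = j) = P := by
    have h1 : (Finset.univ.filter fun i : Fin m => i = j) = {j} := by
      ext i
      simp
    rw [Pr_eq_card, h1, Finset.card_singleton, Fintype.card_fin, hP, Nat.cast_one]
  set y : Fin m → ℝ := fun i => (if i = j then (1 : ℝ) else 0) - P with hy
  have hy0 : Ex y = 0 := by
    rw [hy, Ex_sub, Ex_const, ← Pr_def, hPj]
    ring
  have hy2 : Ex (fun i => y i ^ 2) ≤ P := by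
    have h1 : ∀ i, y i ^ 2 = (1 - 2 * P) * (if i = j then (1 : ℝ) else 0) + P ^ 2 := by
      intro i
      simp only [hy]
      split_ifs <;> ring
    rw [Ex_congr h1, Ex_add, Ex_const_mul, ← Pr_def, Ex_const, hPj]
    nlinarith [sq_nonneg P]
  have hsum : ∀ s : Fin n → Fin m,
      ((Finset.univ.filter fun i => s i = j).card : ℝ) - n * P = ∑ i, y (s i) := by
    intro s
    simp only [hy]
    rw [Finset.sum_sub_distrib, Finset.sum_boole]
    simp
  have hvar := Ex_sum_sq_pi y hy0 n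
  have ht : (0 : ℝ) < (n / m) ^ 2 := by positivity
  refine (Pr_mono (q := fun s : Fin n → Fin m => ((n : ℝ) / m) ^ 2 ≤ (∑ i, y (s i)) ^ 2) ?_).trans ?_
  · intro s hs
    have h1 : (n : ℝ) / m ≤ ∑ i, y (s i) := by
      rw [← hsum, hP]
      have e : 2 * (n : ℝ) / m = n / m + n * (1 / m) := by ring
      rw [e] at hs
      linarith
    exact pow_le_pow_left₀ (by positivity) h1 2
  · refine (Pr_le_le _ (fun s => sq_nonneg _) ht).trans ?_
    rw [hvar, div_le_div_iff₀ ht hnR]
    have h1 : (n : ℝ) * Ex (fun i => y i ^ 2) ≤ n * P := mul_le_mul_of_nonneg_left hy2 hnR.le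
    have h2 : (n : ℝ) * Ex (fun i => y i ^ 2) * n ≤ n * P * n :=
      mul_le_mul_of_nonneg_right h1 hnR.le
    refine h2.trans (le_of_eq ?_)
    rw [hP]
    field_simp

lemma card_cell {n m : ℕ} (c : Fin n → Fin m) (κ : Finset (Fin m)) :
    (cell c κ).card = ∑ j ∈ κ, (Finset.univ.filter fun i => c i = j).card := by
  classical
  unfold cell
  rw [Finset.card_eq_sum_card_fiberwise (f := c) (t := κ) (fun i hi => by simpa using hi)]
  refine Finset.sum_congr rfl fun j hj => ?_
  rw [Finset.filter_filter]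
  congr 1
  ext i
  simp only [mem_filter, mem_univ, true_and]
  constructor
  · rintro ⟨_, h⟩
    exact h
  · intro h
    exact ⟨h ▸ hj, h⟩

lemma Pr_cell_big {n m k : ℕ} (hn : 0 < n) (hm : 0 < m) :
    Pr (fun c : Fin n → Fin m => ∃ κ : Finset (Fin m), κ.card = k ∧
      2 * (k : ℝ) * n / m < ((cell c κ).card : ℝ)) ≤ (m : ℝ) ^ 2 / n := by
  classical
  have h1 : ∀ c : Fin n → Fin m, (∃ κ : Finset (Fin m), κ.card = k ∧
      2 * (k : ℝ) * n / m < ((cell c κ).card : ℝ)) → ∃ j ∈ (Finset.univ : Finset (Fin m)),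
        2 * (n : ℝ) / m < ((Finset.univ.filter fun i => c i = j).card : ℝ) := by
    rintro c ⟨κ, hκ, hbig⟩
    by_contra hcon
    push Not at hcon
    rw [card_cell] at hbig
    push_cast at hbig
    have h2 : ∑ j ∈ κ, ((Finset.univ.filter fun i => c i = j).card : ℝ) ≤
        ∑ _j ∈ κ, (2 * (n : ℝ) / m) :=
      Finset.sum_le_sum fun j _ => hcon j (Finset.mem_univ j)
    rw [Finset.sum_const, hκ, nsmul_eq_mul] at h2
    have e : 2 * (k : ℝ) * n / m = k * (2 * (n : ℝ) / m) := by ring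
    rw [e] at hbig
    exact absurd hbig (not_lt.2 h2)
  refine (Pr_mono h1).trans ((Pr_exists_le _ _).trans ?_)
  refine (Finset.sum_le_sum fun j _ => Pr_one_big hn hm j).trans ?_
  rw [Finset.sum_const, Finset.card_univ, Fintype.card_fin, nsmul_eq_mul]
  refine le_of_eq ?_
  ring

end Pool.Agent.MP4d28ec.Suff
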