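import Pool.Agent.Lib.MP_4d28ec_Lift.R2
import Pool.Agent.Lib.MP_4d28ec_Lift.R5
import Pool.Agent.Lib.MP_4d28ec_Lift.R9

/-! Row R14: soundness of the test A, second part. -/

open Finset

namespace Pool.Agent.MP4d28ec.Suff

open Pool.Agent.H44IT Pool.Agent.MP4d28ec

theorem A_sound2 {n m k : ℕ} (hk : 0 < k) (hm : 2 * k ≤ m) {η : ℝ} (hη : 0 < η)
    (hmk : (Nat.choose m k : ℝ) * ((k : ℝ) / (m - k)) ^ (k + 1) ≤ 1 / 8)
    (hmη : 2 * (k : ℝ) / m ≤ 1 / 4) (hmη' : 2 * Real.sqrt (2 * (k : ℝ) / m) ≤ η)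
    (hn : (m : ℝ) ^ 2 / n < 1 / 8) (hn0 : 0 < n) {f : Cube n → Bool}
    (hc : 1 / 4 ≤ Pr (fun c : Fin n → Fin m => ∃ κ : Finset (Fin m), κ.card = k ∧
      PSon (cell c κ) (9 * η) f)) :
    ∃ S : Finset (Fin n), S.card ≤ k ∧ PSon S (46 * η) f := by
  classical
  have hm0 : 0 < m := by omega
  have hm0' : (0 : ℝ) < m := by exact_mod_cast hm0
  have hk0 : (0 : ℝ) < k := by exact_mod_cast hk
  obtain ⟨γ, hγ⟩ : ∃ γ : ℝ, γ = 2 * (k : ℝ) / m := ⟨_, rfl⟩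
  have hγ0 : 0 < γ := by
    rw [hγ]
    positivity
  by_contra hne
  push Not at hne
  have hinter : ∀ S T : Finset (Fin n), ((S.card : ℝ) ≤ γ * n ∧ PSon S (9 * η) f) →
      ((T.card : ℝ) ≤ γ * n ∧ PSon T (9 * η) f) → k + 1 ≤ (S ∩ T).card := by
    rintro S T ⟨hS1, hS2⟩ ⟨hT1, hT2⟩
    by_contra hlt
    push Not at hlt
    obtain ⟨h, hh, hd⟩ := inter_ps S T (9 * η) γ f hS2 hT2 hγ0 (by rw [hγ]; exact hmη) hS1 hT1
    refine hne (S ∩ T) (by omega) ⟨h, hh, hd.trans ?_⟩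
    rw [hγ]
    linarith
  have hone : ∀ κ ∈ Finset.powersetCard k (Finset.univ : Finset (Fin m)),
      Pr (fun c : Fin n → Fin m => ((cell c κ).card : ℝ) ≤ γ * n ∧ PSon (cell c κ) (9 * η) f) ≤
        ((k : ℝ) / (m - k)) ^ (k + 1) := by
    intro κ hκ
    have hκc : κ.card = k := (Finset.mem_powersetCard.1 hκ).2
    have h1 := inter_bound (n := n) (t := k + 1) κ (by omega) (by omega)
      (fun S => (S.card : ℝ) ≤ γ * n ∧ PSon S (9 * η) f) hinter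
    rw [hκc] at h1
    exact h1
  have hunion : Pr (fun c : Fin n → Fin m =>
      ∃ κ ∈ Finset.powersetCard k (Finset.univ : Finset (Fin m)),
        ((cell c κ).card : ℝ) ≤ γ * n ∧ PSon (cell c κ) (9 * η) f) ≤ 1 / 8 := by
    refine (Pr_exists_le _ _).trans ?_
    refine (Finset.sum_le_sum hone).trans ?_
    rw [Finset.sum_const, Finset.card_powersetCard, Finset.card_univ, Fintype.card_fin,
      nsmul_eq_mul]
    exact hmk
  have hbig := Pr_cell_big (n := n) (m := m) (k := k) hn0 hm0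
  have htot : Pr (fun c : Fin n → Fin m => ∃ κ : Finset (Fin m), κ.card = k ∧
      PSon (cell c κ) (9 * η) f) ≤
      Pr (fun c : Fin n → Fin m =>
        ∃ κ ∈ Finset.powersetCard k (Finset.univ : Finset (Fin m)),
        ((cell c κ).card : ℝ) ≤ γ * n ∧ PSon (cell c κ) (9 * η) f) +
      Pr (fun c : Fin n → Fin m => ∃ κ : Finset (Fin m), κ.card = k ∧
        2 * (k : ℝ) * n / m < ((cell c κ).card : ℝ)) := by
    refine Pr_le_add ?_
    rintro c ⟨κ, hκ, hps⟩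
    by_cases hsz : ((cell c κ).card : ℝ) ≤ γ * n
    · exact Or.inl ⟨κ, Finset.mem_powersetCard.2 ⟨Finset.subset_univ _, hκ⟩, hsz, hps⟩
    · refine Or.inr ⟨κ, hκ, ?_⟩
      rw [not_le, hγ] at hsz
      calc 2 * (k : ℝ) * n / m = 2 * (k : ℝ) / m * n := by ring
        _ < _ := hsz
  linarith

end Pool.Agent.MP4d28ec.Suff
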