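import Pool.Agent.Lib.MP_4d28ec_Lift.S0

/-!
Row R8: random permutations.
-/

open Finset

namespace Pool.Agent.MP4d28ec.Suff

open Pool.Agent.H44IT Pool.Agent.MP4d28ec

private lemma exists_perm_wt {n : ℕ} {x y : Cube n} (h : wt x = wt y) :
    ∃ σ : Equiv.Perm (Fin n), ∀ i, x i = y (σ i) := by
  classical
  have hc : Fintype.card {i // x i = true} = Fintype.card {i // y i = true} := by
    rw [Fintype.card_subtype, Fintype.card_subtype]
    exact h
  let e : {i // x i = true} ≃ {i // y i = true} := Fintype.equivOfCardEq hc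
  refine ⟨e.extendSubtype, fun i => ?_⟩
  by_cases hi : x i = true
  · rw [hi]
    exact (e.extendSubtype_mem i hi).symm
  · have h1 := e.extendSubtype_not_mem i hi
    rw [Bool.not_eq_true] at hi h1
    rw [hi, h1]

lemma Ex_perm_wt {n : ℕ} {x y : Cube n} (h : wt x = wt y) (F : Cube n → ℝ) :
    Ex (fun π : Equiv.Perm (Fin n) => F (fun i => x (π i))) =
      Ex (fun π : Equiv.Perm (Fin n) => F (fun i => y (π i))) := by
  obtain ⟨σ, hσ⟩ := exists_perm_wt h
  rw [← Ex_equiv (Equiv.mulLeft σ) (fun π : Equiv.Perm (Fin n) => F (fun i => y (π i)))]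
  refine Ex_congr fun π => ?_
  congr 1
  funext i
  rw [hσ]
  rfl

theorem Ex_perm_map {n : ℕ} (X : Cube n → Cube n) (hX : ∀ x, wt (X x) = wt x) (F : Cube n → ℝ) :
    Ex (fun p : Equiv.Perm (Fin n) × Cube n => F (fun i => X p.2 (p.1 i))) = Ex F := by
  rw [Ex_prod, Ex_comm]
  have h1 : (fun x : Cube n => Ex (fun π : Equiv.Perm (Fin n) => F (fun i => X x (π i)))) =
      fun x : Cube n => Ex (fun π : Equiv.Perm (Fin n) => F (fun i => x (π i))) :=
    funext fun x => Ex_perm_wt (hX x) F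
  rw [h1, Ex_comm]
  have h2 : (fun π : Equiv.Perm (Fin n) => Ex (fun x : Cube n => F (fun i => x (π i)))) =
      fun _ : Equiv.Perm (Fin n) => Ex F := by
    funext π
    exact Ex_equiv (Equiv.arrowCongr π.symm (Equiv.refl Bool)) F
  rw [h2]
  exact Ex_const _

private lemma Pr_perm_eq {n : ℕ} (hn : 0 < n) (b i : Fin n) :
    Pr (fun π : Equiv.Perm (Fin n) => π b = i) = 1 / (n : ℝ) := by
  classical
  have hsym : ∀ j : Fin n, Pr (fun π : Equiv.Perm (Fin n) => π b = j) =
      Pr (fun π : Equiv.Perm (Fin n) => π b = i) := by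
    intro j
    rw [← Pr_equiv (Equiv.mulLeft (Equiv.swap i j)) (fun π : Equiv.Perm (Fin n) => π b = j)]
    apply Pr_congr
    intro π
    show Equiv.swap i j (π b) = j ↔ π b = i
    rw [← Equiv.eq_symm_apply, Equiv.symm_swap, Equiv.swap_apply_right]
  have hsum : ∑ j : Fin n, Pr (fun π : Equiv.Perm (Fin n) => π b = j) = 1 := by
    have h0 : ∀ j : Fin n, Pr (fun π : Equiv.Perm (Fin n) => π b = j) =
        Ex (fun π : Equiv.Perm (Fin n) => if π b = j then (1 : ℝ) else 0) := fun j => Pr_def _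
    simp only [h0]
    rw [← Ex_sum]
    rw [← Ex_const (α := Equiv.Perm (Fin n)) 1]
    apply Ex_congr
    intro π
    simp [Ex_const]
  simp only [hsym, Finset.sum_const, Finset.card_univ, Fintype.card_fin, nsmul_eq_mul] at hsum
  have hn0 : (n : ℝ) ≠ 0 := by positivity
  field_simp
  linarith

/-- some `ρ a` goes to the reservoir -/
lemma Pr_reservoir {n k M : ℕ} (hn : 0 < n) (hM : M ≤ n) (ρ : Fin k → Fin n) :
    Pr (fun π : Equiv.Perm (Fin n) => ∃ a, M ≤ (π (ρ a) : ℕ)) ≤ k * ((n : ℝ) - M) / n := by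
  classical
  have h1 : Pr (fun π : Equiv.Perm (Fin n) => ∃ a, M ≤ (π (ρ a) : ℕ)) ≤
      Pr (fun π : Equiv.Perm (Fin n) => ∃ p ∈ (Finset.univ : Finset (Fin k)) ×ˢ
        (Finset.univ.filter fun i : Fin n => M ≤ (i : ℕ)), π (ρ p.1) = p.2) := by
    apply Pr_mono
    rintro π ⟨a, ha⟩
    exact ⟨(a, π (ρ a)), by simp [ha], rfl⟩
  refine h1.trans ((Pr_exists_le _ _).trans ?_)
  simp only [Pr_perm_eq hn, Finset.sum_const, Finset.card_product, Finset.card_univ,
    Fintype.card_fin, nsmul_eq_mul]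
  have h2 : (Finset.univ.filter fun i : Fin n => M ≤ (i : ℕ)).card = n - M := by
    rcases hM.lt_or_eq with h | h
    · have h3 : (Finset.univ.filter fun i : Fin n => M ≤ (i : ℕ)) = Finset.Ici (⟨M, h⟩ : Fin n) := by
        ext i
        simp [Fin.le_def]
      rw [h3, Fin.card_Ici]
    · subst h
      rw [Nat.sub_self, Finset.card_eq_zero, Finset.filter_eq_empty_iff]
      intro i _
      exact not_le.2 i.2
  rw [h2]
  push_cast [Nat.cast_sub hM]
  apply le_of_eq
  ring

private lemma Pr_pair {n m L : ℕ} (hm : 0 < m) (hL : 0 < L) (h : m * L ≤ n) {u v : Fin n}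
    (huv : u ≠ v) :
    Pr (fun π : Equiv.Perm (Fin n) => (π u : ℕ) / L = (π v : ℕ) / L) ≤ 1 / (m : ℝ) := by
  classical
  have hn : 2 ≤ n := by
    have h1 := u.2
    have h2 := v.2
    have h3 : (u : ℕ) ≠ v := fun h => huv (Fin.ext h)
    omega
  -- symmetry
  have hsym : ∀ w : Fin n, w ≠ u →
      Pr (fun π : Equiv.Perm (Fin n) => (π u : ℕ) / L = (π w : ℕ) / L) =
        Pr (fun π : Equiv.Perm (Fin n) => (π u : ℕ) / L = (π v : ℕ) / L) := by
    intro w hw
    rw [← Pr_equiv (Equiv.mulRight (Equiv.swap v w))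
      (fun π : Equiv.Perm (Fin n) => (π u : ℕ) / L = (π w : ℕ) / L)]
    apply Pr_congr
    intro π
    show ((π (Equiv.swap v w u) : ℕ) / L = (π (Equiv.swap v w w) : ℕ) / L) ↔ _
    rw [Equiv.swap_apply_of_ne_of_ne huv hw.symm, Equiv.swap_apply_right]
  have hsum : ∑ w ∈ Finset.univ.erase u,
      Pr (fun π : Equiv.Perm (Fin n) => (π u : ℕ) / L = (π w : ℕ) / L) ≤ (L : ℝ) - 1 := by
    have h0 : ∀ w : Fin n, Pr (fun π : Equiv.Perm (Fin n) => (π u : ℕ) / L = (π w : ℕ) / L) =
        Ex (fun π : Equiv.Perm (Fin n) =>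
          if (π u : ℕ) / L = (π w : ℕ) / L then (1 : ℝ) else 0) := fun w => Pr_def _
    simp only [h0]
    rw [← Ex_sum]
    refine Ex_le_of_le fun π => ?_
    rw [Finset.sum_boole]
    have h1 : ((Finset.univ.erase u).filter fun w => (π u : ℕ) / L = (π w : ℕ) / L) =
        (Finset.univ.filter fun w => (π u : ℕ) / L = (π w : ℕ) / L).erase u := by
      ext w
      simp [and_comm]
    have h2 : u ∈ Finset.univ.filter fun w => (π u : ℕ) / L = (π w : ℕ) / L := by simp
    have h3 : (Finset.univ.filter fun w => (π u : ℕ) / L = (π w : ℕ) / L).card ≤ L := by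
      calc (Finset.univ.filter fun w => (π u : ℕ) / L = (π w : ℕ) / L).card
          ≤ (Finset.range L).card := by
            refine Finset.card_le_card_of_injOn (fun w => (π w : ℕ) % L) ?_ ?_
            · intro w _
              simpa using Nat.mod_lt _ hL
            · intro w hw w' hw' hww
              have e1 : (π u : ℕ) / L = (π w : ℕ) / L := by simpa using hw
              have e2 : (π u : ℕ) / L = (π w' : ℕ) / L := by simpa using hw'
              have e3 : (π w : ℕ) % L = (π w' : ℕ) % L := hww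
              have e4 : (π w : ℕ) = π w' := by
                rw [← Nat.div_add_mod (π w : ℕ) L, ← Nat.div_add_mod (π w' : ℕ) L, ← e1, ← e2, e3]
              exact π.injective (Fin.ext e4)
        _ = L := Finset.card_range L
    rw [h1, Finset.card_erase_of_mem h2]
    have h4 : (Finset.univ.filter fun w => (π u : ℕ) / L = (π w : ℕ) / L).card - 1 ≤ L - 1 :=
      Nat.sub_le_sub_right h3 1
    have h5 : (((Finset.univ.filter fun w => (π u : ℕ) / L = (π w : ℕ) / L).card - 1 : ℕ) : ℝ) ≤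
        ((L - 1 : ℕ) : ℝ) := by exact_mod_cast h4
    rwa [Nat.cast_sub hL, Nat.cast_one] at h5
  rw [Finset.sum_congr rfl fun w hw => hsym w (Finset.ne_of_mem_erase hw), Finset.sum_const,
    Finset.card_erase_of_mem (Finset.mem_univ u), Finset.card_univ, Fintype.card_fin,
    nsmul_eq_mul, Nat.cast_sub (by omega), Nat.cast_one] at hsum
  have hn1 : (0 : ℝ) < (n : ℝ) - 1 := by
    have : (2 : ℝ) ≤ n := by exact_mod_cast hn
    linarith
  have hm0 : (0 : ℝ) < m := by exact_mod_cast hm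
  have h6 : (m : ℝ) * L ≤ n := by exact_mod_cast h
  have h7 : (1 : ℝ) ≤ m := by exact_mod_cast hm
  rw [le_div_iff₀ hm0]
  have h8 : Pr (fun π : Equiv.Perm (Fin n) => (π u : ℕ) / L = (π v : ℕ) / L) ≤
      ((L : ℝ) - 1) / ((n : ℝ) - 1) := by
    rw [le_div_iff₀ hn1]
    linarith [mul_comm ((n : ℝ) - 1)
      (Pr (fun π : Equiv.Perm (Fin n) => (π u : ℕ) / L = (π v : ℕ) / L))]
  calc Pr (fun π : Equiv.Perm (Fin n) => (π u : ℕ) / L = (π v : ℕ) / L) * m
      ≤ ((L : ℝ) - 1) / ((n : ℝ) - 1) * m := mul_le_mul_of_nonneg_right h8 hm0.le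
    _ ≤ 1 := by
        rw [div_mul_eq_mul_div, div_le_one hn1]
        nlinarith

/-- two of the `ρ a` go to the same block -/
lemma Pr_block {n k m L : ℕ} (hm : 0 < m) (hL : 0 < L) (h : m * L ≤ n) {ρ : Fin k → Fin n}
    (hρ : Function.Injective ρ) :
    Pr (fun π : Equiv.Perm (Fin n) => ∃ a b, a ≠ b ∧ (π (ρ a) : ℕ) < m * L ∧
      (π (ρ a) : ℕ) / L = (π (ρ b) : ℕ) / L) ≤ (k : ℝ) ^ 2 / m := by
  classical
  have h1 : Pr (fun π : Equiv.Perm (Fin n) => ∃ a b, a ≠ b ∧ (π (ρ a) : ℕ) < m * L ∧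
      (π (ρ a) : ℕ) / L = (π (ρ b) : ℕ) / L) ≤
      Pr (fun π : Equiv.Perm (Fin n) => ∃ p ∈ (Finset.univ.filter fun p : Fin k × Fin k =>
        p.1 ≠ p.2), (π (ρ p.1) : ℕ) / L = (π (ρ p.2) : ℕ) / L) := by
    apply Pr_mono
    rintro π ⟨a, b, hab, -, h2⟩
    exact ⟨(a, b), by simp [hab], h2⟩
  refine h1.trans ((Pr_exists_le _ _).trans ?_)
  calc ∑ p ∈ Finset.univ.filter (fun p : Fin k × Fin k => p.1 ≠ p.2),
        Pr (fun π : Equiv.Perm (Fin n) => (π (ρ p.1) : ℕ) / L = (π (ρ p.2) : ℕ) / L)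
      ≤ ∑ _p ∈ Finset.univ.filter (fun p : Fin k × Fin k => p.1 ≠ p.2), 1 / (m : ℝ) := by
        refine Finset.sum_le_sum fun p hp => ?_
        exact Pr_pair hm hL h (hρ.ne (Finset.mem_filter.1 hp).2)
    _ = ((Finset.univ.filter (fun p : Fin k × Fin k => p.1 ≠ p.2)).card : ℝ) / m := by
        rw [Finset.sum_const, nsmul_eq_mul, mul_one_div]
    _ ≤ (k : ℝ) ^ 2 / m := by
        gcongr
        have h2 : (Finset.univ.filter (fun p : Fin k × Fin k => p.1 ≠ p.2)).card ≤ k ^ 2 := by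
          refine (Finset.card_le_univ _).trans ?_
          rw [Fintype.card_prod, Fintype.card_fin, sq]
        exact_mod_cast h2

end Pool.Agent.MP4d28ec.Suff
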