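import Pool.Agent.Lib.MP_4d28ec_Lift.R7
import Pool.Agent.Lib.MP_4d28ec_Lift.R8
import Pool.Agent.Lib.MP_4d28ec_Lift.R11

/-! Completeness of the test B. -/

open Finset

namespace Pool.Agent.MP4d28ec.Suff

open Pool.Agent.H44IT Pool.Agent.MP4d28ec

/-- For a permutation that sends the `ρ a` to different blocks, the reading map reads different
coordinates. -/
lemma good_perm {n m L k : ℕ} {ρ : Fin k → Fin n} {π : Equiv.Perm (Fin n)}
    (h1 : ¬ ∃ a, m * L ≤ (π (ρ a) : ℕ))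
    (h2 : ¬ ∃ a b, a ≠ b ∧ (π (ρ a) : ℕ) < m * L ∧ (π (ρ a) : ℕ) / L = (π (ρ b) : ℕ) / L) :
    ∃ C : Fin k → Fin n, Function.Injective C ∧ (∀ i, (C i : ℕ) < m) ∧
      ∀ x : Cube n, Fits m L x → ∀ a, blow m L x (π (ρ a)) = x (C a) := by
  push Not at h1
  refine ⟨fun a => ⟨(π (ρ a) : ℕ) / L, lt_of_le_of_lt (Nat.div_le_self _ _) (π (ρ a)).2⟩,
    ?_, ?_, ?_⟩
  · intro a b hab
    by_contra hne
    exact h2 ⟨a, b, hne, h1 a, by simpa using hab⟩
  · intro a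
    exact Nat.div_lt_of_lt_mul (by rw [mul_comm]; exact h1 a)
  · intro x hx a
    rw [blow_apply hx (h1 a)]

lemma read_value {n m L k : ℕ} (hL : 0 < L) (hmL : m * L ≤ n) {ρ C : Fin k → Fin n}
    {π : Equiv.Perm (Fin n)} (F : (Fin k → Bool) → ℕ → Bool) {x : Cube n}
    (h : ∀ a, blow m L x (π (ρ a)) = x (C a)) :
    F (fun a => (fun i => blow m L x (π i)) (ρ a)) (wt fun i => blow m L x (π i)) =
      F (fun a => x (C a)) (wt x) := by
  rw [wt_perm, wt_blow hmL hL]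
  congr 1
  funext a
  exact h a

lemma Pr_bad_perm {n m L k : ℕ} (hm : 0 < m) (hL : 0 < L) (hmL : m * L ≤ n)
    (hres : (k : ℝ) * ((n : ℝ) - (m * L : ℕ)) / n ≤ 1 / 48) (hblk : (k : ℝ) ^ 2 / m ≤ 1 / 48)
    {ρ : Fin k → Fin n} (hρ : Function.Injective ρ) :
    Pr (fun π : Equiv.Perm (Fin n) => (∃ a, m * L ≤ (π (ρ a) : ℕ)) ∨
      ∃ a b, a ≠ b ∧ (π (ρ a) : ℕ) < m * L ∧ (π (ρ a) : ℕ) / L = (π (ρ b) : ℕ) / L) ≤ 1 / 24 := by
  have hn : 0 < n := lt_of_lt_of_le (Nat.mul_pos hm hL) hmL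
  refine (Pr_or_le _ _).trans ?_
  have h1 := Pr_reservoir hn hmL ρ
  have h2 := Pr_block hm hL hmL hρ
  linarith

lemma Pr_blow_ne {n m L : ℕ} (hL : 0 < L) (hmL : m * L ≤ n) (f h : Cube n → Bool) :
    Pr (fun p : Equiv.Perm (Fin n) × Cube n =>
      f (fun i => blow m L p.2 (p.1 i)) ≠ h (fun i => blow m L p.2 (p.1 i))) = dist f h := by
  classical
  rw [dist_eq_Pr, Pr_def, Pr_def]
  exact Ex_perm_map (fun x => blow m L x) (fun x => wt_blow hmL hL x)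
    (fun z => if f z ≠ h z then (1 : ℝ) else 0)

theorem B_complete {n m L k N : ℕ} (hN : 0 < N) (hm : 0 < m) (hL : 0 < L) (hmL : m * L ≤ n)
    (hmn : m ≤ n) {η : ℝ}
    (hη : 0 < η) (hfit : Pr (fun x : Cube n => ¬ Fits m L x) ≤ η)
    (hres : (k : ℝ) * ((n : ℝ) - (m * L : ℕ)) / n ≤ 1 / 48) (hblk : (k : ℝ) ^ 2 / m ≤ 1 / 48)
    {f : Cube n → Bool} {ρ : Fin k → Fin n} (hρ : Function.Injective ρ)
    {H : (Fin k → Bool) → ℕ → Bool} (hd : dist f (fun x => H (fun a => x (ρ a)) (wt x)) ≤ η) :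
    3 / 4 - 1 / 24 ≤ Pr (fun w : Equiv.Perm (Fin n) × (Fin N → Cube n) =>
      BOk m L k N (8 * η) H f w) := by
  classical
  set h : Cube n → Bool := fun x => H (fun a => x (ρ a)) (wt x) with hh
  set Q : Equiv.Perm (Fin n) → Cube n → Prop := fun π x =>
    ¬ Fits m L x ∨ f (fun i => blow m L x (π i)) ≠ h (fun i => blow m L x (π i)) with hQ
  have hQ1 : Pr (fun p : Equiv.Perm (Fin n) × Cube n => Q p.1 p.2) ≤ 2 * η := by
    refine (Pr_or_le _ _).trans ?_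
    have h1 : Pr (fun p : Equiv.Perm (Fin n) × Cube n => ¬ Fits m L p.2) =
        Pr (fun x : Cube n => ¬ Fits m L x) :=
      Pr_snd (fun x : Cube n => ¬ Fits m L x)
    have h2 := Pr_blow_ne hL hmL f h
    linarith
  have hQ2 := markov_count Q N hN (2 * η) (8 * η) (by positivity) hQ1
  have hbad := Pr_bad_perm hm hL hmL hres hblk hρ
  set B : Equiv.Perm (Fin n) → Prop := fun π => (∃ a, m * L ≤ (π (ρ a) : ℕ)) ∨
      ∃ a b, a ≠ b ∧ (π (ρ a) : ℕ) < m * L ∧ (π (ρ a) : ℕ) / L = (π (ρ b) : ℕ) / L with hB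
  have hB' : Pr (fun w : Equiv.Perm (Fin n) × (Fin N → Cube n) => B w.1) ≤ 1 / 24 := by
    rw [Pr_fst B]
    exact hbad
  have hcov : ∀ w : Equiv.Perm (Fin n) × (Fin N → Cube n), ¬ BOk m L k N (8 * η) H f w →
      8 * η * N < ((Finset.univ.filter fun j => Q w.1 (w.2 j)).card : ℝ) ∨ B w.1 := by
    intro w hw
    by_contra hcon
    push Not at hcon
    obtain ⟨hc1, hc2⟩ := hcon
    rw [hB] at hc2
    simp only [not_or] at hc2
    obtain ⟨C, hC1, hC2, hC3⟩ := good_perm hc2.1 hc2.2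
    apply hw
    refine ⟨C, hC1, hC2, le_trans ?_ hc1⟩
    norm_cast
    apply Finset.card_le_card
    intro s hs
    rw [mem_filter] at hs ⊢
    refine ⟨mem_univ _, ?_⟩
    by_cases hf : Fits m L (w.2 s)
    · right
      have h3 := read_value hL hmL H (hC3 (w.2 s) hf)
      intro h4
      apply hs.2
      rw [h4, ← h3]
    · exact Or.inl hf
  have h5 := Pr_le_add hcov
  have h6 := Pr_not (fun w : Equiv.Perm (Fin n) × (Fin N → Cube n) => BOk m L k N (8 * η) H f w)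
  have h7 : 2 * η / (8 * η) = 1 / 4 := by field_simp; norm_num
  rw [h7] at hQ2
  linarith

end Pool.Agent.MP4d28ec.Suff
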