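import Pool.Agent.Lib.MP_4d28ec_Lift.R15

/-! Soundness of the test B. -/

open Finset

namespace Pool.Agent.MP4d28ec.Suff

open Pool.Agent.H44IT Pool.Agent.MP4d28ec

theorem B_sound {n m L k N : ℕ} (hN : 0 < N) (hm : 0 < m) (hL : 0 < L) (hmL : m * L ≤ n)
    (hmn : m ≤ n) {η : ℝ} (hη : 0 < η) (hfit : Pr (fun x : Cube n => ¬ Fits m L x) ≤ η)
    (hres : (k : ℝ) * ((n : ℝ) - (m * L : ℕ)) / n ≤ 1 / 48) (hblk : (k : ℝ) ^ 2 / m ≤ 1 / 48)
    (hNB : (m : ℝ) ^ k / (N * η ^ 2) ≤ 1 / 24)
    {f : Cube n → Bool} {ρ : Fin k → Fin n} (hρ : Function.Injective ρ)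
    {F H : (Fin k → Bool) → ℕ → Bool} (hd : dist f (fun x => F (fun a => x (ρ a)) (wt x)) ≤ 46 * η)
    (hB : 1 / 3 ≤ Pr (fun w : Equiv.Perm (Fin n) × (Fin N → Cube n) =>
      BOk m L k N (8 * η) H f w)) :
    ∃ C C' : Fin k → Fin n, Function.Injective C ∧ Function.Injective C' ∧
      Pr (fun x : Cube n => F (fun a => x (C' a)) (wt x) ≠ H (fun a => x (C a)) (wt x)) ≤
        400 * η := by
  classical
  set h : Cube n → Bool := fun x => F (fun a => x (ρ a)) (wt x) with hh
  have hNR : (0 : ℝ) < N := by exact_mod_cast hN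
  -- the values at which `f` and `h` differ
  have hQ2 := markov_count (fun (π : Equiv.Perm (Fin n)) (x : Cube n) =>
    f (fun i => blow m L x (π i)) ≠ h (fun i => blow m L x (π i))) N hN (46 * η) (368 * η)
    (by positivity) (by rw [Pr_blow_ne hL hmL f h]; exact hd)
  have h8 : 46 * η / (368 * η) = 1 / 8 := by field_simp; norm_num
  rw [h8] at hQ2
  -- all candidates
  set P : Equiv.Perm (Fin n) → (Fin k → Fin m) → Cube n → Prop := fun π C x =>
    h (fun i => blow m L x (π i)) ≠ H (fun a => x (Fin.castLE hmn (C a))) (wt x) with hP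
  have hU : ∀ π : Equiv.Perm (Fin n), Pr (fun s : Fin N → Cube n => ∃ C : Fin k → Fin m,
      ((Finset.univ.filter fun j => P π C (s j)).card : ℝ) ≤ 376 * η * N ∧
        377 * η < Pr (P π C)) ≤ 1 / 24 := by
    intro π
    apply union_chebyshev (P π) N hN (376 * η) (377 * η) (by linarith) ((m : ℝ) ^ k)
    · simp
    · have h9 : 377 * η - 376 * η = η := by ring
      rw [h9]
      exact hNB
  have hU' : Pr (fun w : Equiv.Perm (Fin n) × (Fin N → Cube n) => ∃ C : Fin k → Fin m,
      ((Finset.univ.filter fun j => P w.1 C (w.2 j)).card : ℝ) ≤ 376 * η * N ∧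
        377 * η < Pr (P w.1 C)) ≤ 1 / 24 := by
    rw [Pr_prod]
    exact Ex_le_of_le hU
  have hbad := Pr_bad_perm hm hL hmL hres hblk hρ
  rw [← Pr_fst (β := Fin N → Cube n)] at hbad
  -- a good outcome
  by_contra hcon
  have hcov : ∀ w : Equiv.Perm (Fin n) × (Fin N → Cube n), BOk m L k N (8 * η) H f w →
      (368 * η * N < ((Finset.univ.filter fun j => f (fun i => blow m L (w.2 j) (w.1 i)) ≠
        h (fun i => blow m L (w.2 j) (w.1 i))).card : ℝ)) ∨
      ((∃ C : Fin k → Fin m, ((Finset.univ.filter fun j => P w.1 C (w.2 j)).card : ℝ) ≤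
        376 * η * N ∧ 377 * η < Pr (P w.1 C)) ∨
      ((∃ a, m * L ≤ (w.1 (ρ a) : ℕ)) ∨ ∃ a b, a ≠ b ∧ (w.1 (ρ a) : ℕ) < m * L ∧
        (w.1 (ρ a) : ℕ) / L = (w.1 (ρ b) : ℕ) / L)) := by
    rintro ⟨π, X⟩ ⟨C, hC1, hC2, hC3⟩
    by_contra hc
    simp only [not_or] at hc
    obtain ⟨hc1, hc2, hc3, hc4⟩ := hc
    obtain ⟨C', hC1', _, hC3'⟩ := good_perm hc3 hc4
    apply hcon
    refine ⟨C, C', hC1, hC1', ?_⟩
    push Not at hc2 hc1
    -- `C` as a map to `Fin m`
    have h10 := hc2 (fun a => ⟨C a, hC2 a⟩) (by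
      have h11 : ((Finset.univ.filter fun j => P π (fun a => ⟨C a, hC2 a⟩) (X j)).card : ℝ) ≤
          ((Finset.univ.filter fun s : Fin N =>
            f (fun i => blow m L (X s) (π i)) ≠ H (fun a => X s (C a)) (wt (X s))).card : ℝ) +
          ((Finset.univ.filter fun j => f (fun i => blow m L (X j) (π i)) ≠
            h (fun i => blow m L (X j) (π i))).card : ℝ) := by
        norm_cast
        refine le_trans (Finset.card_le_card ?_) (Finset.card_union_le _ _)
        intro s hs
        rw [mem_filter] at hs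
        rw [mem_union, mem_filter, mem_filter]
        by_cases h12 : f (fun i => blow m L (X s) (π i)) = h (fun i => blow m L (X s) (π i))
        · left
          refine ⟨mem_univ _, ?_⟩
          rw [h12]
          exact hs.2
        · exact Or.inr ⟨mem_univ _, h12⟩
      have h13 : ((Finset.univ.filter fun s : Fin N =>
            f (fun i => blow m L (X s) (π i)) ≠ H (fun a => X s (C a)) (wt (X s))).card : ℝ) ≤
            8 * η * N := hC3
      have h14 : ((Finset.univ.filter fun j => f (fun i => blow m L (X j) (π i)) ≠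
            h (fun i => blow m L (X j) (π i))).card : ℝ) ≤ 368 * η * N := hc1
      linarith)
    have h15 : Pr (fun x : Cube n => F (fun a => x (C' a)) (wt x) ≠ H (fun a => x (C a)) (wt x)) ≤
        Pr (P π (fun a => ⟨C a, hC2 a⟩)) + Pr (fun x : Cube n => ¬ Fits m L x) := by
      apply Pr_le_add
      intro x hx
      by_cases hf : Fits m L x
      · left
        show h (fun i => blow m L x (π i)) ≠ H (fun a => x (C a)) (wt x)
        have h16 := read_value hL hmL F (hC3' x hf)
        rw [← h16] at hx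
        exact hx
      · exact Or.inr hf
    linarith
  have h20 := (Pr_le_add hcov).trans (add_le_add_right (Pr_or_le _ _) _)
  linarith

end Pool.Agent.MP4d28ec.Suff
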