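import Pool.Agent.Lib.MP_4d28ec_Lift.S0

/-!
Row R17: relabelling.
-/

open Finset

namespace Pool.Agent.MP4d28ec.Suff

open Pool.Agent.H44IT Pool.Agent.MP4d28ec

/-- A bijection between the images of two injective maps extends to a permutation. -/
lemma exists_perm_comp {n k : ℕ} {ρ C : Fin k → Fin n} (hρ : Function.Injective ρ)
    (hC : Function.Injective C) : ∃ τ : Equiv.Perm (Fin n), ∀ a, τ (ρ a) = C a := by
  classical
  refine ⟨((Equiv.ofInjective ρ hρ).symm.trans (Equiv.ofInjective C hC)).extendSubtype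
    (p := fun i => i ∈ Set.range ρ) (q := fun i => i ∈ Set.range C), fun a => ?_⟩
  rw [Equiv.extendSubtype_apply_of_mem _ _ (Set.mem_range_self a)]
  have : (Equiv.ofInjective ρ hρ).symm ⟨ρ a, Set.mem_range_self a⟩ = a := by
    rw [Equiv.symm_apply_eq]
    rfl
  rw [Equiv.trans_apply, this]
  rfl

theorem relabel {n k : ℕ} {ρ σ C C' : Fin k → Fin n} (hρ : Function.Injective ρ)
    (hσ : Function.Injective σ) (hC : Function.Injective C) (hC' : Function.Injective C')
    (F H : (Fin k → Bool) → ℕ → Bool) {α : ℝ}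
    (h : Pr (fun x : Cube n => F (fun a => x (C' a)) (wt x) ≠ H (fun a => x (C a)) (wt x)) ≤ α) :
    ∃ π : Equiv.Perm (Fin n), dist (fun x => F (fun a => x (ρ a)) (wt x))
      (permute (fun x => H (fun a => x (σ a)) (wt x)) π) ≤ α := by
  obtain ⟨τ, hτ⟩ := exists_perm_comp hρ hC'
  obtain ⟨τ', hτ'⟩ := exists_perm_comp hσ hC
  refine ⟨τ⁻¹ * τ', ?_⟩
  rw [dist_eq_Pr]
  refine le_trans (le_of_eq ?_) h
  rw [← Pr_equiv (cubePerm τ)]
  apply Pr_congr
  intro x
  have e1 : (fun a => (cubePerm τ x) (ρ a)) = fun a => x (C' a) := by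
    funext a
    exact congrArg x (hτ a)
  have e2 : (fun a => (cubePerm τ x) ((τ⁻¹ * τ') (σ a))) = fun a => x (C a) := by
    funext a
    have : τ ((τ⁻¹ * τ') (σ a)) = C a := by
      rw [← hτ' a]
      exact τ.apply_symm_apply _
    exact congrArg x this
  have e3 : wt (cubePerm τ x) = wt x := wt_perm x τ
  have e4 : wt (fun i => (cubePerm τ x) ((τ⁻¹ * τ') i)) = wt x := (wt_perm _ _).trans e3
  show (F (fun a => (cubePerm τ x) (ρ a)) (wt (cubePerm τ x)) ≠
    H (fun a => (cubePerm τ x) ((τ⁻¹ * τ') (σ a))) (wt (fun i => (cubePerm τ x) ((τ⁻¹ * τ') i)))) ↔ _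
  rw [e1, e2, e3, e4]

end Pool.Agent.MP4d28ec.Suff
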