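import Pool.Agent.Lib.MP_4d28ec_Lift.R7

/-!
The parameters of the test B.
-/

open Finset

namespace Pool.Agent.MP4d28ec.Suff

open Pool.Agent.H44IT Pool.Agent.MP4d28ec

theorem B_params (k : ℕ) (hk : 0 < k) {η : ℝ} (hη : 0 < η) :
    ∃ m : ℕ, 0 < m ∧ (k : ℝ) ^ 2 / m ≤ 1 / 48 ∧ ∃ n₀ : ℕ, ∀ n ≥ n₀, 0 < n ∧ m ≤ n ∧
      ∃ L : ℕ, 0 < L ∧ m * L ≤ n ∧ (k : ℝ) * ((n : ℝ) - (m * L : ℕ)) / n ≤ 1 / 48 ∧
        Pr (fun x : Cube n => ¬ Fits m L x) ≤ η := by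
  have hk' : (1 : ℝ) ≤ k := by exact_mod_cast hk
  set θ : ℝ := 1 / (200 * k) with hθ
  have hθ0 : 0 < θ := by positivity
  have hθk : k * θ = 1 / 200 := by rw [hθ]; field_simp
  have hθ1 : θ ≤ 1 / 200 := by nlinarith
  obtain ⟨m₀, hm₀⟩ := exists_nat_ge (8 / (θ ^ 2 * η))
  refine ⟨48 * k ^ 2 + m₀, by positivity, ?_, 100 * k * (48 * k ^ 2 + m₀) + 2 * (48 * k ^ 2 + m₀), ?_⟩
  · rw [div_le_div_iff₀ (by positivity) (by norm_num)]
    push_cast
    have : (0 : ℝ) ≤ m₀ := Nat.cast_nonneg _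
    nlinarith
  set m : ℕ := 48 * k ^ 2 + m₀ with hmdef
  have hm : 0 < m := by positivity
  have hm' : (0 : ℝ) < m := by exact_mod_cast hm
  have hmge : 8 / (θ ^ 2 * η) ≤ m := by
    refine hm₀.trans ?_
    rw [hmdef]
    push_cast
    nlinarith [sq_nonneg (k : ℝ)]
  intro n hn
  have hn' : (100 : ℝ) * k * m + 2 * m ≤ n := by exact_mod_cast hn
  have hkm : (0 : ℝ) < k * m := by positivity
  have hn0 : (0 : ℝ) < n := by nlinarith
  have hmn : (m : ℝ) ≤ n := by nlinarith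
  refine ⟨by exact_mod_cast hn0, by exact_mod_cast hmn, ⌊(1 - θ) * n / m⌋₊, ?_, ?_, ?_, ?_⟩
  · rw [Nat.floor_pos, le_div_iff₀ hm']
    nlinarith
  all_goals
    have hfl : ((⌊(1 - θ) * n / m⌋₊ : ℕ) : ℝ) ≤ (1 - θ) * n / m := Nat.floor_le (by
      apply div_nonneg _ hm'.le
      nlinarith)
    have hfl2 : (1 - θ) * n / m < ((⌊(1 - θ) * n / m⌋₊ : ℕ) : ℝ) + 1 := Nat.lt_floor_add_one _
    set L : ℕ := ⌊(1 - θ) * n / m⌋₊ with hL
    have h1 : (m : ℝ) * L ≤ (1 - θ) * n := by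
      rw [le_div_iff₀ hm'] at hfl
      linarith
    have h2 : (1 - θ) * n < m * L + m := by
      rw [div_lt_iff₀ hm'] at hfl2
      linarith
  · have : (m : ℝ) * L ≤ n := by nlinarith
    exact_mod_cast this
  · rw [div_le_div_iff₀ hn0 (by norm_num)]
    push_cast
    have h3 : (k : ℝ) * (n - m * L) ≤ k * (θ * n + m) := by
      apply mul_le_mul_of_nonneg_left _ (by linarith)
      linarith
    have h4 : (k : ℝ) * (θ * n + m) = n / 200 + k * m := by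
      rw [mul_add, ← mul_assoc, hθk]
      ring
    nlinarith
  · have hLpos : 0 < L := by
      rw [hL, Nat.floor_pos, le_div_iff₀ hm']
      nlinarith
    refine (Pr_not_fits hm hLpos hθ0 (by linarith)).trans ?_
    have h5 : 4 / (θ ^ 2 * n) ≤ 4 / (θ ^ 2 * m) := by
      apply div_le_div_of_nonneg_left (by norm_num) (by positivity)
      exact mul_le_mul_of_nonneg_left hmn (by positivity)
    have h6 : 4 / (θ ^ 2 * m) + 4 / (θ ^ 2 * m) = 8 / (θ ^ 2 * m) := by ring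
    have h7 : 8 / (θ ^ 2 * m) ≤ η := by
      rw [div_le_iff₀ (by positivity)] at hmge ⊢
      nlinarith
    linarith

end Pool.Agent.MP4d28ec.Suff
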