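import Pool.Agent.Lib.MP_4d28ec_Lift.S0

/-! Row R19: the tests read few values. -/

open Finset

namespace Pool.Agent.MP4d28ec.Suff

open Pool.Agent.H44IT Pool.Agent.MP4d28ec

private lemma AOk_of {n m k N : ℕ} {η : ℝ}
    {w : (Fin n → Fin m) × Equiv.Perm (Fin n) × (Fin N → Cube n)} {f f' : Cube n → Bool}
    (h1 : ∀ s, f (w.2.2 s) = f' (w.2.2 s))
    (h2 : ∀ s (κ : Finset (Fin m)), f (fill (cell w.1 κ) w.2.1 (w.2.2 s)) =
      f' (fill (cell w.1 κ) w.2.1 (w.2.2 s))) (h : AOk k N η f w) : AOk k N η f' w := by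
  obtain ⟨κ, hκ, hc⟩ := h
  refine ⟨κ, hκ, ?_⟩
  rw [Finset.filter_congr fun s _ => by rw [h1 s, h2 s κ]] at hc
  exact hc

private lemma BOk_of {n m L k N : ℕ} {η : ℝ} {H : (Fin k → Bool) → ℕ → Bool}
    {w : Equiv.Perm (Fin n) × (Fin N → Cube n)} {f f' : Cube n → Bool}
    (h1 : ∀ s, f (fun i => blow m L (w.2 s) (w.1 i)) = f' (fun i => blow m L (w.2 s) (w.1 i)))
    (h : BOk m L k N η H f w) : BOk m L k N η H f' w := by
  obtain ⟨C, hC, hC', hc⟩ := h
  refine ⟨C, hC, hC', ?_⟩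
  rw [Finset.filter_congr fun s _ => by rw [h1 s]] at hc
  exact hc

open Classical in
theorem A_depends {n m k N : ℕ} (η : ℝ)
    (w : (Fin n → Fin m) × Equiv.Perm (Fin n) × (Fin N → Cube n)) :
    DependsOn (N * (1 + 2 ^ m)) (fun f => decide (AOk k N η f w)) := by
  refine ⟨Finset.univ.image (fun p : Fin N × Option (Finset (Fin m)) =>
    p.2.elim (w.2.2 p.1) fun κ => fill (cell w.1 κ) w.2.1 (w.2.2 p.1)), ?_, ?_⟩
  · refine Finset.card_image_le.trans (le_of_eq ?_)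
    rw [Finset.card_univ, Fintype.card_prod, Fintype.card_fin, Fintype.card_option,
      Fintype.card_finset, Fintype.card_fin, add_comm]
  · intro f f' h
    have h1 : ∀ s, f (w.2.2 s) = f' (w.2.2 s) := fun s =>
      h _ (Finset.mem_image.2 ⟨(s, none), Finset.mem_univ _, rfl⟩)
    have h2 : ∀ s (κ : Finset (Fin m)), f (fill (cell w.1 κ) w.2.1 (w.2.2 s)) =
        f' (fill (cell w.1 κ) w.2.1 (w.2.2 s)) := fun s κ =>
      h _ (Finset.mem_image.2 ⟨(s, some κ), Finset.mem_univ _, rfl⟩)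
    exact decide_eq_decide.2 ⟨AOk_of h1 h2, AOk_of (fun s => (h1 s).symm) fun s κ => (h2 s κ).symm⟩

open Classical in
theorem B_depends {n m L k N : ℕ} (η : ℝ) (H : (Fin k → Bool) → ℕ → Bool)
    (w : Equiv.Perm (Fin n) × (Fin N → Cube n)) :
    DependsOn N (fun f => decide (BOk m L k N η H f w)) := by
  refine ⟨Finset.univ.image (fun s : Fin N => fun i => blow m L (w.2 s) (w.1 i)), ?_, ?_⟩
  · refine Finset.card_image_le.trans (le_of_eq ?_)
    rw [Finset.card_univ, Fintype.card_fin]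
  · intro f f' h
    have h1 : ∀ s, f (fun i => blow m L (w.2 s) (w.1 i)) =
        f' (fun i => blow m L (w.2 s) (w.1 i)) := fun s =>
      h _ (Finset.mem_image.2 ⟨s, Finset.mem_univ _, rfl⟩)
    exact decide_eq_decide.2 ⟨BOk_of h1, BOk_of fun s => (h1 s).symm⟩

end Pool.Agent.MP4d28ec.Suff
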