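import Pool.Agent.Lib.MP_4d28ec_Lift.S0

/-!
Row R2: cross-intersecting families and the biased measure.
-/

open Finset

namespace Pool.Agent.MP4d28ec.Suff

open Pool.Agent.H44IT Pool.Agent.MP4d28ec

/-- The biased measure of a family. -/
noncomputable def mu {m : ℕ} (κ : Finset (Fin m)) (n : ℕ) (A : Cube n → Prop) : ℝ :=
  Pr (fun c : Fin n → Fin m => A fun i => decide (c i ∈ κ))

lemma mu_nonneg {m : ℕ} (κ : Finset (Fin m)) (n : ℕ) (A : Cube n → Prop) : 0 ≤ mu κ n A :=
  Pr_nonneg _

lemma mu_le_one {m : ℕ} (κ : Finset (Fin m)) (n : ℕ) (A : Cube n → Prop) : mu κ n A ≤ 1 :=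
  Pr_le_one _

lemma mu_succ {m : ℕ} (hm : 0 < m) (κ : Finset (Fin m)) (n : ℕ) (A : Cube (n + 1) → Prop) :
    mu κ (n + 1) A = (1 - (κ.card : ℝ) / m) * mu κ n (fun a => A (Fin.cons false a)) +
      (κ.card : ℝ) / m * mu κ n (fun a => A (Fin.cons true a)) := by
  classical
  have hmR : (0 : ℝ) < m := by exact_mod_cast hm
  have : Nonempty (Fin m) := ⟨⟨0, hm⟩⟩
  unfold mu
  rw [← Pr_equiv (Fin.consEquiv fun _ => Fin m), Pr_prod]
  have h1 : ∀ c0 : Fin m, Pr (fun c : Fin n → Fin m => A fun i =>
      decide ((Fin.consEquiv fun _ => Fin m) (c0, c) i ∈ κ)) =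
      (if c0 ∈ κ then (1 : ℝ) else 0) *
          (Pr (fun c : Fin n → Fin m => A (Fin.cons true fun i => decide (c i ∈ κ))) -
            Pr (fun c : Fin n → Fin m => A (Fin.cons false fun i => decide (c i ∈ κ)))) +
        Pr (fun c : Fin n → Fin m => A (Fin.cons false fun i => decide (c i ∈ κ))) := by
    intro c0
    have h2 : ∀ c : Fin n → Fin m, (fun i => decide ((Fin.consEquiv fun _ => Fin m) (c0, c) i ∈ κ)) =
        (Fin.cons (decide (c0 ∈ κ)) (fun i => decide (c i ∈ κ)) : Cube (n + 1)) := by
      intro c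
      funext i
      refine Fin.cases ?_ (fun i => ?_) i
      · rfl
      · rfl
    simp only [h2]
    by_cases h : c0 ∈ κ
    · simp [h]
    · simp [h]
  rw [Ex_congr h1, Ex_add, Ex_const, Ex_mul_const, ← Pr_def, Pr_eq_card, Fintype.card_fin]
  have h3 : (Finset.univ.filter fun i : Fin m => i ∈ κ) = κ := by
    ext i
    simp
  rw [h3]
  ring

theorem cross_inter {m : ℕ} (κ : Finset (Fin m)) (hκ0 : 0 < κ.card) (hκ : 2 * κ.card ≤ m)
    (n t : ℕ) (A B : Cube n → Prop)
    (hAB : ∀ a b, A a → B b → t ≤ (Finset.univ.filter fun i => a i = true ∧ b i = true).card) :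
    Pr (fun c : Fin n → Fin m => A fun i => decide (c i ∈ κ)) *
      Pr (fun c : Fin n → Fin m => B fun i => decide (c i ∈ κ)) ≤
      ((κ.card : ℝ) / (m - κ.card)) ^ (2 * t) := by
  classical
  have hm : 0 < m := by omega
  have hmR : (0 : ℝ) < m := by exact_mod_cast hm
  have hkR : (0 : ℝ) < κ.card := by exact_mod_cast hκ0
  have h2k : 2 * (κ.card : ℝ) ≤ m := by exact_mod_cast hκ
  have hmk : (0 : ℝ) < m - κ.card := by linarith
  set q : ℝ := (κ.card : ℝ) / (m - κ.card) with hq
  set p : ℝ := (κ.card : ℝ) / m with hp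
  have hq0 : 0 < q := by positivity
  have hp0 : 0 < p := by positivity
  have hp1 : p < 1 := by
    rw [hp, div_lt_one hmR]
    linarith
  have hpq : (1 - p) * q = p := by
    rw [hp, hq]
    field_simp
  change mu κ n A * mu κ n B ≤ q ^ (2 * t)
  induction n generalizing t with
  | zero =>
    rcases Nat.eq_zero_or_pos t with rfl | ht
    · rw [Nat.mul_zero, pow_zero]
      exact mul_le_one₀ (mu_le_one _ _ _) (mu_nonneg _ _ _) (mu_le_one _ _ _)
    · by_cases hA : ∃ a, A a
      · obtain ⟨a, ha⟩ := hA
        have hB : ∀ b, ¬ B b := by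
          intro b hb
          have := hAB a b ha hb
          simp at this
          omega
        have : mu κ 0 B = 0 := Pr_false fun c => hB _
        rw [this, mul_zero]
        positivity
      · push Not at hA
        have : mu κ 0 A = 0 := Pr_false fun c => hA _
        rw [this, zero_mul]
        positivity
  | succ n ih =>
    rcases Nat.eq_zero_or_pos t with rfl | ht
    · rw [Nat.mul_zero, pow_zero]
      exact mul_le_one₀ (mu_le_one _ _ _) (mu_nonneg _ _ _) (mu_le_one _ _ _)
    · obtain ⟨t, rfl⟩ : ∃ t', t = t' + 1 := ⟨t - 1, by omega⟩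
      have hcount : ∀ (u v : Bool) (a b : Cube n),
          (Finset.univ.filter fun i => (Fin.cons u a : Cube (n + 1)) i = true ∧
            (Fin.cons v b : Cube (n + 1)) i = true).card =
          (if u = true ∧ v = true then 1 else 0) +
            (Finset.univ.filter fun i => a i = true ∧ b i = true).card := by
        intro u v a b
        rw [Fin.card_filter_univ_succ]
        simp only [Fin.cons_zero, Fin.cons_succ]
        split_ifs <;> ring
      have h00 := ih (t + 1) (fun a => A (Fin.cons false a)) (fun b => B (Fin.cons false b))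
        (fun a b ha hb => by
          have := hAB _ _ ha hb
          rw [hcount] at this
          simpa using this)
      have h01 := ih (t + 1) (fun a => A (Fin.cons false a)) (fun b => B (Fin.cons true b))
        (fun a b ha hb => by
          have := hAB _ _ ha hb
          rw [hcount] at this
          simpa using this)
      have h10 := ih (t + 1) (fun a => A (Fin.cons true a)) (fun b => B (Fin.cons false b))
        (fun a b ha hb => by
          have := hAB _ _ ha hb
          rw [hcount] at this
          simpa using this)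
      have h11 := ih t (fun a => A (Fin.cons true a)) (fun b => B (Fin.cons true b))
        (fun a b ha hb => by
          have := hAB _ _ ha hb
          rw [hcount] at this
          simp only [and_self, if_true] at this
          omega)
      rw [mu_succ hm, mu_succ hm, ← hp]
      have hQR : q ^ (2 * (t + 1)) = q ^ 2 * q ^ (2 * t) := by ring
      rw [hQR] at h00 h01 h10 ⊢
      set a0 := mu κ n (fun a => A (Fin.cons false a))
      set a1 := mu κ n (fun a => A (Fin.cons true a))
      set b0 := mu κ n (fun a => B (Fin.cons false a))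
      set b1 := mu κ n (fun a => B (Fin.cons true a))
      have ha0 : 0 ≤ a0 := mu_nonneg _ _ _
      have ha1 : 0 ≤ a1 := mu_nonneg _ _ _
      have hb0 : 0 ≤ b0 := mu_nonneg _ _ _
      have hb1 : 0 ≤ b1 := mu_nonneg _ _ _
      set R : ℝ := q ^ (2 * t) with hR
      have hR0 : 0 < R := by positivity
      set Q : ℝ := q ^ 2 * R with hQ
      have hQ0 : 0 < Q := by positivity
      have hpQ : (1 - p) ^ 2 * Q = p ^ 2 * R := by
        rw [hQ]
        calc (1 - p) ^ 2 * (q ^ 2 * R) = ((1 - p) * q) ^ 2 * R := by ring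
          _ = p ^ 2 * R := by rw [hpq]
      have h1p : 0 ≤ 1 - p := by linarith
      by_cases hy : a1 * b1 ≤ Q
      · have e1 : (1 - p) * (1 - p) * (a0 * b0) ≤ (1 - p) * (1 - p) * Q :=
          mul_le_mul_of_nonneg_left h00 (mul_nonneg h1p h1p)
        have e2 : (1 - p) * p * (a0 * b1) ≤ (1 - p) * p * Q :=
          mul_le_mul_of_nonneg_left h01 (mul_nonneg h1p hp0.le)
        have e3 : (1 - p) * p * (a1 * b0) ≤ (1 - p) * p * Q :=
          mul_le_mul_of_nonneg_left h10 (mul_nonneg h1p hp0.le)
        have e4 : p * p * (a1 * b1) ≤ p * p * Q :=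
          mul_le_mul_of_nonneg_left hy (mul_nonneg hp0.le hp0.le)
        nlinarith
      · push Not at hy
        set y := a1 * b1 with hydef
        have hy0 : 0 < y := hQ0.trans hy
        have e1 : (a0 * b0) * y ≤ Q * Q := by
          calc (a0 * b0) * y = (a0 * b1) * (a1 * b0) := by rw [hydef]; ring
            _ ≤ Q * Q := mul_le_mul h01 h10 (mul_nonneg ha1 hb0) hQ0.le
        have e2 : (1 - p) * (1 - p) * ((a0 * b0) * y) ≤ (1 - p) * (1 - p) * (Q * Q) :=
          mul_le_mul_of_nonneg_left e1 (mul_nonneg h1p h1p)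
        have e3 : (1 - p) * p * ((a0 * b1) * y) ≤ (1 - p) * p * (Q * y) :=
          mul_le_mul_of_nonneg_left (mul_le_mul_of_nonneg_right h01 hy0.le)
            (mul_nonneg h1p hp0.le)
        have e4 : (1 - p) * p * ((a1 * b0) * y) ≤ (1 - p) * p * (Q * y) :=
          mul_le_mul_of_nonneg_left (mul_le_mul_of_nonneg_right h10 hy0.le)
            (mul_nonneg h1p hp0.le)
        have e5 : 0 ≤ p ^ 2 * ((y - Q) * (R - y)) :=
          mul_nonneg (by positivity) (mul_nonneg (by linarith) (by linarith))
        have e6 : (1 - p) * (1 - p) * (Q * Q) = p ^ 2 * R * Q := by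
          rw [← hpQ]
          ring
        have e7 : (1 - p) ^ 2 * Q * y = p ^ 2 * R * y := by rw [hpQ]
        have key : (((1 - p) * a0 + p * a1) * ((1 - p) * b0 + p * b1)) * y ≤ Q * y := by
          have ex : (((1 - p) * a0 + p * a1) * ((1 - p) * b0 + p * b1)) * y =
              (1 - p) * (1 - p) * ((a0 * b0) * y) + (1 - p) * p * ((a0 * b1) * y) +
                (1 - p) * p * ((a1 * b0) * y) + p * p * (y * y) := by
            rw [hydef]
            ring
          rw [ex]
          nlinarith
        exact le_of_mul_le_mul_right key hy0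

theorem inter_bound {m n t : ℕ} (κ : Finset (Fin m)) (hκ0 : 0 < κ.card) (hκ : 2 * κ.card ≤ m)
    (F : Finset (Fin n) → Prop) (hF : ∀ S T, F S → F T → t ≤ (S ∩ T).card) :
    Pr (fun c : Fin n → Fin m => F (cell c κ)) ≤ ((κ.card : ℝ) / (m - κ.card)) ^ t := by
  classical
  have h2k : 2 * (κ.card : ℝ) ≤ m := by exact_mod_cast hκ
  have hkR : (0 : ℝ) < κ.card := by exact_mod_cast hκ0
  have hmk : (0 : ℝ) < m - κ.card := by linarith
  have h1 := cross_inter κ hκ0 hκ n t (fun a => F (Finset.univ.filter fun i => a i = true))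
    (fun a => F (Finset.univ.filter fun i => a i = true)) (by
      intro a b ha hb
      have := hF _ _ ha hb
      rwa [← Finset.filter_and] at this)
  have h2 : ∀ c : Fin n → Fin m,
      (Finset.univ.filter fun i => (fun i => decide (c i ∈ κ)) i = true) = cell c κ := by
    intro c
    unfold cell
    ext i
    simp
  simp only [h2] at h1
  rw [← sq, mul_comm 2 t, pow_mul] at h1
  have h3 : 0 ≤ ((κ.card : ℝ) / (m - κ.card)) ^ t := by positivity
  exact (pow_le_pow_iff_left₀ (Pr_nonneg _) h3 two_ne_zero).1 h1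

end Pool.Agent.MP4d28ec.Suff
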