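import Pool.Agent.Lib.MP_4d28ec_Lift.S0

/-!
Row R6: the map `fill` keeps the weight, and it keeps the uniform distribution of the cube.
-/

open Finset

namespace Pool.Agent.MP4d28ec.Suff

open Pool.Agent.H44IT Pool.Agent.MP4d28ec

/-- The rank of a place outside of `S` in the order `θ`. -/
private def rk {n : ℕ} (S : Finset (Fin n)) (θ : Equiv.Perm (Fin n)) (i : Fin n) : ℕ :=
  (Finset.univ.filter fun j => j ∉ S ∧ θ j < θ i).card

private lemma rk_lt {n : ℕ} {S : Finset (Fin n)} {θ : Equiv.Perm (Fin n)} {i : Fin n}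
    (hi : i ∉ S) : rk S θ i < (Sᶜ).card := by
  apply Finset.card_lt_card
  rw [Finset.ssubset_iff_of_subset]
  · exact ⟨i, Finset.mem_compl.2 hi, by simp⟩
  · intro j hj
    rw [Finset.mem_filter] at hj
    exact Finset.mem_compl.2 hj.2.1

private lemma rk_lt_rk {n : ℕ} {S : Finset (Fin n)} {θ : Equiv.Perm (Fin n)} {i j : Fin n}
    (hi : i ∉ S) (h : θ i < θ j) : rk S θ i < rk S θ j := by
  apply Finset.card_lt_card
  rw [Finset.ssubset_iff_of_subset]
  · exact ⟨i, Finset.mem_filter.2 ⟨Finset.mem_univ _, hi, h⟩, by simp⟩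
  · intro l hl
    rw [Finset.mem_filter] at hl ⊢
    exact ⟨hl.1, hl.2.1, hl.2.2.trans h⟩

private lemma rk_inj {n : ℕ} (S : Finset (Fin n)) (θ : Equiv.Perm (Fin n)) :
    Set.InjOn (rk S θ) (Sᶜ : Finset (Fin n)) := by
  intro i hi j hj h
  rw [Finset.mem_coe, Finset.mem_compl] at hi hj
  rcases lt_trichotomy (θ i) (θ j) with h1 | h1 | h1
  · exact absurd h (rk_lt_rk hi h1).ne
  · exact θ.injective h1
  · exact absurd h (rk_lt_rk hj h1).ne'

private lemma rk_image {n : ℕ} (S : Finset (Fin n)) (θ : Equiv.Perm (Fin n)) :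
    (Sᶜ).image (rk S θ) = Finset.range (Sᶜ).card := by
  apply Finset.eq_of_subset_of_card_le
  · intro k hk
    obtain ⟨i, hi, rfl⟩ := Finset.mem_image.1 hk
    exact Finset.mem_range.2 (rk_lt (Finset.mem_compl.1 hi))
  · rw [Finset.card_range, Finset.card_image_of_injOn (rk_inj S θ)]

private lemma card_rk_lt {n : ℕ} (S : Finset (Fin n)) (θ : Equiv.Perm (Fin n)) {c : ℕ}
    (hc : c ≤ (Sᶜ).card) : ((Sᶜ).filter fun i => rk S θ i < c).card = c := by
  have h1 : ((Sᶜ).filter fun i => rk S θ i < c).image (rk S θ) = Finset.range c := by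
    ext k
    simp only [Finset.mem_image, Finset.mem_filter, Finset.mem_range]
    constructor
    · rintro ⟨i, ⟨_, h⟩, rfl⟩
      exact h
    · intro hk
      have h2 : k ∈ (Sᶜ).image (rk S θ) := by
        rw [rk_image]
        exact Finset.mem_range.2 (hk.trans_le hc)
      obtain ⟨i, hi, rfl⟩ := Finset.mem_image.1 h2
      exact ⟨i, ⟨hi, hk⟩, rfl⟩
  have h3 : (((Sᶜ).filter fun i => rk S θ i < c).image (rk S θ)).card =
      ((Sᶜ).filter fun i => rk S θ i < c).card := by
    apply Finset.card_image_of_injOn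
    exact (rk_inj S θ).mono (by
      intro i hi
      exact (Finset.mem_filter.1 hi).1)
  rw [← h3, h1, Finset.card_range]

private lemma cnt_split {n : ℕ} (S : Finset (Fin n)) (x : Cube n) :
    cnt S x + cnt Sᶜ x = wt x := by
  unfold cnt wt
  rw [← Finset.card_union_of_disjoint, ← Finset.filter_union, Finset.union_compl]
  exact Finset.disjoint_filter_filter disjoint_compl_right

lemma fill_mem {n : ℕ} {S : Finset (Fin n)} {θ : Equiv.Perm (Fin n)} {x : Cube n} {i : Fin n}
    (hi : i ∈ S) : fill S θ x i = x i := by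
  unfold fill
  rw [if_pos hi]

private lemma fill_not_mem {n : ℕ} {S : Finset (Fin n)} {θ : Equiv.Perm (Fin n)} {x : Cube n}
    {i : Fin n} (hi : i ∉ S) : fill S θ x i = decide (rk S θ i < cnt Sᶜ x) := by
  unfold fill
  rw [if_neg hi]
  rfl

private lemma cnt_congr {n : ℕ} {S : Finset (Fin n)} {x y : Cube n} (h : ∀ i ∈ S, x i = y i) :
    cnt S x = cnt S y := by
  unfold cnt
  congr 1
  apply Finset.filter_congr
  intro i hi
  rw [h i hi]

private lemma cnt_compl_fill {n : ℕ} (S : Finset (Fin n)) (θ : Equiv.Perm (Fin n)) (x : Cube n) :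
    cnt Sᶜ (fill S θ x) = cnt Sᶜ x := by
  have h1 : cnt Sᶜ (fill S θ x) = ((Sᶜ).filter fun i => rk S θ i < cnt Sᶜ x).card := by
    unfold cnt
    congr 1
    apply Finset.filter_congr
    intro i hi
    rw [fill_not_mem (Finset.mem_compl.1 hi), decide_eq_true_eq]
    rfl
  rw [h1, card_rk_lt]
  exact Finset.card_filter_le _ _

lemma wt_fill {n : ℕ} (S : Finset (Fin n)) (θ : Equiv.Perm (Fin n)) (x : Cube n) :
    wt (fill S θ x) = wt x := by
  rw [← cnt_split S (fill S θ x), ← cnt_split S x, cnt_compl_fill,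
    cnt_congr fun i hi => fill_mem hi]

lemma fill_congr {n : ℕ} {S : Finset (Fin n)} {θ : Equiv.Perm (Fin n)} {x y : Cube n}
    (h : ∀ i ∈ S, x i = y i) (hw : wt x = wt y) : fill S θ x = fill S θ y := by
  have h1 : cnt Sᶜ x = cnt Sᶜ y := by
    have h2 := cnt_split S x
    have h3 := cnt_split S y
    have h4 := cnt_congr h
    omega
  funext i
  by_cases hi : i ∈ S
  · rw [fill_mem hi, fill_mem hi, h i hi]
  · rw [fill_not_mem hi, fill_not_mem hi, h1]

private lemma ofSub_mem {n : ℕ} {S : Finset (Fin n)} (σ : Equiv.Perm {i // i ∉ S}) {i : Fin n}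
    (hi : i ∈ S) : Equiv.Perm.ofSubtype σ i = i :=
  Equiv.Perm.ofSubtype_apply_of_not_mem σ (not_not.2 hi)

private lemma ofSub_not_mem {n : ℕ} {S : Finset (Fin n)} (σ : Equiv.Perm {i // i ∉ S}) (i : Fin n) :
    Equiv.Perm.ofSubtype σ i ∉ S ↔ i ∉ S := by
  by_cases hi : i ∈ S
  · rw [ofSub_mem σ hi]
  · rw [Equiv.Perm.ofSubtype_apply_of_mem σ hi]
    exact ⟨fun _ => hi, fun _ => (σ ⟨i, hi⟩).2⟩

private lemma rk_mul {n : ℕ} (S : Finset (Fin n)) (θ : Equiv.Perm (Fin n))
    (σ : Equiv.Perm {i // i ∉ S}) (i : Fin n) :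
    rk S (θ * Equiv.Perm.ofSubtype σ) i = rk S θ (Equiv.Perm.ofSubtype σ i) := by
  unfold rk
  apply Finset.card_bij (fun j _ => Equiv.Perm.ofSubtype σ j)
  · intro j hj
    rw [Finset.mem_filter] at hj ⊢
    exact ⟨Finset.mem_univ _, (ofSub_not_mem σ j).2 hj.2.1, hj.2.2⟩
  · intro a _ b _ h
    exact (Equiv.Perm.ofSubtype σ).injective h
  · intro j hj
    rw [Finset.mem_filter] at hj
    obtain ⟨l, rfl⟩ := (Equiv.Perm.ofSubtype σ).surjective j
    refine ⟨l, ?_, rfl⟩
    rw [Finset.mem_filter]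
    exact ⟨Finset.mem_univ _, (ofSub_not_mem σ l).1 hj.2.1, hj.2.2⟩

private lemma fill_mul {n : ℕ} (S : Finset (Fin n)) (θ : Equiv.Perm (Fin n))
    (σ : Equiv.Perm {i // i ∉ S}) (x : Cube n) :
    fill S (θ * Equiv.Perm.ofSubtype σ) x = fun i => fill S θ x (Equiv.Perm.ofSubtype σ i) := by
  funext i
  by_cases hi : i ∈ S
  · rw [fill_mem hi, ofSub_mem σ hi, fill_mem hi]
  · rw [fill_not_mem hi, fill_not_mem ((ofSub_not_mem σ i).2 hi), rk_mul]

private lemma exists_perm_bool {α : Type} [Fintype α] (f g : α → Bool)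
    (h : (univ.filter fun i => g i = true).card = (univ.filter fun i => f i = true).card) :
    ∃ ρ : Equiv.Perm α, ∀ i, g i = f (ρ i) := by
  classical
  have e : ∀ t, Nonempty ({i // g i = t} ≃ {i // f i = t}) := by
    intro t
    rw [← Fintype.card_eq, Fintype.card_subtype, Fintype.card_subtype]
    cases t
    · have h1 : ∀ f : α → Bool, (univ.filter fun i => f i = true).card +
          (univ.filter fun i => f i = false).card = Fintype.card α := by
        intro f
        have h2 := Finset.card_filter_add_card_filter_not (s := (univ : Finset α))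
          (fun i => f i = true)
        simp only [Bool.not_eq_true] at h2
        exact h2
      have h3 := h1 f
      have h4 := h1 g
      omega
    · exact h
  refine ⟨Equiv.ofFiberEquiv fun t => Classical.choice (e t), fun i => ?_⟩
  exact (Equiv.ofFiberEquiv_map (fun t => Classical.choice (e t)) i).symm

private lemma card_sub {n : ℕ} (S : Finset (Fin n)) (x : Cube n) :
    (univ.filter fun i : {i // i ∉ S} => x i = true).card = cnt Sᶜ x := by
  unfold cnt
  apply Finset.card_bij (fun (i : {i // i ∉ S}) _ => (i : Fin n))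
  · intro i hi
    rw [Finset.mem_filter] at hi ⊢
    exact ⟨Finset.mem_compl.2 i.2, hi.2⟩
  · intro a _ b _ h
    exact Subtype.ext h
  · intro j hj
    rw [Finset.mem_filter] at hj
    exact ⟨⟨j, Finset.mem_compl.1 hj.1⟩, Finset.mem_filter.2 ⟨Finset.mem_univ _, hj.2⟩, rfl⟩

private lemma exists_fill {n : ℕ} (S : Finset (Fin n)) (θ : Equiv.Perm (Fin n)) (x : Cube n) :
    ∃ τ : Equiv.Perm {i // i ∉ S}, ∀ i, fill S θ x i = x (Equiv.Perm.ofSubtype τ i) := by
  obtain ⟨τ, hτ⟩ := exists_perm_bool (fun i : {i // i ∉ S} => x i)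
    (fun i : {i // i ∉ S} => fill S θ x i) (by
      rw [card_sub S (fill S θ x), card_sub S x, cnt_compl_fill])
  refine ⟨τ, fun i => ?_⟩
  by_cases hi : i ∈ S
  · rw [fill_mem hi, ofSub_mem τ hi]
  · rw [Equiv.Perm.ofSubtype_apply_of_mem τ hi]
    exact hτ ⟨i, hi⟩

private lemma Ex_comp {n : ℕ} (σ : Equiv.Perm (Fin n)) (F : Cube n → ℝ) :
    Ex (fun x : Cube n => F fun i => x (σ i)) = Ex F :=
  Ex_equiv (Equiv.arrowCongr σ.symm (Equiv.refl Bool)) F

private lemma Ex_fill_sub {n : ℕ} (S : Finset (Fin n)) (θ : Equiv.Perm (Fin n)) (x : Cube n)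
    (F : Cube n → ℝ) :
    Ex (fun σ : Equiv.Perm {i // i ∉ S} =>
        F fun i => fill S θ x (Equiv.Perm.ofSubtype σ i)) =
      Ex (fun σ : Equiv.Perm {i // i ∉ S} => F fun i => x (Equiv.Perm.ofSubtype σ i)) := by
  obtain ⟨τ, hτ⟩ := exists_fill S θ x
  rw [← Ex_equiv (Equiv.mulLeft τ) (fun σ : Equiv.Perm {i // i ∉ S} =>
    F fun i => x (Equiv.Perm.ofSubtype σ i))]
  apply Ex_congr
  intro σ
  congr 1
  funext i
  rw [hτ, Equiv.coe_mulLeft, map_mul, Equiv.Perm.mul_apply]

theorem Ex_fill {n : ℕ} (S : Finset (Fin n)) (F : Cube n → ℝ) :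
    Ex (fun p : Equiv.Perm (Fin n) × Cube n => F (fill S p.1 p.2)) = Ex F := by
  have h1 : ∀ σ : Equiv.Perm {i // i ∉ S},
      Ex (fun p : Equiv.Perm (Fin n) × Cube n => F (fill S p.1 p.2)) =
      Ex (fun p : Equiv.Perm (Fin n) × Cube n =>
        F (fun i => fill S p.1 p.2 (Equiv.Perm.ofSubtype σ i))) := by
    intro σ
    rw [← Ex_equiv (Equiv.prodCongr (Equiv.mulRight (Equiv.Perm.ofSubtype σ)) (Equiv.refl (Cube n)))
      (fun p : Equiv.Perm (Fin n) × Cube n => F (fill S p.1 p.2))]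
    apply Ex_congr
    rintro ⟨θ, x⟩
    exact congrArg F (fill_mul S θ σ x)
  calc Ex (fun p : Equiv.Perm (Fin n) × Cube n => F (fill S p.1 p.2))
      = Ex (fun _ : Equiv.Perm {i // i ∉ S} =>
          Ex (fun p : Equiv.Perm (Fin n) × Cube n => F (fill S p.1 p.2))) := (Ex_const _).symm
    _ = Ex (fun σ : Equiv.Perm {i // i ∉ S} => Ex (fun p : Equiv.Perm (Fin n) × Cube n =>
          F (fun i => fill S p.1 p.2 (Equiv.Perm.ofSubtype σ i)))) := Ex_congr h1
    _ = Ex (fun p : Equiv.Perm (Fin n) × Cube n => Ex (fun σ : Equiv.Perm {i // i ∉ S} =>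
          F (fun i => fill S p.1 p.2 (Equiv.Perm.ofSubtype σ i)))) := Ex_comm _
    _ = Ex (fun p : Equiv.Perm (Fin n) × Cube n => Ex (fun σ : Equiv.Perm {i // i ∉ S} =>
          F (fun i => p.2 (Equiv.Perm.ofSubtype σ i)))) :=
        Ex_congr fun p => Ex_fill_sub S p.1 p.2 F
    _ = Ex (fun σ : Equiv.Perm {i // i ∉ S} => Ex (fun p : Equiv.Perm (Fin n) × Cube n =>
          F (fun i => p.2 (Equiv.Perm.ofSubtype σ i)))) := Ex_comm _
    _ = Ex (fun _ : Equiv.Perm {i // i ∉ S} => Ex F) := by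
        apply Ex_congr
        intro σ
        rw [Ex_snd (fun x : Cube n => F fun i => x (Equiv.Perm.ofSubtype σ i)), Ex_comp]
    _ = Ex F := Ex_const _

end Pool.Agent.MP4d28ec.Suff
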