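import Pool.Agent.Lib.MP_4d28ec_Lift.S0

/-!
The reading map `blow` keeps the weight, reads the first `m` values, and can correct the weight
with large probability.
-/

open Finset

namespace Pool.Agent.MP4d28ec.Suff

open Pool.Agent.H44IT Pool.Agent.MP4d28ec

/-- The value at a place, as a number (`0` outside). -/
def r7_xe {n : ℕ} (x : Cube n) (k : ℕ) : ℕ := if h : k < n then (if x ⟨k, h⟩ = true then 1 else 0) else 0

lemma r7_sum_fin_eq {n : ℕ} (F : ℕ → ℕ) (f : Fin n → ℕ) (h : ∀ i : Fin n, f i = F i) :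
    ∑ i, f i = ∑ i ∈ Finset.range n, F i := by
  rw [← Fin.sum_univ_eq_sum_range]
  exact Finset.sum_congr rfl fun i _ => h i

lemma r7_sum_range_split (F : ℕ → ℕ) {K n : ℕ} (h : K ≤ n) :
    ∑ i ∈ Finset.range n, F i = ∑ i ∈ Finset.range K, F i + ∑ t ∈ Finset.range (n - K), F (K + t) := by
  obtain ⟨r, rfl⟩ := Nat.exists_eq_add_of_le h
  rw [Nat.add_sub_cancel_left]
  induction r with
  | zero => simp
  | succ r ih =>
    rw [← add_assoc, Finset.sum_range_succ, ih (by omega), Finset.sum_range_succ, add_assoc]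

lemma r7_sum_blocks (F : ℕ → ℕ) {L : ℕ} (hL : 0 < L) (m : ℕ) :
    ∑ i ∈ Finset.range (m * L), F (i / L) = L * ∑ k ∈ Finset.range m, F k := by
  induction m with
  | zero => simp
  | succ m ih =>
    rw [r7_sum_range_split (fun i => F (i / L)) (show m * L ≤ (m + 1) * L by nlinarith), ih,
      Finset.sum_range_succ, mul_add]
    congr 1
    have e : (m + 1) * L - m * L = L := by
      rw [Nat.succ_mul]; omega
    rw [e]
    have h : ∀ t ∈ Finset.range L, F ((m * L + t) / L) = F m := by
      intro t ht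
      rw [Finset.mem_range] at ht
      congr 1
      rw [mul_comm m L, Nat.mul_add_div hL, Nat.div_eq_of_lt ht, add_zero]
    rw [Finset.sum_congr rfl h, Finset.sum_const, Finset.card_range, smul_eq_mul]

lemma r7_sum_lt {r w : ℕ} (h : w ≤ r) : ∑ t ∈ Finset.range r, (if t < w then 1 else 0) = w := by
  rw [Finset.sum_ite, Finset.sum_const_zero, add_zero, Finset.sum_const, smul_eq_mul, mul_one]
  have : (Finset.range r).filter (fun t => t < w) = Finset.range w := by
    ext t
    simp only [Finset.mem_filter, Finset.mem_range]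
    omega
  rw [this, Finset.card_range]

lemma r7_front_eq {n m : ℕ} (h : m ≤ n) (x : Cube n) : front m x = ∑ k ∈ Finset.range m, r7_xe x k := by
  unfold front
  rw [Finset.card_filter, r7_sum_fin_eq (fun k => if k < m then r7_xe x k else 0), r7_sum_range_split _ h]
  · have h1 : ∑ k ∈ Finset.range m, (if k < m then r7_xe x k else 0) = ∑ k ∈ Finset.range m, r7_xe x k := by
      apply Finset.sum_congr rfl
      intro k hk
      rw [if_pos (Finset.mem_range.1 hk)]
    have h2 : ∑ t ∈ Finset.range (n - m), (if m + t < m then r7_xe x (m + t) else 0) = 0 := by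
      apply Finset.sum_eq_zero
      intro t _
      rw [if_neg (by omega)]
    rw [h1, h2, add_zero]
  · intro i
    by_cases h1 : (i : ℕ) < m <;> by_cases h2 : x i = true <;> simp [h1, h2, r7_xe]

lemma wt_blow {n m L : ℕ} (h : m * L ≤ n) (hL : 0 < L) (x : Cube n) :
    wt (blow m L x) = wt x := by
  by_cases hf : L * front m x ≤ wt x ∧ wt x + m * L ≤ n + L * front m x
  · have hmn : m ≤ n := le_trans (Nat.le_mul_of_pos_right m hL) h
    rw [wt_eq_sum (blow m L x), r7_sum_fin_eq (fun i => if i < m * L then r7_xe x (i / L) else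
      (if i + L * front m x < m * L + wt x then 1 else 0)), r7_sum_range_split _ h]
    · have h1 : ∑ i ∈ Finset.range (m * L), (if i < m * L then r7_xe x (i / L) else
          (if i + L * front m x < m * L + wt x then 1 else 0)) = L * front m x := by
        rw [r7_front_eq hmn, ← r7_sum_blocks _ hL]
        apply Finset.sum_congr rfl
        intro k hk
        rw [if_pos (Finset.mem_range.1 hk)]
      have h2 : ∑ t ∈ Finset.range (n - m * L), (if m * L + t < m * L then r7_xe x ((m * L + t) / L) else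
          (if m * L + t + L * front m x < m * L + wt x then 1 else 0)) = wt x - L * front m x := by
        rw [← r7_sum_lt (r := n - m * L) (w := wt x - L * front m x) (by omega)]
        apply Finset.sum_congr rfl
        intro t _
        rw [if_neg (by omega)]
        by_cases h3 : t < wt x - L * front m x
        · rw [if_pos h3, if_pos (by omega)]
        · rw [if_neg h3, if_neg (by omega)]
      rw [h1, h2]
      omega
    · intro i
      unfold blow
      rw [if_pos hf]
      by_cases h1 : (i : ℕ) < m * L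
      · have h2 : (i : ℕ) / L < n := lt_of_le_of_lt (Nat.div_le_self _ _) i.2
        simp only [h1, if_true, r7_xe, h2, dif_pos]
      · simp only [h1, if_false, decide_eq_true_eq]
  · have : blow m L x = x := by
      funext i
      unfold blow
      rw [if_neg hf]
    rw [this]

lemma blow_apply {n m L : ℕ} {x : Cube n} (hx : Fits m L x) {i : Fin n} (hi : (i : ℕ) < m * L) :
    blow m L x i = x ⟨(i : ℕ) / L, lt_of_le_of_lt (Nat.div_le_self _ _) i.2⟩ := by
  have hx' : L * front m x ≤ wt x ∧ wt x + m * L ≤ n + L * front m x := hx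
  unfold blow
  rw [if_pos hx', if_pos hi]

/-! ### second moments -/

/-- centred value -/
noncomputable def r7_sg (b : Bool) : ℝ := if b = true then 1 / 2 else -(1 / 2)

lemma r7_sg_not (b : Bool) : r7_sg (!b) = - r7_sg b := by
  cases b <;> simp [r7_sg]

lemma r7_sg_sq (b : Bool) : r7_sg b * r7_sg b = 1 / 4 := by
  cases b <;> norm_num [r7_sg]

/-- r7_flip the value at the place `i` -/
def r7_flip {n : ℕ} (i : Fin n) : Cube n ≃ Cube n :=
  Function.Involutive.toPerm (fun x => Function.update x i (!(x i))) (by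
    intro x
    funext j
    by_cases h : j = i
    · subst h; simp
    · simp [h])

lemma r7_flip_same {n : ℕ} (i : Fin n) (x : Cube n) : r7_flip i x i = !(x i) := by
  change Function.update x i (!(x i)) i = _
  simp

lemma r7_flip_ne {n : ℕ} {i j : Fin n} (h : j ≠ i) (x : Cube n) : r7_flip i x j = x j := by
  change Function.update x i (!(x i)) j = _
  simp [h]

lemma r7_Ex_sg_mul {n : ℕ} (i j : Fin n) :
    Ex (fun x : Cube n => r7_sg (x i) * r7_sg (x j)) = if i = j then 1 / 4 else 0 := by
  by_cases hij : i = j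
  · subst hij
    rw [if_pos rfl]
    have : (fun x : Cube n => r7_sg (x i) * r7_sg (x i)) = fun _ => (1 / 4 : ℝ) := by
      funext x; exact r7_sg_sq _
    rw [this]
    exact Ex_const _
  · rw [if_neg hij]
    have h1 := Ex_equiv (r7_flip i) (fun x : Cube n => r7_sg (x i) * r7_sg (x j))
    have h2 : (fun x : Cube n => r7_sg (r7_flip i x i) * r7_sg (r7_flip i x j)) =
        fun x => (-1) * (r7_sg (x i) * r7_sg (x j)) := by
      funext x
      rw [r7_flip_same, r7_flip_ne (Ne.symm hij), r7_sg_not]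
      ring
    rw [h2, Ex_const_mul] at h1
    linarith

lemma r7_cnt_sub {n : ℕ} (A : Finset (Fin n)) (x : Cube n) :
    (cnt A x : ℝ) - A.card / 2 = ∑ i ∈ A, r7_sg (x i) := by
  unfold cnt
  rw [Finset.card_filter]
  have h : ∀ i ∈ A, r7_sg (x i) = ((if x i = true then 1 else 0 : ℕ) : ℝ) - 1 / 2 := by
    intro i _
    unfold r7_sg
    split_ifs <;> norm_num
  rw [Finset.sum_congr rfl h, Finset.sum_sub_distrib, Finset.sum_const, nsmul_eq_mul]
  push_cast
  ring

lemma r7_Ex_cnt_sq {n : ℕ} (A : Finset (Fin n)) :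
    Ex (fun x : Cube n => ((cnt A x : ℝ) - A.card / 2) ^ 2) = A.card / 4 := by
  have h : (fun x : Cube n => ((cnt A x : ℝ) - A.card / 2) ^ 2) =
      fun x => ∑ i ∈ A, ∑ j ∈ A, r7_sg (x i) * r7_sg (x j) := by
    funext x
    rw [r7_cnt_sub, sq, Finset.sum_mul_sum]
  rw [h, Ex_sum]
  have h2 : ∀ i ∈ A, Ex (fun x : Cube n => ∑ j ∈ A, r7_sg (x i) * r7_sg (x j)) = 1 / 4 := by
    intro i hi
    rw [Ex_sum]
    simp only [r7_Ex_sg_mul]
    rw [Finset.sum_ite_eq, if_pos hi]
  rw [Finset.sum_congr rfl h2, Finset.sum_const, nsmul_eq_mul]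
  ring

/-- Chebyshev -/
lemma r7_Pr_cnt_dev {n : ℕ} (A : Finset (Fin n)) {t : ℝ} (ht : 0 < t) :
    Pr (fun x : Cube n => t ≤ |(cnt A x : ℝ) - A.card / 2|) ≤ A.card / (4 * t ^ 2) := by
  have h1 : Pr (fun x : Cube n => t ≤ |(cnt A x : ℝ) - A.card / 2|) ≤
      Pr (fun x : Cube n => t ^ 2 ≤ ((cnt A x : ℝ) - A.card / 2) ^ 2) := by
    apply Pr_mono
    intro x hx
    rw [← sq_abs ((cnt A x : ℝ) - A.card / 2)]
    exact pow_le_pow_left₀ ht.le hx 2
  have h2 := Pr_le_le (fun x : Cube n => ((cnt A x : ℝ) - A.card / 2) ^ 2)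
    (fun x => sq_nonneg _) (t := t ^ 2) (by positivity)
  rw [r7_Ex_cnt_sq] at h2
  refine h1.trans (h2.trans (le_of_eq ?_))
  rw [div_div]

lemma r7_front_cnt {n m : ℕ} (x : Cube n) :
    front m x = cnt (Finset.univ.filter fun i : Fin n => (i : ℕ) < m) x := by
  unfold front cnt
  rw [Finset.filter_filter]

lemma r7_wt_cnt {n : ℕ} (x : Cube n) : wt x = cnt Finset.univ x := rfl

lemma r7_card_front {n m : ℕ} (h : m ≤ n) :
    (Finset.univ.filter fun i : Fin n => (i : ℕ) < m).card = m := by
  rw [Finset.card_filter, r7_sum_fin_eq (fun k => if k < m then 1 else 0) _ (fun i => rfl)]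
  exact r7_sum_lt h

/-- `m L ≤ n`, the reservoir `n - m L` has at least `θ n` places -/
lemma Pr_not_fits {n m L : ℕ} {θ : ℝ} (hm : 0 < m) (hL : 0 < L) (hθ : 0 < θ)
    (hR : (m : ℝ) * L + θ * n ≤ n) :
    Pr (fun x : Cube n => ¬ Fits m L x) ≤ 4 / (θ ^ 2 * n) + 4 / (θ ^ 2 * m) := by
  have hm' : (0 : ℝ) < m := by exact_mod_cast hm
  have hL' : (0 : ℝ) < L := by exact_mod_cast hL
  have hmL : (0 : ℝ) < (m : ℝ) * L := by positivity
  have hn0 : (0 : ℝ) ≤ n := Nat.cast_nonneg n
  have hn : (0 : ℝ) < n := by nlinarith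
  have hmn' : (m : ℝ) * L ≤ n := by nlinarith
  have hmLn : m * L ≤ n := by exact_mod_cast hmn'
  have hmn : m ≤ n := le_trans (Nat.le_mul_of_pos_right m hL) hmLn
  set A : Finset (Fin n) := Finset.univ.filter fun i : Fin n => (i : ℕ) < m with hA
  have hAc : A.card = m := r7_card_front hmn
  have hsub : ∀ x : Cube n, ¬ Fits m L x →
      θ * n / 4 ≤ |(cnt Finset.univ x : ℝ) - (Finset.univ : Finset (Fin n)).card / 2| ∨
      θ * n / (4 * L) ≤ |(cnt A x : ℝ) - A.card / 2| := by
    intro x hx
    by_contra hcon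
    push Not at hcon
    obtain ⟨h1, h2⟩ := hcon
    apply hx
    rw [hAc, ← r7_front_cnt] at h2
    rw [Finset.card_univ, Fintype.card_fin, ← r7_wt_cnt] at h1
    have h3 : |(L : ℝ) * ((front m x : ℝ) - m / 2)| < θ * n / 4 := by
      rw [abs_mul, abs_of_pos hL']
      calc (L : ℝ) * |(front m x : ℝ) - m / 2| < L * (θ * n / (4 * L)) := by
            exact mul_lt_mul_of_pos_left h2 hL'
        _ = θ * n / 4 := by field_simp
    rw [abs_lt] at h1 h3
    unfold Fits
    constructor
    · have : (L : ℝ) * front m x ≤ wt x := by nlinarith [h1.1, h1.2, h3.1, h3.2]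
      exact_mod_cast this
    · have : (wt x : ℝ) + m * L ≤ n + L * front m x := by nlinarith [h1.1, h1.2, h3.1, h3.2]
      exact_mod_cast this
  refine (Pr_le_add hsub).trans (add_le_add ?_ ?_)
  · refine (r7_Pr_cnt_dev _ (by positivity)).trans (le_of_eq ?_)
    rw [Finset.card_univ, Fintype.card_fin]
    field_simp
  · refine (r7_Pr_cnt_dev _ (by positivity)).trans ?_
    rw [hAc]
    have e : (m : ℝ) / (4 * (θ * n / (4 * L)) ^ 2) = 4 * (m * L ^ 2) / (θ ^ 2 * n ^ 2) := by
      field_simp
    rw [e, div_le_div_iff₀ (by positivity) (by positivity)]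
    have h4 : ((m : ℝ) * L) ^ 2 ≤ n ^ 2 := pow_le_pow_left₀ hmL.le hmn' 2
    have h5 : (0 : ℝ) < θ ^ 2 := by positivity
    nlinarith [mul_le_mul_of_nonneg_left h4 h5.le]

end Pool.Agent.MP4d28ec.Suff
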