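import Pool.Agent.Lib.MP_4d28ec_h44.Avg
import Pool.Agent.Lib.MP_4d28ec_h44.Low2
import Pool.Agent.Lib.MP_4d28ec_h44.Dist

/-!
Definitions and first lemmas for the theorem that every family which is close to partially
symmetric functions is efficiently isomorphism testable.
-/

open Finset

namespace Pool.Agent.MP4d28ec.Suff

open Pool.Agent.H44IT Pool.Agent.MP4d28ec

/-- `h` depends only on the coordinates in `S` and on the weight. -/
def Dep {n : ℕ} (S : Finset (Fin n)) (h : Cube n → Bool) : Prop :=
  ∀ x y : Cube n, (∀ i ∈ S, x i = y i) → wt x = wt y → h x = h y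

/-- `f` is `η`-close to a function of the coordinates in `S` and the weight. -/
def PSon {n : ℕ} (S : Finset (Fin n)) (η : ℝ) (f : Cube n → Bool) : Prop :=
  ∃ h : Cube n → Bool, Dep S h ∧ dist f h ≤ η

/-- The union of the cells in `κ`. -/
def cell {n m : ℕ} (c : Fin n → Fin m) (κ : Finset (Fin m)) : Finset (Fin n) :=
  Finset.univ.filter fun i => c i ∈ κ

/-- The number of ones of `x` at the places in `A`. -/
def cnt {n : ℕ} (A : Finset (Fin n)) (x : Cube n) : ℕ := (A.filter fun i => x i = true).card

/-- Keep `x` on `S`, and outside `S` put the ones of `x` at the first places in the order `θ`. -/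
def fill {n : ℕ} (S : Finset (Fin n)) (θ : Equiv.Perm (Fin n)) (x : Cube n) : Cube n := fun i =>
  if i ∈ S then x i else
    decide ((Finset.univ.filter fun j => j ∉ S ∧ θ j < θ i).card < cnt Sᶜ x)

/-- `x` on `A` and `y` outside of `A`. -/
def mx {n : ℕ} (A : Finset (Fin n)) (x y : Cube n) : Cube n := fun i => if i ∈ A then x i else y i

/-! ### row statements -/

/-- The condition of the test A. -/
def AOk {n m : ℕ} (k N : ℕ) (η : ℝ) (f : Cube n → Bool)
    (w : (Fin n → Fin m) × Equiv.Perm (Fin n) × (Fin N → Cube n)) : Prop :=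
  ∃ κ : Finset (Fin m), κ.card = k ∧
    ((Finset.univ.filter fun s : Fin N =>
      f (w.2.2 s) ≠ f (fill (cell w.1 κ) w.2.1 (w.2.2 s))).card : ℝ) ≤ η * N

/-- The number of ones among the first `m` places. -/
def front {n : ℕ} (m : ℕ) (x : Cube n) : ℕ := (Finset.univ.filter fun i : Fin n => (i : ℕ) < m ∧
  x i = true).card

/-- The reading map: the `j`-th block of length `L` (`j < m`) gets the value `x_j`, and the other
places are filled so that the weight is the weight of `x`. -/
def blow {n : ℕ} (m L : ℕ) (x : Cube n) : Cube n := fun i =>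
  if L * front m x ≤ wt x ∧ wt x + m * L ≤ n + L * front m x then
    if (i : ℕ) < m * L then x ⟨(i : ℕ) / L, lt_of_le_of_lt (Nat.div_le_self _ _) i.2⟩ else
      decide ((i : ℕ) + L * front m x < m * L + wt x)
  else x i

/-- The weight can be corrected. -/
def Fits {n : ℕ} (m L : ℕ) (x : Cube n) : Prop :=
  L * front m x ≤ wt x ∧ wt x + m * L ≤ n + L * front m x

/-- The condition of the test B. -/
def BOk {n : ℕ} (m L k N : ℕ) (η : ℝ) (H : (Fin k → Bool) → ℕ → Bool) (f : Cube n → Bool)
    (w : Equiv.Perm (Fin n) × (Fin N → Cube n)) : Prop :=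
  ∃ C : Fin k → Fin n, Function.Injective C ∧ (∀ i, (C i : ℕ) < m) ∧
    ((Finset.univ.filter fun s : Fin N =>
      f (fun i => blow m L (w.2 s) (w.1 i)) ≠ H (fun a => w.2 s (C a)) (wt (w.2 s))).card : ℝ) ≤
        η * N

end Pool.Agent.MP4d28ec.Suff
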