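import Mathlib

/-!
The average sensitivity of a polynomial threshold function of bounded degree on `m` bits is
`o(m)` (the elementary induction of Diakonikolas, Raghavendra, Servedio and Tan).
-/

open Finset

namespace Pool.Agent.MP4d28ec.Sens

/-- The sign `1` or `-1` of a bit. -/
noncomputable def sg (b : Bool) : ℝ := if b then 1 else -1

lemma sg_mul_self (b : Bool) : sg b * sg b = 1 := by cases b <;> simp [sg]

lemma sg_not (b : Bool) : sg (!b) = - sg b := by cases b <;> simp [sg]

lemma abs_sg (b : Bool) : |sg b| = 1 := by cases b <;> simp [sg]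

/-- The character of the set `S`. -/
noncomputable def chi {m : ℕ} (S : Finset (Fin m)) : (Fin m → Bool) → ℝ :=
  fun σ => ∏ i ∈ S, sg (σ i)

/-- Real functions on the cube of degree at most `D`. -/
noncomputable def V (m D : ℕ) : Submodule ℝ ((Fin m → Bool) → ℝ) :=
  Submodule.span ℝ {P | ∃ S : Finset (Fin m), S.card ≤ D ∧ P = chi S}

lemma chi_mem {m D : ℕ} {S : Finset (Fin m)} (h : S.card ≤ D) : chi S ∈ V m D :=
  Submodule.subset_span ⟨S, h, rfl⟩

lemma V_mono {m D E : ℕ} (h : D ≤ E) : V m D ≤ V m E := by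
  apply Submodule.span_mono
  rintro P ⟨S, hS, rfl⟩
  exact ⟨S, hS.trans h, rfl⟩

lemma const_mem {m D : ℕ} (c : ℝ) : (fun _ => c : (Fin m → Bool) → ℝ) ∈ V m D := by
  have h : (fun _ => c : (Fin m → Bool) → ℝ) = c • chi ∅ := by
    funext σ
    simp [chi]
  rw [h]
  exact Submodule.smul_mem _ _ (chi_mem (by simp))

lemma chi_mul {m : ℕ} (S T : Finset (Fin m)) : chi S * chi T = chi (symmDiff S T) := by
  funext σ
  simp only [Pi.mul_apply, chi]
  have h1 : ∏ i ∈ S, sg (σ i) = (∏ i ∈ S \ T, sg (σ i)) * ∏ i ∈ S ∩ T, sg (σ i) := by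
    rw [← Finset.prod_union (Finset.disjoint_sdiff_inter S T), Finset.sdiff_union_inter]
  have h2 : ∏ i ∈ T, sg (σ i) = (∏ i ∈ T \ S, sg (σ i)) * ∏ i ∈ S ∩ T, sg (σ i) := by
    rw [Finset.inter_comm S T, ← Finset.prod_union (Finset.disjoint_sdiff_inter T S),
      Finset.sdiff_union_inter]
  have h3 : (∏ i ∈ S ∩ T, sg (σ i)) * (∏ i ∈ S ∩ T, sg (σ i)) = 1 := by
    rw [← Finset.prod_mul_distrib]
    exact Finset.prod_eq_one fun i _ => sg_mul_self _
  have h4 : ∏ i ∈ symmDiff S T, sg (σ i) = (∏ i ∈ S \ T, sg (σ i)) * ∏ i ∈ T \ S, sg (σ i) := by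
    rw [symmDiff_def, Finset.sup_eq_union, Finset.prod_union]
    exact disjoint_sdiff_sdiff
  rw [h1, h2, h4]
  linear_combination (∏ i ∈ S \ T, sg (σ i)) * (∏ i ∈ T \ S, sg (σ i)) * h3

lemma mul_mem {m a b : ℕ} {P Q : (Fin m → Bool) → ℝ} (hP : P ∈ V m a) (hQ : Q ∈ V m b) :
    P * Q ∈ V m (a + b) := by
  have h : V m a * V m b ≤ V m (a + b) := by
    unfold V
    rw [Submodule.span_mul_span]
    apply Submodule.span_mono
    rintro _ ⟨_, ⟨S, hS, rfl⟩, _, ⟨T, hT, rfl⟩, rfl⟩
    refine ⟨symmDiff S T, ?_, chi_mul S T⟩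
    calc (symmDiff S T).card ≤ (S ∪ T).card := by
          apply Finset.card_le_card
          intro i hi
          rw [Finset.mem_symmDiff] at hi
          rw [Finset.mem_union]
          tauto
      _ ≤ S.card + T.card := Finset.card_union_le _ _
      _ ≤ a + b := by omega
  exact h (Submodule.mul_mem_mul hP hQ)

/-- The discrete derivative. -/
noncomputable def der {m : ℕ} (i : Fin m) (P : (Fin m → Bool) → ℝ) : (Fin m → Bool) → ℝ :=
  fun σ => (P (Function.update σ i true) - P (Function.update σ i false)) / 2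

lemma der_chi {m : ℕ} (i : Fin m) (S : Finset (Fin m)) :
    der i (chi S) = if i ∈ S then chi (S.erase i) else 0 := by
  funext σ
  by_cases h : i ∈ S
  · rw [if_pos h]
    have key : ∀ b : Bool, chi S (Function.update σ i b) = sg b * chi (S.erase i) σ := by
      intro b
      simp only [chi]
      rw [← Finset.mul_prod_erase S _ h, Function.update_self]
      congr 1
      apply Finset.prod_congr rfl
      intro j hj
      rw [Function.update_of_ne (Finset.ne_of_mem_erase hj)]
    simp only [der, key, sg]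
    norm_num
  · rw [if_neg h]
    have key : ∀ b : Bool, chi S (Function.update σ i b) = chi S σ := by
      intro b
      simp only [chi]
      apply Finset.prod_congr rfl
      intro j hj
      have hne : j ≠ i := fun e => h (by rw [← e]; exact hj)
      rw [Function.update_of_ne hne]
    simp [der, key]

lemma der_mem {m D : ℕ} (i : Fin m) {P : (Fin m → Bool) → ℝ} (hP : P ∈ V m (D + 1)) :
    der i P ∈ V m D := by
  unfold V at hP
  induction hP using Submodule.span_induction with
  | mem P h =>
    obtain ⟨S, hS, rfl⟩ := h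
    rw [der_chi]
    by_cases h : i ∈ S
    · rw [if_pos h]
      apply chi_mem
      rw [Finset.card_erase_of_mem h]
      omega
    · rw [if_neg h]
      exact Submodule.zero_mem _
  | zero =>
    have : der i (0 : (Fin m → Bool) → ℝ) = 0 := by
      funext σ
      simp [der]
    rw [this]
    exact Submodule.zero_mem _
  | add P Q _ _ h1 h2 =>
    have : der i (P + Q) = der i P + der i Q := by
      funext σ
      simp only [der, Pi.add_apply]
      ring
    rw [this]
    exact Submodule.add_mem _ h1 h2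
  | smul c P _ h =>
    have : der i (c • P) = c • der i P := by
      funext σ
      simp only [der, Pi.smul_apply, smul_eq_mul]
      ring
    rw [this]
    exact Submodule.smul_mem _ _ h

lemma mem_V_zero {m : ℕ} {P : (Fin m → Bool) → ℝ} (hP : P ∈ V m 0) : ∃ c, ∀ σ, P σ = c := by
  unfold V at hP
  induction hP using Submodule.span_induction with
  | mem P h =>
    obtain ⟨S, hS, rfl⟩ := h
    have hS' : S = ∅ := by
      rw [← Finset.card_eq_zero]
      omega
    subst hS'
    exact ⟨1, fun σ => by simp [chi]⟩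
  | zero => exact ⟨0, fun σ => rfl⟩
  | add P Q _ _ h1 h2 =>
    obtain ⟨c, hc⟩ := h1
    obtain ⟨d, hd⟩ := h2
    exact ⟨c + d, fun σ => by rw [Pi.add_apply, hc, hd]⟩
  | smul c P _ h =>
    obtain ⟨d, hd⟩ := h
    exact ⟨c * d, fun σ => by rw [Pi.smul_apply, hd, smul_eq_mul]⟩

/-- Flip one bit. -/
def flip {m : ℕ} (i : Fin m) (σ : Fin m → Bool) : Fin m → Bool := Function.update σ i (!σ i)

lemma flip_same {m : ℕ} (i : Fin m) (σ : Fin m → Bool) : flip i σ i = !σ i := by simp [flip]

lemma flip_ne {m : ℕ} {i j : Fin m} (h : j ≠ i) (σ : Fin m → Bool) : flip i σ j = σ j := by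
  simp [flip, h]

lemma flip_flip {m : ℕ} (i : Fin m) (σ : Fin m → Bool) : flip i (flip i σ) = σ := by
  funext j
  by_cases h : j = i
  · subst h
    rw [flip_same, flip_same, Bool.not_not]
  · rw [flip_ne h, flip_ne h]

lemma sum_flip {m : ℕ} (i : Fin m) (f : (Fin m → Bool) → ℝ) :
    ∑ σ, f (flip i σ) = ∑ σ, f σ :=
  Equiv.sum_comp (⟨flip i, flip i, flip_flip i, flip_flip i⟩ : (Fin m → Bool) ≃ (Fin m → Bool)) f

lemma der_flip {m : ℕ} (i : Fin m) (P : (Fin m → Bool) → ℝ) (σ : Fin m → Bool) :
    der i P (flip i σ) = der i P σ := by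
  simp [der, flip]

/-- The threshold of a real function. -/
noncomputable def th {m : ℕ} (P : (Fin m → Bool) → ℝ) (σ : Fin m → Bool) : Bool :=
  decide (0 ≤ P σ)

/-- `2 ^ m` times the average sensitivity. -/
noncomputable def sens {m : ℕ} (f : (Fin m → Bool) → Bool) : ℝ :=
  ∑ i, ∑ σ, if f σ ≠ f (flip i σ) then (1 : ℝ) else 0

lemma der_sub {m : ℕ} (i : Fin m) (P : (Fin m → Bool) → ℝ) (σ : Fin m → Bool) :
    P σ - P (flip i σ) = 2 * sg (σ i) * der i P σ := by
  unfold der flip sg
  cases h : σ i
  · have h1 : Function.update σ i false = σ := by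
      rw [← h, Function.update_eq_self]
    simp [h1]
    ring
  · have h1 : Function.update σ i true = σ := by
      rw [← h, Function.update_eq_self]
    simp [h1]
    ring

lemma influence {m : ℕ} (i : Fin m) (P : (Fin m → Bool) → ℝ) :
    (∑ σ, if th P σ ≠ th P (flip i σ) then (1 : ℝ) else 0) =
      ∑ σ, sg (th P σ) * (sg (σ i) * sg (th (der i P) σ)) := by
  have h1 : ∑ σ, sg (th P σ) * (sg (σ i) * sg (th (der i P) σ)) =
      ∑ σ, sg (th P (flip i σ)) * (sg (flip i σ i) * sg (th (der i P) (flip i σ))) :=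
    (sum_flip i fun σ => sg (th P σ) * (sg (σ i) * sg (th (der i P) σ))).symm
  have h2 : ∀ σ, (sg (th P σ) * (sg (σ i) * sg (th (der i P) σ)) +
      sg (th P (flip i σ)) * (sg (flip i σ i) * sg (th (der i P) (flip i σ)))) =
      2 * if th P σ ≠ th P (flip i σ) then (1 : ℝ) else 0 := by
    intro σ
    have e1 : th (der i P) (flip i σ) = th (der i P) σ := by simp [th, der_flip]
    rw [e1, flip_same, sg_not]
    have hd := der_sub i P σ
    by_cases hP : 0 ≤ P σ <;> by_cases hF : 0 ≤ P (flip i σ)
    · have e2 : th P σ = true := by simp [th, hP]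
      have e3 : th P (flip i σ) = true := by simp [th, hF]
      rw [e2, e3]
      simp
    · have hs : 0 < sg (σ i) * der i P σ := by
        push Not at hF
        nlinarith
      have : sg (σ i) * sg (th (der i P) σ) = 1 := by
        cases h : σ i
        · rw [h] at hs
          have h3 : ¬ 0 ≤ der i P σ := by
            simp only [sg] at hs
            norm_num at hs
            linarith
          simp [th, sg, h3]
        · rw [h] at hs
          have h3 : 0 ≤ der i P σ := by
            simp only [sg] at hs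
            norm_num at hs
            linarith
          simp [th, sg, h3]
      have e2 : th P σ = true := by simp [th, hP]
      have e3 : th P (flip i σ) = false := by simp [th, hF]
      rw [e2, e3]
      simp only [sg, Bool.false_eq_true, if_false, if_true, ne_eq, reduceCtorEq,
        not_false_eq_true] at this ⊢
      nlinarith [this]
    · have hs : sg (σ i) * der i P σ < 0 := by
        push Not at hP
        nlinarith
      have : sg (σ i) * sg (th (der i P) σ) = -1 := by
        cases h : σ i
        · rw [h] at hs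
          have h3 : 0 ≤ der i P σ := by
            simp only [sg] at hs
            norm_num at hs
            linarith
          simp [th, sg, h3]
        · rw [h] at hs
          have h3 : ¬ 0 ≤ der i P σ := by
            simp only [sg] at hs
            norm_num at hs
            linarith
          simp [th, sg, h3]
      have e2 : th P σ = false := by simp [th, hP]
      have e3 : th P (flip i σ) = true := by simp [th, hF]
      rw [e2, e3]
      simp only [sg, Bool.false_eq_true, if_false, if_true, ne_eq,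
        not_false_eq_true] at this ⊢
      nlinarith [this]
    · have e2 : th P σ = false := by simp [th, hP]
      have e3 : th P (flip i σ) = false := by simp [th, hF]
      rw [e2, e3]
      simp
  have h3 : ∑ σ, (sg (th P σ) * (sg (σ i) * sg (th (der i P) σ)) +
      sg (th P (flip i σ)) * (sg (flip i σ i) * sg (th (der i P) (flip i σ)))) =
      ∑ σ, 2 * (if th P σ ≠ th P (flip i σ) then (1 : ℝ) else 0) :=
    Finset.sum_congr rfl fun σ _ => h2 σ
  rw [Finset.sum_add_distrib, ← h1, ← Finset.mul_sum] at h3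
  linarith

lemma cross {m : ℕ} {i j : Fin m} (hij : i ≠ j) (P : (Fin m → Bool) → ℝ) :
    ∑ σ, (sg (σ i) * sg (th (der i P) σ)) * (sg (σ j) * sg (th (der j P) σ)) ≤
      ∑ σ, if th (der j P) σ ≠ th (der j P) (flip i σ) then (1 : ℝ) else 0 := by
  have h1 := (sum_flip i fun σ =>
    (sg (σ i) * sg (th (der i P) σ)) * (sg (σ j) * sg (th (der j P) σ))).symm
  have h2 : ∀ σ, (sg (σ i) * sg (th (der i P) σ)) * (sg (σ j) * sg (th (der j P) σ)) +
      (sg (flip i σ i) * sg (th (der i P) (flip i σ))) *
        (sg (flip i σ j) * sg (th (der j P) (flip i σ))) ≤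
      2 * if th (der j P) σ ≠ th (der j P) (flip i σ) then (1 : ℝ) else 0 := by
    intro σ
    have e1 : th (der i P) (flip i σ) = th (der i P) σ := by simp [th, der_flip]
    rw [e1, flip_same, sg_not, flip_ne hij.symm]
    generalize th (der i P) σ = a
    generalize th (der j P) σ = b
    generalize th (der j P) (flip i σ) = c
    generalize σ i = u
    generalize σ j = v
    cases a <;> cases b <;> cases c <;> cases u <;> cases v <;> norm_num [sg]
  have h3 := Finset.sum_le_sum fun σ (_ : σ ∈ (Finset.univ : Finset (Fin m → Bool))) => h2 σ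
  rw [Finset.sum_add_distrib, ← h1, ← Finset.mul_sum] at h3
  linarith

lemma sens_sq {m : ℕ} (P : (Fin m → Bool) → ℝ) :
    sens (th P) ^ 2 ≤ 2 ^ m * (m * 2 ^ m + ∑ j, sens (th (der j P))) := by
  set A : Fin m → (Fin m → Bool) → ℝ := fun i σ => sg (σ i) * sg (th (der i P) σ) with hA
  have h1 : sens (th P) = ∑ σ, sg (th P σ) * ∑ i, A i σ := by
    unfold sens
    rw [Finset.sum_congr rfl fun i _ => influence i P, Finset.sum_comm]
    simp only [Finset.mul_sum, hA]
  have h2 : sens (th P) ^ 2 ≤ 2 ^ m * ∑ σ, (∑ i, A i σ) ^ 2 := by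
    rw [h1]
    have h := Finset.sum_mul_sq_le_sq_mul_sq Finset.univ (fun σ => sg (th P σ))
      (fun σ => ∑ i, A i σ)
    have h' : ∑ σ : Fin m → Bool, (sg (th P σ)) ^ 2 = 2 ^ m := by
      simp [sq, sg_mul_self]
    rw [h'] at h
    exact h
  refine h2.trans ?_
  apply mul_le_mul_of_nonneg_left _ (by positivity)
  have h3 : ∑ σ, (∑ i, A i σ) ^ 2 = ∑ j, ∑ i, ∑ σ, A i σ * A j σ := by
    have : ∀ σ, (∑ i, A i σ) ^ 2 = ∑ j, ∑ i, A i σ * A j σ := by
      intro σ
      rw [sq, Finset.sum_mul_sum, Finset.sum_comm]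
    simp_rw [this]
    rw [Finset.sum_comm]
    apply Finset.sum_congr rfl
    intro j _
    rw [Finset.sum_comm]
  rw [h3]
  have h4 : ∀ j, ∑ i, ∑ σ, A i σ * A j σ ≤ 2 ^ m + sens (th (der j P)) := by
    intro j
    have hdiag : ∑ σ, A j σ * A j σ = 2 ^ m := by
      have : ∀ σ, A j σ * A j σ = 1 := by
        intro σ
        simp only [hA]
        have e1 := sg_mul_self (σ j)
        have e2 := sg_mul_self (th (der j P) σ)
        calc sg (σ j) * sg (th (der j P) σ) * (sg (σ j) * sg (th (der j P) σ))
            = (sg (σ j) * sg (σ j)) * (sg (th (der j P) σ) * sg (th (der j P) σ)) := by ring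
          _ = 1 := by rw [e1, e2, one_mul]
      simp [this]
    rw [← Finset.add_sum_erase Finset.univ _ (Finset.mem_univ j), hdiag]
    have hsens : ∑ i ∈ Finset.univ.erase j, ∑ σ, A i σ * A j σ ≤ sens (th (der j P)) := by
      unfold sens
      calc ∑ i ∈ Finset.univ.erase j, ∑ σ, A i σ * A j σ
          ≤ ∑ i ∈ Finset.univ.erase j, ∑ σ,
            (if th (der j P) σ ≠ th (der j P) (flip i σ) then (1 : ℝ) else 0) := by
            apply Finset.sum_le_sum
            intro i hi
            exact cross (Finset.ne_of_mem_erase hi) P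
        _ ≤ _ := by
            apply Finset.sum_le_sum_of_subset_of_nonneg (Finset.erase_subset _ _)
            intro i _ _
            apply Finset.sum_nonneg
            intro σ _
            split_ifs <;> norm_num
    linarith
  calc ∑ j, ∑ i, ∑ σ, A i σ * A j σ ≤ ∑ j : Fin m, (2 ^ m + sens (th (der j P))) :=
        Finset.sum_le_sum fun j _ => h4 j
    _ = m * 2 ^ m + ∑ j, sens (th (der j P)) := by
        rw [Finset.sum_add_distrib]
        simp

lemma sens_nonneg {m : ℕ} (f : (Fin m → Bool) → Bool) : 0 ≤ sens f := by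
  unfold sens
  apply Finset.sum_nonneg
  intro i _
  apply Finset.sum_nonneg
  intro σ _
  split_ifs <;> norm_num

/-- The average sensitivity of a threshold function of degree at most `D` on `m` bits is at most
`ε m` if `m` is large. -/
theorem sens_le (D : ℕ) : ∀ ε : ℝ, 0 < ε → ∃ M : ℕ, ∀ m : ℕ, M ≤ m →
    ∀ P ∈ V m D, sens (th P) ≤ ε * m * 2 ^ m := by
  induction D with
  | zero =>
    intro ε hε
    refine ⟨0, fun m _ P hP => ?_⟩
    obtain ⟨c, hc⟩ := mem_V_zero hP
    have : sens (th P) = 0 := by simp [sens, th, hc]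
    rw [this]
    positivity
  | succ D ih =>
    intro ε hε
    obtain ⟨M, hM⟩ := ih (ε ^ 2 / 2) (by positivity)
    obtain ⟨M', hM'⟩ := exists_nat_gt (2 / ε ^ 2)
    refine ⟨max M (M' + 1), fun m hm P hP => ?_⟩
    have hm1 : M ≤ m := le_trans (le_max_left _ _) hm
    have hm2 : M' + 1 ≤ m := le_trans (le_max_right _ _) hm
    have hm0 : (0 : ℝ) < m := by
      have : 0 < m := by omega
      exact_mod_cast this
    have hmε : 2 ≤ ε ^ 2 * m := by
      have : (M' : ℝ) ≤ m := by
        have : M' ≤ m := by omega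
        exact_mod_cast this
      have h2 : 2 / ε ^ 2 < m := lt_of_lt_of_le hM' this
      rw [div_lt_iff₀ (by positivity)] at h2
      linarith
    have h1 := sens_sq P
    have h2 : ∑ j, sens (th (der j P)) ≤ m * (ε ^ 2 / 2 * m * 2 ^ m) := by
      calc ∑ j, sens (th (der j P)) ≤ ∑ _j : Fin m, (ε ^ 2 / 2 * m * 2 ^ m) :=
            Finset.sum_le_sum fun j _ => hM m hm1 _ (der_mem j hP)
        _ = _ := by simp
    have h3 : sens (th P) ^ 2 ≤ (ε * m * 2 ^ m) ^ 2 := by
      have hp : (0 : ℝ) < 2 ^ m := by positivity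
      calc sens (th P) ^ 2 ≤ 2 ^ m * (m * 2 ^ m + ∑ j, sens (th (der j P))) := h1
        _ ≤ 2 ^ m * (m * 2 ^ m + m * (ε ^ 2 / 2 * m * 2 ^ m)) := by
            apply mul_le_mul_of_nonneg_left _ hp.le
            linarith
        _ ≤ (ε * m * 2 ^ m) ^ 2 := by
            have : (ε * m * 2 ^ m) ^ 2 - 2 ^ m * (m * 2 ^ m + m * (ε ^ 2 / 2 * m * 2 ^ m)) =
                (2 ^ m) ^ 2 * m * (ε ^ 2 * m - 2) / 2 := by ring
            have h4 : 0 ≤ (2 ^ m) ^ 2 * (m : ℝ) * (ε ^ 2 * m - 2) / 2 := by
              have : 0 ≤ ε ^ 2 * m - 2 := by linarith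
              positivity
            linarith
    exact (abs_le_of_sq_le_sq' h3 (by positivity)).2

end Pool.Agent.MP4d28ec.Sens
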