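import Pool.Agent.Lib.MP_4d28ec_Lift.Defs
import Pool.Agent.Lib.MP_4d28ec_Lift.R1
import Pool.Agent.Lib.MP_4d28ec_Lift.R10
import Pool.Agent.Lib.MP_4d28ec_Lift.R12
import Pool.Agent.Lib.MP_4d28ec_Lift.R13
import Pool.Agent.Lib.MP_4d28ec_Lift.R14
import Pool.Agent.Lib.MP_4d28ec_Lift.R16
import Pool.Agent.Lib.MP_4d28ec_Lift.R17
import Pool.Agent.Lib.MP_4d28ec_Lift.R18
import Pool.Agent.Lib.MP_4d28ec_Lift.R19

/-!
Every family which is close to partially symmetric functions is efficiently isomorphism testable.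
-/

open Finset

namespace Pool.Agent.MP4d28ec.Suff

open Pool.Agent.H44IT Pool.Agent.MP4d28ec

lemma ps_succ {n k : ℕ} (hn : 0 < n) {h : Cube n → Bool} (hh : PartiallySymmetric k h) :
    PartiallySymmetric (k + 1) h := by
  obtain ⟨ρ, H, hH⟩ := hh
  refine ⟨Fin.cons ⟨0, hn⟩ ρ, fun a w => H (fun i => a i.succ) w, fun x => ?_⟩
  rw [hH x]
  rfl

lemma permute_rep {n k : ℕ} (ρ : Fin k → Fin n) (H : (Fin k → Bool) → ℕ → Bool)
    (π : Equiv.Perm (Fin n)) :
    permute (fun x : Cube n => H (fun a => x (ρ a)) (wt x)) π =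
      fun x : Cube n => H (fun a => x (π (ρ a))) (wt x) := by
  funext x
  show H (fun a => x (π (ρ a))) (wt (fun i => x (π i))) = _
  rw [wt_perm]

/-- The acceptance probability of both tests is the product of the probabilities. -/
lemma Pr_both {α β : Type} [Fintype α] [Fintype β] (p : α → Prop) (q : β → Prop) :
    Pr (fun w : α × β => p w.1 ∧ q w.2) = Pr p * Pr q := Pr_and_fst_snd p q

theorem testable_large {k : ℕ} (hk : 0 < k) {η : ℝ} (hη : 0 < η) :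
    ∃ q n₀ : ℕ, ∀ n ≥ n₀, ∀ g h : Cube n → Bool, PartiallySymmetric k h → dist g h ≤ η →
      ∃ A : RandAlg n q, IsTester (500 * η) g A := by
  classical
  -- parameters of the test A
  obtain ⟨m, hm1, hm2, hm3⟩ := exists_m k hk (⌈8 * (k : ℝ)⌉₊ + ⌈8 * (k : ℝ) / η ^ 2⌉₊ + 1)
  have hm0 : 0 < m := by omega
  have hmR : (0 : ℝ) < m := by exact_mod_cast hm0
  have hkR : (0 : ℝ) < k := by exact_mod_cast hk
  have hm4 : 8 * (k : ℝ) ≤ m := by
    have h1 : (8 * (k : ℝ)) ≤ ⌈8 * (k : ℝ)⌉₊ := Nat.le_ceil _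
    have h2 : ((⌈8 * (k : ℝ)⌉₊ : ℕ) : ℝ) ≤ m := by
      exact_mod_cast (by omega : ⌈8 * (k : ℝ)⌉₊ ≤ m)
    linarith
  have hm5 : 8 * (k : ℝ) / η ^ 2 ≤ m := by
    have h1 : (8 * (k : ℝ) / η ^ 2) ≤ ⌈8 * (k : ℝ) / η ^ 2⌉₊ := Nat.le_ceil _
    have h2 : ((⌈8 * (k : ℝ) / η ^ 2⌉₊ : ℕ) : ℝ) ≤ m := by
      exact_mod_cast (by omega : ⌈8 * (k : ℝ) / η ^ 2⌉₊ ≤ m)
    linarith
  have hmη : 2 * (k : ℝ) / m ≤ 1 / 4 := by
    rw [div_le_iff₀ hmR]; linarith
  have hmη' : 2 * Real.sqrt (2 * (k : ℝ) / m) ≤ η := by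
    have h1 : 2 * (k : ℝ) / m ≤ (η / 2) ^ 2 := by
      rw [div_le_iff₀ (by positivity)] at hm5
      rw [div_le_iff₀ hmR]
      nlinarith
    have h2 : Real.sqrt (2 * (k : ℝ) / m) ≤ η / 2 := by
      rw [← Real.sqrt_sq (by positivity : 0 ≤ η / 2)]
      exact Real.sqrt_le_sqrt h1
    linarith
  obtain ⟨N, hN0, hN⟩ : ∃ N : ℕ, 0 < N ∧ (2 : ℝ) ^ m / (N * η ^ 2) ≤ 1 / 24 := by
    refine ⟨⌈24 * (2 : ℝ) ^ m / η ^ 2⌉₊, Nat.ceil_pos.2 (by positivity), ?_⟩
    have h1 : 24 * (2 : ℝ) ^ m / η ^ 2 ≤ ⌈24 * (2 : ℝ) ^ m / η ^ 2⌉₊ := Nat.le_ceil _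
    have h2 : (0 : ℝ) < ⌈24 * (2 : ℝ) ^ m / η ^ 2⌉₊ := lt_of_lt_of_le (by positivity) h1
    rw [div_le_iff₀ (by positivity)] at h1 ⊢
    linarith
  -- parameters of the test B
  obtain ⟨m', hm'0, hblk, n₁, hn₁⟩ := B_params k hk hη
  have hm'R : (0 : ℝ) < m' := by exact_mod_cast hm'0
  obtain ⟨N', hN'0, hN'⟩ : ∃ N' : ℕ, 0 < N' ∧ (m' : ℝ) ^ k / (N' * η ^ 2) ≤ 1 / 24 := by
    refine ⟨⌈24 * (m' : ℝ) ^ k / η ^ 2⌉₊, Nat.ceil_pos.2 (by positivity), ?_⟩
    have h1 : 24 * (m' : ℝ) ^ k / η ^ 2 ≤ ⌈24 * (m' : ℝ) ^ k / η ^ 2⌉₊ := Nat.le_ceil _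
    have h2 : (0 : ℝ) < ⌈24 * (m' : ℝ) ^ k / η ^ 2⌉₊ := lt_of_lt_of_le (by positivity) h1
    rw [div_le_iff₀ (by positivity)] at h1 ⊢
    linarith
  set q : ℕ := N * (1 + 2 ^ m) + N' with hq
  refine ⟨300 * q, n₁ + 8 * m ^ 2 + k + 1, fun n hn g h hh hgh => ?_⟩
  obtain ⟨hn0, hm'n, L, hL, hmL, hres, hfit⟩ := hn₁ n (by omega)
  have hnk : k ≤ n := by omega
  have hnR : (0 : ℝ) < n := by exact_mod_cast hn0
  have hn8 : (m : ℝ) ^ 2 / n < 1 / 8 := by
    rw [div_lt_iff₀ hnR]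
    have h1 : 8 * m ^ 2 < n := by omega
    have h2 : (8 : ℝ) * m ^ 2 < n := by exact_mod_cast h1
    linarith
  obtain ⟨S, hS, hhS⟩ := dep_of_ps hh
  obtain ⟨ρ, H, hρ, hH⟩ := ps_of_dep hnk hS hhS
  have hne : Nonempty (Fin m) := ⟨⟨0, hm0⟩⟩
  -- the base test
  set T : (((Fin n → Fin m) × Equiv.Perm (Fin n) × (Fin N → Cube n)) ×
      (Equiv.Perm (Fin n) × (Fin N' → Cube n))) → (Cube n → Bool) → Bool := fun w f =>
    decide (AOk k N (8 * η) f w.1 ∧ BOk m' L k N' (8 * η) H f w.2) with hT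
  have hTP : ∀ f : Cube n → Bool, Pr (fun w => T w f = true) =
      Pr (fun w : (Fin n → Fin m) × Equiv.Perm (Fin n) × (Fin N → Cube n) =>
        AOk k N (8 * η) f w) *
      Pr (fun w : Equiv.Perm (Fin n) × (Fin N' → Cube n) => BOk m' L k N' (8 * η) H f w) := by
    intro f
    rw [← Pr_both]
    apply Pr_congr
    intro w
    simp only [hT, decide_eq_true_eq]
  have hdep : ∀ w, DependsOn q (T w) := by
    intro w
    obtain ⟨QA, hQA, hA⟩ := A_depends (k := k) (8 * η) w.1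
    obtain ⟨QB, hQB, hB⟩ := B_depends (m := m') (L := L) (8 * η) H w.2
    refine ⟨QA ∪ QB, (Finset.card_union_le _ _).trans (by omega), ?_⟩
    intro f f' hff
    have h1 := hA f f' (fun x hx => hff x (Finset.mem_union_left _ hx))
    have h2 := hB f f' (fun x hx => hff x (Finset.mem_union_right _ hx))
    rw [decide_eq_decide] at h1 h2
    simp only [hT]
    rw [decide_eq_decide, h1, h2]
  refine exists_tester_of_base (m := 300) (q := q) T hdep g (500 * η) (33 / 64) (1 / 3)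
    (by norm_num) (by norm_num) ?_ ?_
  · rintro f ⟨π, rfl⟩
    rw [hTP]
    have hd : dist (permute g π) (permute h π) ≤ η := by rw [dist_permute]; exact hgh
    have h1 := A_complete (m := m) hN0 (by omega) hm0 hη
      (S := S.image π) (Finset.card_image_le.trans hS) (dep_permute hhS π) hd
    have hh' : permute h π = fun x : Cube n => H (fun a => x (π (ρ a))) (wt x) := by
      have : h = fun x : Cube n => H (fun a => x (ρ a)) (wt x) := funext hH
      rw [this, permute_rep]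
    rw [hh'] at hd
    have h2 := B_complete (m := m') (L := L) (k := k) (N := N') hN'0 hm'0 hL hmL hm'n hη hfit
      hres hblk (ρ := fun a => π (ρ a)) (fun a b hab => hρ (π.injective hab)) hd
    calc (33 / 64 : ℝ) ≤ 3 / 4 * (3 / 4 - 1 / 24) := by norm_num
      _ ≤ _ := mul_le_mul h1 h2 (by norm_num) (Pr_nonneg _)
  · intro f hf
    rw [hTP]
    by_contra hcon
    push Not at hcon
    set PA := Pr (fun w : (Fin n → Fin m) × Equiv.Perm (Fin n) × (Fin N → Cube n) =>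
        AOk k N (8 * η) f w) with hPA
    set PB := Pr (fun w : Equiv.Perm (Fin n) × (Fin N' → Cube n) =>
      BOk m' L k N' (8 * η) H f w) with hPB
    have hA0 : 0 ≤ PA := Pr_nonneg _
    have hB0 : 0 ≤ PB := Pr_nonneg _
    have hA1 : PA ≤ 1 := Pr_le_one _
    have hB1 : PB ≤ 1 := Pr_le_one _
    have hA : 1 / 3 ≤ PA := by nlinarith
    have hB : 1 / 3 ≤ PB := by nlinarith
    have h1 := A_sound1 hN0 hm0 hη hN hA
    obtain ⟨S', hS', f', hf'S, hf'⟩ := A_sound2 hk hm2 hη hm3 hmη hmη' hn8 hn0 h1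
    obtain ⟨ρ', F, hρ', hF⟩ := ps_of_dep hnk hS' hf'S
    have hf'' : dist f (fun x => F (fun a => x (ρ' a)) (wt x)) ≤ 46 * η := by
      have : f' = fun x : Cube n => F (fun a => x (ρ' a)) (wt x) := funext hF
      rwa [this] at hf'
    obtain ⟨C, C', hC, hC', hCC⟩ := B_sound hN'0 hm'0 hL hmL hm'n hη hfit hres hblk hN' hρ' hf'' hB
    obtain ⟨π, hπ⟩ := relabel hρ' hρ hC hC' F H hCC
    have hh' : (fun x : Cube n => H (fun a => x (ρ a)) (wt x)) = h := (funext hH).symm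
    rw [hh'] at hπ
    have h3 := hf π
    have h4 := dist_triangle f (fun x => F (fun a => x (ρ' a)) (wt x)) (permute g π)
    have h5 := dist_triangle (fun x => F (fun a => x (ρ' a)) (wt x)) (permute h π) (permute g π)
    have h6 : dist (permute h π) (permute g π) ≤ η := by
      rw [dist_permute, dist_comm]; exact hgh
    linarith

theorem testable_of_closeToPS {g : (n : ℕ) → Cube n → Bool} (hg : CloseToPS g) :
    EfficientlyTestable g := by
  intro ε hε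
  obtain ⟨k, hk⟩ := hg (ε / 500) (by positivity)
  obtain ⟨q, n₀, h⟩ := testable_large (k := k + 1) (by omega) (η := ε / 500) (by positivity)
  refine ⟨max q (2 ^ n₀), fun n => ?_⟩
  rcases Nat.lt_or_ge n (max n₀ 1) with hn | hn
  · have h1 : 2 ^ n ≤ 2 ^ n₀ := by
      apply Nat.pow_le_pow_right (by norm_num)
      omega
    exact exists_tester_mono (h1.trans (le_max_right _ _)) (exists_tester_brute ε hε (g n))
  · obtain ⟨f, hf1, hf2⟩ := hk n (by omega)
    have h2 := h n (by omega) (g n) f (ps_succ (by omega) hf1) hf2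
    have h3 : 500 * (ε / 500) = ε := by ring
    rw [h3] at h2
    exact exists_tester_mono (le_max_left _ _) h2

end Pool.Agent.MP4d28ec.Suff
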